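import Mathlib

set_option linter.unusedSectionVars false

open Set Metric Topology

namespace Pool.Agent.Lib.MP_1e31fb_an

/-- `g` is `L`-Lipschitz on `S`. -/
def LipOn {X Z : Type*} [NormedAddCommGroup X] [NormedAddCommGroup Z] (L : ℝ) (g : X → Z)
    (S : Set X) : Prop :=
  ∀ x ∈ S, ∀ y ∈ S, ‖g x - g y‖ ≤ L * ‖x - y‖

section

variable {X Z : Type*} [NormedAddCommGroup X] [NormedSpace ℝ X] [NormedAddCommGroup Z]

theorem LipOn.mono {L : ℝ} {g : X → Z} {S T : Set X} (h : LipOn L g T) (hST : S ⊆ T) :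
    LipOn L g S := fun x hx y hy => h x (hST hx) y (hST hy)

theorem LipOn.mono_const {L M : ℝ} {g : X → Z} {S : Set X} (h : LipOn L g S) (hLM : L ≤ M) :
    LipOn M g S := fun x hx y hy => (h x hx y hy).trans
  (mul_le_mul_of_nonneg_right hLM (norm_nonneg _))

theorem LipOn.congr {L : ℝ} {g g' : X → Z} {S : Set X} (h : LipOn L g S)
    (hg : ∀ x ∈ S, g' x = g x) : LipOn L g' S := fun x hx y hy => by
  rw [hg x hx, hg y hy]; exact h x hx y hy

theorem LipOn.continuousOn {L : ℝ} {g : X → Z} {S : Set X} (h : LipOn L g S) :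
    ContinuousOn g S := by
  have h1 : LipschitzOnWith (Real.toNNReal (max L 0)) g S := by
    refine LipschitzOnWith.of_dist_le_mul fun x hx y hy => ?_
    rw [dist_eq_norm, dist_eq_norm, Real.coe_toNNReal _ (le_max_right _ _)]
    exact (h x hx y hy).trans (mul_le_mul_of_nonneg_right (le_max_left _ _) (norm_nonneg _))
  exact h1.continuousOn

theorem LipOn.continuous {L : ℝ} {g : X → Z} (h : LipOn L g univ) : Continuous g :=
  continuousOn_univ.1 h.continuousOn

theorem lipOn_iff_lipschitzOnWith {K : NNReal} {g : X → Z} {S : Set X} :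
    LipOn K g S ↔ LipschitzOnWith K g S := by
  rw [lipschitzOnWith_iff_dist_le_mul]
  simp only [LipOn, dist_eq_norm]

/-- The closure of the set where `g` is Lipschitz. -/
theorem LipOn.closure {L : ℝ} {g : X → Z} {S : Set X} (h : LipOn L g S)
    (hg : Continuous g) : LipOn L g (closure S) := by
  intro x hx y hy
  have hcl : IsClosed {p : X × X | ‖g p.1 - g p.2‖ ≤ L * ‖p.1 - p.2‖} :=
    isClosed_le (by fun_prop) (by fun_prop)
  have hsub : S ×ˢ S ⊆ {p : X × X | ‖g p.1 - g p.2‖ ≤ L * ‖p.1 - p.2‖} :=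
    fun p hp => h p.1 hp.1 p.2 hp.2
  have h1 := closure_minimal hsub hcl
  rw [closure_prod_eq] at h1
  exact h1 (mk_mem_prod hx hy)

/-- A segment from a point of `A` to a point outside of `A` meets the frontier of `A`. -/
theorem exists_mem_frontier {A : Set X} {x y : X} (hx : x ∈ A) (hy : y ∉ A) :
    ∃ w ∈ segment ℝ x y, w ∈ frontier A := by
  by_contra hcon
  push Not at hcon
  have hpre : IsPreconnected (segment ℝ x y) := (convex_segment x y).isPreconnected
  have hsub : segment ℝ x y ⊆ interior A ∪ (closure A)ᶜ := by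
    intro w hw
    by_contra h
    rw [mem_union, not_or] at h
    exact hcon w hw ⟨not_not.1 h.2, h.1⟩
  have hdisj : Disjoint (interior A) (closure A)ᶜ :=
    disjoint_compl_right_iff_subset.2 (interior_subset.trans subset_closure)
  rcases IsPreconnected.subset_or_subset isOpen_interior isClosed_closure.isOpen_compl hdisj hsub
    hpre with h | h
  · exact hy (interior_subset (h (right_mem_segment ℝ x y)))
  · exact h (left_mem_segment ℝ x y) (subset_closure hx)

theorem norm_add_of_mem_segment {x y w : X} (hw : w ∈ segment ℝ x y) :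
    ‖x - w‖ + ‖w - y‖ = ‖x - y‖ := by
  have := dist_add_dist_of_mem_segment hw
  simpa only [dist_eq_norm] using this

/-- Gluing of Lipschitz maps. -/
theorem lipOn_union {L : ℝ} {g : X → Z} {A B : Set X} (hA : LipOn L g A)
    (hB : LipOn L g B)
    (hAB : ∀ x ∈ A, ∀ y ∈ B, ∃ w ∈ segment ℝ x y, w ∈ A ∧ w ∈ B) : LipOn L g (A ∪ B) := by
  have key : ∀ x ∈ A, ∀ y ∈ B, ‖g x - g y‖ ≤ L * ‖x - y‖ := by
    intro x hx y hy
    obtain ⟨w, hw, hwA, hwB⟩ := hAB x hx y hy
    calc ‖g x - g y‖ ≤ ‖g x - g w‖ + ‖g w - g y‖ := norm_sub_le_norm_sub_add_norm_sub _ _ _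
      _ ≤ L * ‖x - w‖ + L * ‖w - y‖ := add_le_add (hA x hx w hwA) (hB w hwB y hy)
      _ = L * ‖x - y‖ := by rw [← mul_add, norm_add_of_mem_segment hw]
  rintro x (hx | hx) y (hy | hy)
  · exact hA x hx y hy
  · exact key x hx y hy
  · rw [norm_sub_rev, norm_sub_rev x y]
    exact key y hy x hx
  · exact hB x hx y hy

/-- Replacing a map inside an open set. -/
theorem lipOn_piecewise {L : ℝ} {u v : X → Z} {U : Set X} [∀ x, Decidable (x ∈ U)]
    (hU : IsOpen U)
    (hu : LipOn L u Uᶜ) (hv : LipOn L v (closure U)) (huv : ∀ x ∈ frontier U, u x = v x) :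
    LipOn L (fun x => if x ∈ U then v x else u x) univ := by
  have h1 : LipOn L (fun x => if x ∈ U then v x else u x) Uᶜ :=
    hu.congr fun x hx => if_neg hx
  have h2 : LipOn L (fun x => if x ∈ U then v x else u x) (closure U) := by
    refine hv.congr fun x hx => ?_
    by_cases h : x ∈ U
    · rw [if_pos h]
    · rw [if_neg h]
      exact huv x ⟨hx, by rwa [hU.interior_eq]⟩
  have h3 : closure U ∪ Uᶜ = univ := by
    apply eq_univ_of_forall
    intro x
    by_cases h : x ∈ U
    · exact Or.inl (subset_closure h)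
    · exact Or.inr h
  rw [← h3]
  refine lipOn_union h2 h1 fun x hx y hy => ?_
  by_cases hxU : x ∈ U
  · obtain ⟨w, hw, hwf⟩ := exists_mem_frontier hxU hy
    refine ⟨w, hw, frontier_subset_closure hwf, ?_⟩
    rw [hU.frontier_eq] at hwf
    exact hwf.2
  · exact ⟨x, left_mem_segment ℝ x y, hx, hxU⟩

end

end Pool.Agent.Lib.MP_1e31fb_an
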