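import Pool.Agent.Lib.MP_1e31fb_an.Lock

set_option linter.unusedSectionVars false

open Set Metric Topology Filter
open scoped RealInnerProductSpace

namespace Pool.Agent.Lib.MP_1e31fb_an

variable {H₁ H₂ : Type*} [NormedAddCommGroup H₁] [InnerProductSpace ℝ H₁] [CompleteSpace H₁]
  [NormedAddCommGroup H₂] [InnerProductSpace ℝ H₂] [CompleteSpace H₂]

/-- The graph map. -/
def gr (F : Set H₁) (f : H₁ → H₂) (z : F) : WithLp 2 (H₁ × H₂) := WithLp.toLp 2 ((z : H₁), f z)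

/-- The average of points of `F`. -/
noncomputable def avz (F : Set H₁) (l : F →₀ ℝ) : H₁ := av (fun z : F => (z : H₁)) l

/-- The average of values. -/
noncomputable def avf (F : Set H₁) (f : H₁ → H₂) (l : F →₀ ℝ) : H₂ := av (fun z : F => f z) l

theorem av_gr (F : Set H₁) (f : H₁ → H₂) (l : F →₀ ℝ) :
    av (gr F f) l = WithLp.toLp 2 (avz F l, avf F f l) := by
  apply (WithLp.equiv 2 (H₁ × H₂)).injective
  have h1 : (WithLp.equiv 2 (H₁ × H₂)) (av (gr F f) l) =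
      ∑ i ∈ l.support, l i • ((i : H₁), f i) := by
    rw [av_apply]
    have : ∀ s : Finset F, (WithLp.equiv 2 (H₁ × H₂)) (∑ i ∈ s, l i • gr F f i) =
        ∑ i ∈ s, l i • ((i : H₁), f i) := by
      intro s
      induction s using Finset.cons_induction with
      | empty => rfl
      | cons a s has ih =>
        rw [Finset.sum_cons, Finset.sum_cons, ← ih]
        rfl
    exact this _
  rw [h1]
  have h2 : (WithLp.equiv 2 (H₁ × H₂)) (WithLp.toLp 2 (avz F l, avf F f l)) =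
    (avz F l, avf F f l) := rfl
  rw [h2, avz, avf, av_apply, av_apply]
  simp only [Prod.smul_mk]
  rw [Prod.ext_iff]
  simp [Prod.fst_sum, Prod.snd_sum]

/-- The excess of variance. -/
noncomputable def exc (F : Set H₁) (f : H₁ → H₂) (l : F →₀ ℝ) : ℝ :=
  var (fun z : F => (z : H₁)) l - var (fun z : F => f z) l

theorem exc_nonneg {F : Set H₁} {f : H₁ → H₂} (hf : LipOn 1 f F) {l : F →₀ ℝ}
    (hl : l ∈ simplex F) : 0 ≤ exc F f l := by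
  unfold exc
  have : var (fun z : F => f z) l ≤ var (fun z : F => (z : H₁)) l := by
    refine var_le_var hl fun i j => ?_
    have := hf i i.2 j j.2
    rwa [one_mul] at this
  linarith

theorem J_gr (F : Set H₁) (f : H₁ → H₂) (h : F → ℝ) (x : H₁) (l : F →₀ ℝ) :
    J (av fun z : F => ‖(z : H₁)‖ ^ 2 - ‖f z‖ ^ 2 - h z) (av (gr F f))
      (WithLp.toLp 2 ((2 : ℝ) • x, 0)) l =
      2 * ‖x‖ ^ 2 + 2 * ‖avz F l - x‖ ^ 2 + exc F f l - av h l := by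
  unfold J exc var
  rw [av_gr, av_sub, av_sub, ← WithLp.toLp_sub, WithLp.prod_norm_sq_eq_of_L2]
  simp only [Prod.mk_sub_mk, sub_zero]
  change _ = 2 * ‖x‖ ^ 2 + 2 * ‖avz F l - x‖ ^ 2 +
    (av (fun z : F => ‖(z : H₁)‖ ^ 2) l - ‖avz F l‖ ^ 2 -
    (av (fun z : F => ‖f z‖ ^ 2) l - ‖avf F f l‖ ^ 2)) - av h l
  generalize avz F l = a
  generalize avf F f l = b
  have h0 : (WithLp.toLp 2 (a - (2 : ℝ) • x, b)).fst = a - (2 : ℝ) • x := rfl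
  have h0' : (WithLp.toLp 2 (a - (2 : ℝ) • x, b)).snd = b := rfl
  rw [h0, h0']
  have h1 : ‖a - (2 : ℝ) • x‖ ^ 2 = ‖a‖ ^ 2 - 4 * ⟪a, x⟫ + 4 * ‖x‖ ^ 2 := by
    rw [norm_sub_sq_real, inner_smul_right, norm_smul, Real.norm_eq_abs, abs_two]
    ring
  have h2 : ‖a - x‖ ^ 2 = ‖a‖ ^ 2 - 2 * ⟪a, x⟫ + ‖x‖ ^ 2 := norm_sub_sq_real _ _
  rw [h1, h2]
  ring

/-- The consequence of room: a lower bound of the excess. -/
theorem exc_room {F : Set H₁} {f : H₁ → H₂} {x : H₁} {ρ : ℝ} (hρ : 0 ≤ ρ)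
    (hx : x ∈ Room F f ρ) {l : F →₀ ℝ} (hl : l ∈ simplex F) :
    ρ * av (fun z : F => ‖(z : H₁) - x‖) l - ‖avz F l - x‖ ^ 2 ≤ exc F f l := by
  obtain ⟨m, hm⟩ := id hx
  have h1 := av_norm_sub_sq (fun z : F => f z) hl m
  have h2 := av_norm_sub_sq (fun z : F => (z : H₁)) hl x
  have h3 : av (fun z : F => ‖f z - m‖ ^ 2) l ≤
      av (fun z : F => ‖(z : H₁) - x‖ ^ 2 - ρ * ‖(z : H₁) - x‖) l := by
    refine av_mono hl fun z => ?_
    have h4 := hm z z.2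
    have h5 := room_dist hx z.2
    rw [norm_sub_rev] at h4
    rw [norm_sub_rev x] at h4 h5
    have h6 : 0 ≤ ‖f z - m‖ := norm_nonneg _
    nlinarith
  rw [av_sub, av_const_mul] at h3
  unfold exc
  have h4 := sq_nonneg ‖av (fun z : F => f z) l - m‖
  change _ = _ + ‖avz F l - x‖ ^ 2 at h2
  linarith

/-- The second estimate. -/
theorem second_est {F : Set H₁} {f : H₁ → H₂} (hf : LipOn 1 f F) {l : F →₀ ℝ}
    (hl : l ∈ simplex F) {z : H₁} (hz : z ∈ F) :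
    ‖avf F f l - f z‖ ^ 2 ≤ ‖avz F l - z‖ ^ 2 + exc F f l := by
  have h1 := av_norm_sub_sq (fun z : F => f z) hl (f z)
  have h2 := av_norm_sub_sq (fun z : F => (z : H₁)) hl z
  have h3 : av (fun z' : F => ‖f z' - f z‖ ^ 2) l ≤ av (fun z' : F => ‖(z' : H₁) - z‖ ^ 2) l := by
    refine av_mono hl fun z' => ?_
    have := hf z' z'.2 z hz
    rw [one_mul] at this
    gcongr
  unfold exc
  change _ = _ + ‖avz F l - z‖ ^ 2 at h2
  change _ = _ + ‖avf F f l - f z‖ ^ 2 at h1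
  linarith

/-- The algebraic combination of the two estimates. -/
theorem combine {d c : H₁} {S η ρd X E₁ E₂ : ℝ} {hb hz : ℝ} (hη0 : 0 ≤ η) (hη1 : η ≤ 1 / 2)
    (hS : ρd - ‖c‖ ^ 2 ≤ S)
    (h1 : X ≤ 2 * ‖d‖ ^ 2 - ‖d + c‖ ^ 2 - 2 * ‖c‖ ^ 2 - S + hb - hz + E₁)
    (h2 : X ≤ ‖d + c‖ ^ 2 + S + E₂) :
    X ≤ ‖d‖ ^ 2 + 4 * η ^ 2 * ‖d‖ ^ 2 - 2 * η * ρd + (1 / 2 + η) * (hb - hz) +
      ((1 / 2 + η) * E₁ + (1 / 2 - η) * E₂) := by
  have e1 : ‖d + c‖ ^ 2 = ‖d‖ ^ 2 + 2 * ⟪d, c⟫ + ‖c‖ ^ 2 := norm_add_sq_real _ _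
  have e2 : -(‖d‖ * ‖c‖) ≤ ⟪d, c⟫ := by
    have h3 := abs_real_inner_le_norm d c
    have h4 := neg_abs_le ⟪d, c⟫
    linarith
  have e3 : 0 ≤ (2 * η * ‖d‖ - ‖c‖) ^ 2 := sq_nonneg _
  have e4 : 4 * η * (-(‖d‖ * ‖c‖)) ≤ 4 * η * ⟪d, c⟫ :=
    mul_le_mul_of_nonneg_left e2 (by positivity)
  have e5 : 2 * η * (ρd - ‖c‖ ^ 2) ≤ 2 * η * S := mul_le_mul_of_nonneg_left hS (by positivity)
  have e6 : 0 ≤ η * ‖c‖ ^ 2 := by positivity
  rw [e1] at h1 h2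
  have h1' := mul_le_mul_of_nonneg_left h1 (show 0 ≤ 1 / 2 + η by linarith)
  have h2' := mul_le_mul_of_nonneg_left h2 (show 0 ≤ 1 / 2 - η by linarith)
  nlinarith

/-- The penalized functional. -/
noncomputable def qpen (F : Set H₁) (f : H₁ → H₂) (ε : ℝ) (z : F) : ℝ :=
  ‖(z : H₁)‖ ^ 2 - ‖f z‖ ^ 2 - ε * ‖(z : H₁)‖

/-- The center. -/
def cen (H₂ : Type*) [NormedAddCommGroup H₂] (x : H₁) : WithLp 2 (H₁ × H₂) :=
  WithLp.toLp 2 ((2 : ℝ) • x, 0)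

theorem J_pen (F : Set H₁) (f : H₁ → H₂) (ε : ℝ) (x : H₁) (l : F →₀ ℝ) :
    J (av (qpen F f ε)) (av (gr F f)) (cen H₂ x) l =
      2 * ‖x‖ ^ 2 + 2 * ‖avz F l - x‖ ^ 2 + exc F f l - ε * av (fun z : F => ‖(z : H₁)‖) l := by
  have := J_gr F f (fun z : F => ε * ‖(z : H₁)‖) x l
  rw [av_const_mul] at this
  exact this

theorem J_pen_single (F : Set H₁) (f : H₁ → H₂) (ε : ℝ) (x : H₁) (z : F) :
    J (av (qpen F f ε)) (av (gr F f)) (cen H₂ x) (Finsupp.single z (1 : ℝ)) =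
      2 * ‖x‖ ^ 2 + 2 * ‖(z : H₁) - x‖ ^ 2 - ε * ‖(z : H₁)‖ := by
  rw [J_pen]
  unfold exc var avz
  simp

/-- Bounds for averages of norms. -/
theorem av_norm_le {F : Set H₁} {x : H₁} {R : ℝ} (hx : ‖x‖ ≤ R) {l : F →₀ ℝ}
    (hl : l ∈ simplex F) :
    av (fun z : F => ‖(z : H₁)‖) l ≤ R + av (fun z : F => ‖(z : H₁) - x‖) l := by
  have h1 : av (fun z : F => ‖(z : H₁)‖) l ≤ av (fun z : F => R + ‖(z : H₁) - x‖) l := by
    refine av_mono hl fun z => ?_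
    have : ‖(z : H₁)‖ ≤ ‖(z : H₁) - x‖ + ‖x‖ := by
      have := norm_add_le ((z : H₁) - x) x
      rwa [sub_add_cancel] at this
    linarith
  rwa [av_add, av_const _ hl] at h1

theorem le_av_dist {F : Set H₁} {f : H₁ → H₂} {x : H₁} {ρ : ℝ} (hx : x ∈ Room F f ρ)
    {l : F →₀ ℝ} (hl : l ∈ simplex F) : ρ ≤ av (fun z : F => ‖(z : H₁) - x‖) l := by
  have h1 : av (fun _ : F => ρ) l ≤ av (fun z : F => ‖(z : H₁) - x‖) l := by
    refine av_mono hl fun z => ?_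
    rw [norm_sub_rev]
    exact room_dist hx z.2
  rwa [av_const _ hl] at h1

theorem J_pen_lower {F : Set H₁} {f : H₁ → H₂} {x : H₁} {ρ R ε : ℝ} (hρ : 0 < ρ)
    (hx : x ∈ Room F f ρ) (hxR : ‖x‖ ≤ R) (hε0 : 0 ≤ ε) (hε1 : ε ≤ ρ / 2) (hε2 : ε * R ≤ 1)
    {l : F →₀ ℝ} (hl : l ∈ simplex F) :
    2 * ‖x‖ ^ 2 + (ρ / 2) * av (fun z : F => ‖(z : H₁) - x‖) l - 1 ≤
      J (av (qpen F f ε)) (av (gr F f)) (cen H₂ x) l := by
  rw [J_pen]
  have h1 := exc_room hρ.le hx hl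
  have h2 := av_norm_le hxR hl
  have h3 := le_av_dist hx hl
  have h4 := mul_le_mul_of_nonneg_left h2 hε0
  have h5 : ε * av (fun z : F => ‖(z : H₁) - x‖) l ≤ (ρ / 2) *
      av (fun z : F => ‖(z : H₁) - x‖) l := mul_le_mul_of_nonneg_right hε1 (by linarith)
  have h6 := sq_nonneg ‖avz F l - x‖
  linarith

/-- The pointwise margin. -/
theorem margin_pt {F : Set H₁} {f : H₁ → H₂} (hf : LipOn 1 f F) {x z z₀ : H₁} (hz₀ : z₀ ∈ F)
    {ρ R ε D₁ D₂ Δ₀ ρ' φ : ℝ} {P : WithLp 2 (H₁ × H₂)} (hρ : 0 < ρ)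
    (hx : x ∈ Room F f ρ) (hxR : ‖x‖ ≤ R) (hε0 : 0 ≤ ε) (hε1 : ε ≤ ρ / 2) (hε2 : ε * R ≤ 1)
    (hD₁ : D₁ = ‖z₀‖ + R) (hD₂ : D₂ = 4 * (D₁ ^ 2 + 1) / ρ) (hΔ₀ : Δ₀ = 2 * (2 * R + D₂))
    (hε3 : ε * (R + D₂) ≤ ρ ^ 4 / (8 * Δ₀ ^ 2)) (hρ'1 : ρ' ≤ ε / 8)
    (hρ'2 : ρ' ≤ ρ ^ 4 / (16 * Δ₀ ^ 3))
    (hP : IsProx (simplex F) (av (qpen F f ε)) (av (gr F f)) (cen H₂ x) φ P) (hz : z ∈ F) :
    ‖P.snd - f z‖ ^ 2 ≤ ‖x - z‖ ^ 2 - 2 * ρ' * ‖x - z‖ := by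
  have hR0 : 0 ≤ R := (norm_nonneg _).trans hxR
  have hD₂0 : 0 < D₂ := by rw [hD₂]; positivity
  have hΔ₀0 : 0 < Δ₀ := by rw [hΔ₀]; positivity
  obtain ⟨l, hl, hJ, he⟩ := hP.seq
  have he' : Tendsto (fun n => (WithLp.toLp 2 (avz F (l n), avf F f (l n)) : WithLp 2 (H₁ × H₂)))
      atTop (𝓝 P) := by
    simpa only [av_gr] using he
  have hafst : Tendsto (fun n => avz F (l n)) atTop (𝓝 P.fst) := by
    have hc : Continuous fun p : WithLp 2 (H₁ × H₂) => p.fst := by fun_prop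
    exact (hc.tendsto P).comp he'
  have hasnd : Tendsto (fun n => avf F f (l n)) atTop (𝓝 P.snd) := by
    have hc : Continuous fun p : WithLp 2 (H₁ × H₂) => p.snd := by fun_prop
    exact (hc.tendsto P).comp he'
  -- bounds of the average distance
  have hφ : φ ≤ 2 * ‖x‖ ^ 2 + 2 * D₁ ^ 2 := by
    have h1 := hP.phi_le (single_mem_simplex (⟨z₀, hz₀⟩ : F))
    rw [J_pen_single] at h1
    have h2 : ‖z₀ - x‖ ≤ D₁ := by
      have := norm_sub_le z₀ x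
      rw [hD₁]
      linarith
    have h3 : ‖z₀ - x‖ ^ 2 ≤ D₁ ^ 2 := by gcongr
    have h4 : 0 ≤ ε * ‖z₀‖ := by positivity
    simp only at h1
    linarith
  have hdb : ∀ᶠ n in atTop, av (fun z : F => ‖(z : H₁) - x‖) (l n) ≤ D₂ := by
    have h1 : ∀ᶠ n in atTop, J (av (qpen F f ε)) (av (gr F f)) (cen H₂ x) (l n) < φ + 1 :=
      hJ.eventually (gt_mem_nhds (by linarith))
    filter_upwards [h1] with n hn
    have h2 := J_pen_lower hρ hx hxR hε0 hε1 hε2 (hl n)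
    have h3 : (ρ / 2) * av (fun z : F => ‖(z : H₁) - x‖) (l n) ≤ (ρ / 2) * D₂ := by
      have : (ρ / 2) * D₂ = 2 * D₁ ^ 2 + 2 := by
        rw [hD₂]
        field_simp
        ring
      linarith
    exact le_of_mul_le_mul_left h3 (by positivity)
  -- the errors
  let E₁ : ℕ → ℝ := fun n => (‖z - avz F (l n)‖ ^ 2 - ‖z - P.fst‖ ^ 2) +
    (J (av (qpen F f ε)) (av (gr F f)) (cen H₂ x) (l n) - φ)
  let E₂ : ℕ → ℝ := fun n => ‖P.snd - f z‖ ^ 2 - ‖avf F f (l n) - f z‖ ^ 2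
  have hE₁ : Tendsto E₁ atTop (𝓝 0) := by
    have h1 : Tendsto E₁ atTop (𝓝 ((‖z - P.fst‖ ^ 2 - ‖z - P.fst‖ ^ 2) + (φ - φ))) :=
      (((hafst.const_sub z).norm.pow 2).sub_const _).add (hJ.sub_const _)
    simpa using h1
  have hE₂ : Tendsto E₂ atTop (𝓝 0) := by
    have h1 : Tendsto E₂ atTop (𝓝 (‖P.snd - f z‖ ^ 2 - ‖P.snd - f z‖ ^ 2)) :=
      ((hasnd.sub_const (f z)).norm.pow 2).const_sub _
    simpa using h1
  obtain ⟨Δ, hΔ⟩ : ∃ Δ, Δ = ‖z - x‖ := ⟨_, rfl⟩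
  have hρΔ : ρ ≤ Δ := by
    rw [hΔ, norm_sub_rev]
    exact room_dist hx hz
  have hΔ0 : 0 < Δ := by linarith
  obtain ⟨X, hX⟩ : ∃ X, X = ‖P.snd - f z‖ ^ 2 := ⟨_, rfl⟩
  -- the first estimate
  have hfirst : X ≤ 2 * ‖x‖ ^ 2 + 2 * Δ ^ 2 - ε * ‖z‖ - ‖z - P.fst‖ ^ 2 - φ := by
    have h1 := hP.le _ (single_mem_simplex (⟨z, hz⟩ : F))
    rw [J_pen_single, av_single, WithLp.prod_norm_sq_eq_of_L2] at h1
    have h2 : (gr F f ⟨z, hz⟩ - P).fst = z - P.fst := rfl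
    have h3 : (gr F f ⟨z, hz⟩ - P).snd = f z - P.snd := rfl
    rw [h2, h3, norm_sub_rev (f z), ← hX] at h1
    simp only [← hΔ] at h1
    linarith
  have hcomb : ∀ n, ∀ η : ℝ, 0 ≤ η → η ≤ 1 / 2 →
      X ≤ Δ ^ 2 + 4 * η ^ 2 * Δ ^ 2 -
        2 * η * (ρ * av (fun z : F => ‖(z : H₁) - x‖) (l n)) +
        (1 / 2 + η) * (ε * av (fun z : F => ‖(z : H₁)‖) (l n) - ε * ‖z‖) +
        ((1 / 2 + η) * E₁ n + (1 / 2 - η) * E₂ n) := by
    intro n η hη0 hη1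
    have e1 : z - x + (x - avz F (l n)) = z - avz F (l n) := by abel
    have e2 : ‖x - avz F (l n)‖ = ‖avz F (l n) - x‖ := norm_sub_rev _ _
    have h1 := combine (d := z - x) (c := x - avz F (l n)) (S := exc F f (l n)) (η := η)
      (ρd := ρ * av (fun z : F => ‖(z : H₁) - x‖) (l n)) (X := X) (E₁ := E₁ n) (E₂ := E₂ n)
      (hb := ε * av (fun z : F => ‖(z : H₁)‖) (l n)) (hz := ε * ‖z‖) hη0 hη1
      (by rw [e2]; exact exc_room hρ.le hx (hl n))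
      (by
        rw [e1, e2, ← hΔ]
        simp only [E₁]
        rw [J_pen]
        linarith)
      (by
        rw [e1]
        simp only [E₂]
        have := second_est hf (hl n) hz
        rw [norm_sub_rev z, hX]
        linarith)
    rw [← hΔ] at h1
    exact h1
  have hmain : X ≤ Δ ^ 2 - 2 * ρ' * Δ := by
    by_cases hfar : Δ₀ ≤ Δ
    · -- far points
      have h1 : Tendsto (fun n => Δ ^ 2 - 2 * ρ' * Δ + ((1 / 2 + 0) * E₁ n + (1 / 2 - 0) * E₂ n))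
          atTop (𝓝 (Δ ^ 2 - 2 * ρ' * Δ + ((1 / 2 + 0) * 0 + (1 / 2 - 0) * 0))) :=
        ((hE₁.const_mul _).add (hE₂.const_mul _)).const_add _
      have h2 : ∀ᶠ n in atTop, X ≤ Δ ^ 2 - 2 * ρ' * Δ +
          ((1 / 2 + 0) * E₁ n + (1 / 2 - 0) * E₂ n) := by
        filter_upwards [hdb] with n hn
        have h3 := hcomb n 0 le_rfl (by norm_num)
        have h4 := mul_le_mul_of_nonneg_left (av_norm_le hxR (hl n)) hε0
        have h5 := mul_le_mul_of_nonneg_left hn hε0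
        have h6 : Δ - R ≤ ‖z‖ := by
          have := norm_sub_le z x
          rw [← hΔ] at this
          linarith
        have h7 := mul_le_mul_of_nonneg_left h6 hε0
        have h8 := mul_le_mul_of_nonneg_left hfar hε0
        have h9 := mul_le_mul_of_nonneg_right hρ'1 hΔ0.le
        rw [hΔ₀] at h8
        linarith
      have h3 := ge_of_tendsto h1 h2
      linarith
    · -- near points
      push Not at hfar
      obtain ⟨η, hη⟩ : ∃ η, η = ρ ^ 2 / (4 * Δ ^ 2) := ⟨_, rfl⟩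
      have hη0 : 0 ≤ η := by rw [hη]; positivity
      have hη1 : η ≤ 1 / 2 := by
        rw [hη, div_le_iff₀ (by positivity)]
        nlinarith
      have hηρ : 4 * η ^ 2 * Δ ^ 2 = η * ρ ^ 2 := by
        rw [hη]
        field_simp
      have hηlow : ρ ^ 4 / (4 * Δ₀ ^ 2) ≤ η * ρ ^ 2 := by
        have : η * ρ ^ 2 = ρ ^ 4 / (4 * Δ ^ 2) := by
          rw [hη]
          field_simp
        rw [this]
        gcongr
      have hρΔ₀ : 2 * ρ' * Δ ≤ ρ ^ 4 / (8 * Δ₀ ^ 2) := by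
        have h3 : 2 * ρ' * Δ ≤ 2 * (ρ ^ 4 / (16 * Δ₀ ^ 3)) * Δ₀ := by gcongr
        have h4 : 2 * (ρ ^ 4 / (16 * Δ₀ ^ 3)) * Δ₀ = ρ ^ 4 / (8 * Δ₀ ^ 2) := by
          field_simp
          norm_num
        linarith
      have hhalf : ρ ^ 4 / (4 * Δ₀ ^ 2) = 2 * (ρ ^ 4 / (8 * Δ₀ ^ 2)) := by
        field_simp
        norm_num
      have h1 : Tendsto (fun n => Δ ^ 2 - 2 * ρ' * Δ + ((1 / 2 + η) * E₁ n + (1 / 2 - η) * E₂ n))
          atTop (𝓝 (Δ ^ 2 - 2 * ρ' * Δ + ((1 / 2 + η) * 0 + (1 / 2 - η) * 0))) :=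
        ((hE₁.const_mul _).add (hE₂.const_mul _)).const_add _
      have h2 : ∀ᶠ n in atTop, X ≤ Δ ^ 2 - 2 * ρ' * Δ +
          ((1 / 2 + η) * E₁ n + (1 / 2 - η) * E₂ n) := by
        filter_upwards [hdb] with n hn
        have h3 := hcomb n η hη0 hη1
        have h4 := mul_le_mul_of_nonneg_left (av_norm_le hxR (hl n)) hε0
        have h5 := mul_le_mul_of_nonneg_left hn hε0
        have h6 := le_av_dist hx (hl n)
        have h7 : 2 * η * (ρ * ρ) ≤ 2 * η * (ρ * av (fun z : F => ‖(z : H₁) - x‖) (l n)) := by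
          gcongr
        have h8 : 0 ≤ ε * ‖z‖ := by positivity
        have h9 : (1 / 2 + η) * (ε * av (fun z : F => ‖(z : H₁)‖) (l n) - ε * ‖z‖) ≤
            ε * (R + D₂) := by
          have h10 : ε * av (fun z : F => ‖(z : H₁)‖) (l n) - ε * ‖z‖ ≤ ε * (R + D₂) := by
            linarith
          have h11 : 0 ≤ ε * (R + D₂) := by positivity
          calc (1 / 2 + η) * (ε * av (fun z : F => ‖(z : H₁)‖) (l n) - ε * ‖z‖)
              ≤ (1 / 2 + η) * (ε * (R + D₂)) :=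
                mul_le_mul_of_nonneg_left h10 (by linarith)
            _ ≤ 1 * (ε * (R + D₂)) := mul_le_mul_of_nonneg_right (by linarith) h11
            _ = ε * (R + D₂) := one_mul _
        rw [hηρ] at h3
        linarith
      have h3 := ge_of_tendsto h1 h2
      linarith
  rw [norm_sub_rev x z, ← hΔ, ← hX]
  exact hmain

/-- A uniform margin. -/
theorem margin {F : Set H₁} {f : H₁ → H₂} (hf : LipOn 1 f F) {z₀ : H₁} (hz₀ : z₀ ∈ F)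
    {ρ R : ℝ} (hρ : 0 < ρ) (hR : 0 ≤ R) :
    ∃ ρ' > 0, ∃ w : H₁ → H₂, LipOn 1 w (Room F f ρ ∩ closedBall 0 R) ∧
      ∀ x ∈ Room F f ρ ∩ closedBall 0 R, ∀ z ∈ F, ‖w x - f z‖ ≤ ‖x - z‖ - ρ' := by
  classical
  obtain ⟨D₁, hD₁⟩ : ∃ D₁, D₁ = ‖z₀‖ + R := ⟨_, rfl⟩
  obtain ⟨D₂, hD₂⟩ : ∃ D₂, D₂ = 4 * (D₁ ^ 2 + 1) / ρ := ⟨_, rfl⟩
  obtain ⟨Δ₀, hΔ₀⟩ : ∃ Δ₀, Δ₀ = 2 * (2 * R + D₂) := ⟨_, rfl⟩
  have hD₂0 : 0 < D₂ := by rw [hD₂]; positivity
  have hΔ₀0 : 0 < Δ₀ := by rw [hΔ₀]; positivity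
  obtain ⟨ε, hε⟩ : ∃ ε, ε = min (ρ / 2) (min (1 / (R + 1)) (ρ ^ 4 / (8 * Δ₀ ^ 2) / (R + D₂))) :=
    ⟨_, rfl⟩
  have hε0 : 0 < ε := by
    rw [hε]
    exact lt_min (by positivity) (lt_min (by positivity) (by positivity))
  have hε1 : ε ≤ ρ / 2 := by rw [hε]; exact min_le_left _ _
  have hε2 : ε * R ≤ 1 := by
    have h1 : ε ≤ 1 / (R + 1) := by rw [hε]; exact (min_le_right _ _).trans (min_le_left _ _)
    calc ε * R ≤ 1 / (R + 1) * R := by gcongr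
      _ ≤ 1 := by
        rw [div_mul_eq_mul_div, div_le_one (by positivity)]
        linarith
  have hε3 : ε * (R + D₂) ≤ ρ ^ 4 / (8 * Δ₀ ^ 2) := by
    have h1 : ε ≤ ρ ^ 4 / (8 * Δ₀ ^ 2) / (R + D₂) := by
      rw [hε]; exact (min_le_right _ _).trans (min_le_right _ _)
    rwa [le_div_iff₀ (by positivity)] at h1
  obtain ⟨ρ', hρ'⟩ : ∃ ρ', ρ' = min (ε / 8) (min (ρ ^ 4 / (16 * Δ₀ ^ 3)) ρ) := ⟨_, rfl⟩
  have hρ'0 : 0 < ρ' := by
    rw [hρ']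
    exact lt_min (by positivity) (lt_min (by positivity) hρ)
  have hρ'1 : ρ' ≤ ε / 8 := by rw [hρ']; exact min_le_left _ _
  have hρ'2 : ρ' ≤ ρ ^ 4 / (16 * Δ₀ ^ 3) := by
    rw [hρ']; exact (min_le_right _ _).trans (min_le_left _ _)
  have hρ'3 : ρ' ≤ ρ := by rw [hρ']; exact (min_le_right _ _).trans (min_le_right _ _)
  have hex : ∀ x, ∃ (φ : ℝ) (P : WithLp 2 (H₁ × H₂)), x ∈ Room F f ρ ∩ closedBall 0 R →
      IsProx (simplex F) (av (qpen F f ε)) (av (gr F f)) (cen H₂ x) φ P := by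
    intro x
    by_cases hx : x ∈ Room F f ρ ∩ closedBall 0 R
    · have hxR : ‖x‖ ≤ R := by simpa using hx.2
      obtain ⟨φ, P, hP⟩ := exists_isProx simplex_convex
        (⟨_, single_mem_simplex ⟨z₀, hz₀⟩⟩ : (simplex F).Nonempty) (av (qpen F f ε))
        (av (gr F f)) (cen H₂ x) ⟨2 * ‖x‖ ^ 2 + (ρ / 2) * 0 - 1, fun l hl => by
          refine le_trans ?_ (J_pen_lower hρ hx.1 hxR hε0.le hε1 hε2 hl)
          have h3 := le_av_dist hx.1 hl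
          gcongr
          linarith⟩
      exact ⟨φ, P, fun _ => hP⟩
    · exact ⟨0, 0, fun h => absurd h hx⟩
  choose φ P hP using hex
  refine ⟨ρ', hρ'0, fun x => (P x).snd, ?_, ?_⟩
  · intro x hx y hy
    have h1 := (hP x hx).firm (hP y hy)
    rw [WithLp.prod_norm_sq_eq_of_L2] at h1
    have h2 : (cen H₂ x - cen H₂ y).fst = (2 : ℝ) • (x - y) := by
      simp [cen, smul_sub]
    have h3 : (cen H₂ x - cen H₂ y).snd = 0 := by
      simp [cen]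
    rw [WithLp.prod_inner_apply] at h1
    change ‖(P x - P y).fst‖ ^ 2 + ‖(P x - P y).snd‖ ^ 2 ≤
      ⟪(P x - P y).fst, (cen H₂ x - cen H₂ y).fst⟫ +
      ⟪(P x - P y).snd, (cen H₂ x - cen H₂ y).snd⟫ at h1
    rw [h2, h3, inner_zero_right, inner_smul_right] at h1
    have h4 : ⟪(P x - P y).fst, x - y⟫ ≤ ‖(P x - P y).fst‖ * ‖x - y‖ := real_inner_le_norm _ _
    have h5 : ‖(P x - P y).snd‖ ^ 2 ≤ ‖x - y‖ ^ 2 := by
      nlinarith [sq_nonneg (‖(P x - P y).fst‖ - ‖x - y‖)]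
    have h6 : ‖(P x - P y).snd‖ ≤ ‖x - y‖ := by
      exact le_of_sq_le_sq h5 (norm_nonneg _)
    rw [one_mul]
    exact h6
  · intro x hx z hz
    have hxR : ‖x‖ ≤ R := by simpa using hx.2
    have h1 := margin_pt hf hz₀ hρ hx.1 hxR hε0.le hε1 hε2 hD₁ hD₂ hΔ₀ hε3 hρ'1 hρ'2
      (hP x hx) hz
    have h2 := room_dist hx.1 hz
    apply le_of_sq_le_sq _ (by linarith)
    have h3 : (‖x - z‖ - ρ') ^ 2 = ‖x - z‖ ^ 2 - 2 * ρ' * ‖x - z‖ + ρ' ^ 2 := by ring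
    rw [h3]
    have := sq_nonneg ρ'
    linarith

/-- Strict extensions: there is a 1-Lipschitz extension of `f` which is strictly contracting on
the set of points with room at least `ρ` in a ball. -/
theorem exists_strict {F : Set H₁} {f : H₁ → H₂} (hf : LipOn 1 f F) (hF : F.Nonempty)
    {ρ R : ℝ} (hρ : 0 < ρ) (hR : 0 ≤ R) :
    ∃ ε > 0, ε ≤ 1 ∧ ∃ w ∈ Ext F f, LipOn (1 - ε) w (Room F f ρ ∩ closedBall 0 R) := by
  classical
  obtain ⟨z₀, hz₀⟩ := hF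
  obtain ⟨ρ', hρ', w, hw1, hw2⟩ := margin hf hz₀ hρ hR
  obtain ⟨C, hC⟩ : ∃ C, C = ‖f z₀‖ + (‖z₀‖ + R) := ⟨_, rfl⟩
  have hC0 : 0 ≤ C := by rw [hC]; positivity
  have hwC : ∀ x ∈ Room F f ρ ∩ closedBall 0 R, ‖w x‖ ≤ C := by
    intro x hx
    have h1 := hw2 x hx z₀ hz₀
    have h2 : ‖w x‖ ≤ ‖w x - f z₀‖ + ‖f z₀‖ := by
      have := norm_add_le (w x - f z₀) (f z₀)
      rwa [sub_add_cancel] at this
    have h3 : ‖x - z₀‖ ≤ ‖x‖ + ‖z₀‖ := norm_sub_le _ _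
    have h4 : ‖x‖ ≤ R := by simpa using hx.2
    rw [hC]
    linarith
  obtain ⟨ε, hε⟩ : ∃ ε, ε = min 1 (ρ' / (C + 1)) := ⟨_, rfl⟩
  have hε0 : 0 < ε := by rw [hε]; exact lt_min one_pos (by positivity)
  have hε1 : ε ≤ 1 := by rw [hε]; exact min_le_left _ _
  have hεC : ε * C ≤ ρ' := by
    have h1 : ε ≤ ρ' / (C + 1) := by rw [hε]; exact min_le_right _ _
    rw [le_div_iff₀ (by positivity)] at h1
    linarith
  have hAF : ∀ x ∈ Room F f ρ ∩ closedBall 0 R, x ∉ F := by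
    intro x hx hxF
    have := room_dist hx.1 hxF
    rw [sub_self, norm_zero] at this
    linarith
  let A := Room F f ρ ∩ closedBall (0 : H₁) R
  let v : H₁ → H₂ := fun x => if x ∈ A then (1 - ε) • w x else f x
  have hvA : ∀ x ∈ A, v x = (1 - ε) • w x := fun x hx => if_pos hx
  have hvF : ∀ x ∈ F, v x = f x := fun x hx => if_neg (fun h => hAF x h hx)
  have hvAlip : LipOn (1 - ε) v A := by
    intro x hx y hy
    rw [hvA x hx, hvA y hy, ← smul_sub, norm_smul, Real.norm_eq_abs, abs_of_nonneg (by linarith)]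
    have := hw1 x hx y hy
    rw [one_mul] at this
    exact mul_le_mul_of_nonneg_left this (by linarith)
  have hcross : ∀ x ∈ A, ∀ z ∈ F, ‖v x - v z‖ ≤ 1 * ‖x - z‖ := by
    intro x hx z hz
    rw [hvA x hx, hvF z hz]
    have h1 : (1 - ε) • w x - f z = (w x - f z) - ε • w x := by
      rw [sub_smul, one_smul]
      abel
    have h2 : ‖(w x - f z) - ε • w x‖ ≤ ‖w x - f z‖ + ‖ε • w x‖ := norm_sub_le _ _
    rw [norm_smul, Real.norm_eq_abs, abs_of_pos hε0] at h2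
    have h3 := hw2 x hx z hz
    have h4 : ε * ‖w x‖ ≤ ε * C := mul_le_mul_of_nonneg_left (hwC x hx) hε0.le
    rw [h1]
    linarith
  have hv : LipOn 1 v (A ∪ F) := by
    rintro x (hx | hx) y (hy | hy)
    · exact (hvAlip.mono_const (by linarith)) x hx y hy
    · exact hcross x hx y hy
    · rw [norm_sub_rev, norm_sub_rev x y]
      exact hcross y hy x hx
    · rw [hvF x hx, hvF y hy]
      exact hf x hx y hy
  obtain ⟨g, hg1, hg2⟩ := kirszbraun_one v hv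
  refine ⟨ε, hε0, hε1, g, ⟨hg1, fun z hz => ?_⟩, ?_⟩
  · rw [hg2 z (Or.inr hz), hvF z hz]
  · exact hvAlip.congr fun x hx => hg2 x (Or.inl hx)

end Pool.Agent.Lib.MP_1e31fb_an
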