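import Pool.Agent.Lib.MP_1e31fb_an.Strip
import Pool.Agent.Lib.MP_1e31fb_an.Strict

set_option linter.unusedSectionVars false

open Set Metric Topology Filter
open scoped RealInnerProductSpace

namespace Pool.Agent.Lib.MP_1e31fb_an

variable {H₁ H₂ : Type*} [NormedAddCommGroup H₁] [InnerProductSpace ℝ H₁] [CompleteSpace H₁]
  [NormedAddCommGroup H₂] [InnerProductSpace ℝ H₂] [CompleteSpace H₂]

/-- The segment of a triple `(a, b, ν)`. -/
def sg (p : H₁ × H₁ × H₁) : Set H₁ := segment ℝ p.1 p.2.1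

/-- Uniformly separated families of segments with transversal directions. -/
structure GoodFam (P : Set (H₁ × H₁ × H₁)) (len m : ℝ) : Prop where
  len_pos : 0 < len
  sep_pos : 0 < m
  length : ∀ p ∈ P, ‖p.2.1 - p.1‖ = len
  unit : ∀ p ∈ P, ‖p.2.2‖ = 1
  orth : ∀ p ∈ P, ⟪p.2.1 - p.1, p.2.2⟫ = 0
  sep : ∀ p ∈ P, ∀ q ∈ P, p ≠ q → ∀ x ∈ sg p, ∀ y ∈ sg q, m ≤ ‖x - y‖

theorem GoodFam.mono {P Q : Set (H₁ × H₁ × H₁)} {len m : ℝ} (h : GoodFam P len m) (hQ : Q ⊆ P) :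
    GoodFam Q len m where
  len_pos := h.len_pos
  sep_pos := h.sep_pos
  length p hp := h.length p (hQ hp)
  unit p hp := h.unit p (hQ hp)
  orth p hp := h.orth p (hQ hp)
  sep p hp q hq := h.sep p (hQ hp) q (hQ hq)

/-- `T` meets all the segments parallel to the given one at heights in `[0, τ]`. -/
def Crosses (T : Set H₁) (p : H₁ × H₁ × H₁) (τ : ℝ) : Prop :=
  ∀ h : ℝ, 0 ≤ h → h ≤ τ → ∃ s : ℝ, 0 ≤ s ∧ s ≤ 1 ∧ p.1 + s • (p.2.1 - p.1) + h • p.2.2 ∈ T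

/-- The unit direction of a triple. -/
noncomputable def om (len : ℝ) (p : H₁ × H₁ × H₁) : H₁ := len⁻¹ • (p.2.1 - p.1)

/-- The parametrization of the strip. -/
noncomputable def S (len : ℝ) (p : H₁ × H₁ × H₁) (z : ℂ) : H₁ :=
  p.1 + z.re • om len p + z.im • p.2.2

/-- The coordinates. -/
noncomputable def crd (len : ℝ) (p : H₁ × H₁ × H₁) (x : H₁) : ℂ :=
  ⟨⟪x - p.1, om len p⟫, ⟪x - p.1, p.2.2⟫⟩

section

variable {P : Set (H₁ × H₁ × H₁)} {len m : ℝ} (hP : GoodFam P len m) {p : H₁ × H₁ × H₁}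
  (hp : p ∈ P)
include hP hp

theorem om_norm : ‖om len p‖ = 1 := by
  rw [om, norm_smul, hP.length p hp, norm_inv, Real.norm_eq_abs, abs_of_pos hP.len_pos,
    inv_mul_cancel₀ hP.len_pos.ne']

theorem om_orth : ⟪om len p, p.2.2⟫ = 0 := by
  rw [om, inner_smul_left, hP.orth p hp, mul_zero]

theorem S_dist (z z' : ℂ) : ‖S len p z - S len p z'‖ = ‖z - z'‖ := by
  have h1 : S len p z - S len p z' = (z.re - z'.re) • om len p + (z.im - z'.im) • p.2.2 := by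
    unfold S
    module
  have h2 := norm_sq_orth (hP.unit p hp) (om_norm hP hp) (om_orth hP hp) (z.re - z'.re)
    (z.im - z'.im)
  have h3 := complex_norm_sq (z - z')
  rw [Complex.sub_re, Complex.sub_im] at h3
  rw [h1]
  have h4 : ‖(z.re - z'.re) • om len p + (z.im - z'.im) • p.2.2‖ ^ 2 = ‖z - z'‖ ^ 2 := by
    rw [h2, h3]
  exact (sq_eq_sq₀ (norm_nonneg _) (norm_nonneg _)).1 h4

theorem crd_S (z : ℂ) : crd len p (S len p z) = z := by
  unfold crd S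
  have h1 : p.1 + z.re • om len p + z.im • p.2.2 - p.1 = z.re • om len p + z.im • p.2.2 := by
    abel
  rw [h1]
  apply Complex.ext
  · simp only [inner_add_left, inner_smul_left, real_inner_self_eq_norm_sq, om_norm hP hp]
    rw [real_inner_comm, om_orth hP hp]
    simp
  · simp only [inner_add_left, inner_smul_left, real_inner_self_eq_norm_sq, hP.unit p hp,
      om_orth hP hp]
    simp

theorem S_mem_sg {s : ℝ} (hs0 : 0 ≤ s) (hs1 : s ≤ len) : S len p (s : ℂ) ∈ sg p := by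
  have hl := hP.len_pos
  refine ⟨1 - s / len, s / len, ?_, by positivity, by ring, ?_⟩
  · rw [sub_nonneg, div_le_one hl]
    exact hs1
  · unfold S om
    rw [Complex.ofReal_re, Complex.ofReal_im, zero_smul, add_zero, smul_smul, div_eq_mul_inv]
    module

theorem exists_of_mem_sg {x : H₁} (hx : x ∈ sg p) : ∃ s, 0 ≤ s ∧ s ≤ len ∧ x = S len p (s : ℂ) := by
  obtain ⟨α, β, hα, hβ, hαβ, rfl⟩ := hx
  have hl := hP.len_pos
  refine ⟨β * len, by positivity, ?_, ?_⟩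
  · have : β ≤ 1 := by linarith
    nlinarith
  · unfold S om
    rw [Complex.ofReal_re, Complex.ofReal_im, zero_smul, add_zero, smul_smul, mul_assoc,
      mul_inv_cancel₀ hl.ne', mul_one]
    have : α = 1 - β := by linarith
    rw [this]
    module

end

/-- Strictness propagates to far away points. -/
theorem strict_far {u : H₁ → H₂} (hu : LipOn 1 u univ) {t κ : ℝ} (hκ : 0 < κ) {x y : H₁}
    (hstrict : ∀ z, ‖x - z‖ ≤ κ → ‖u x - u z‖ ≤ t * ‖x - z‖) (hxy : κ ≤ ‖x - y‖) :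
    ‖u x - u y‖ ≤ ‖x - y‖ - (1 - t) * κ := by
  have hd : 0 < ‖x - y‖ := lt_of_lt_of_le hκ hxy
  let w : H₁ := x + (κ / ‖x - y‖) • (y - x)
  have h1 : ‖x - w‖ = κ := by
    have : x - w = (κ / ‖x - y‖) • (x - y) := by
      simp only [w]
      module
    rw [this, norm_smul, Real.norm_eq_abs, abs_of_pos (by positivity), div_mul_cancel₀ _ hd.ne']
  have h2 : ‖w - y‖ = ‖x - y‖ - κ := by
    have : w - y = (1 - κ / ‖x - y‖) • (x - y) := by
      simp only [w]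
      module
    rw [this, norm_smul, Real.norm_eq_abs, abs_of_nonneg, sub_mul, div_mul_cancel₀ _ hd.ne',
      one_mul]
    rw [sub_nonneg, div_le_one hd]
    exact hxy
  have h3 := hstrict w h1.le
  have h4 := hu w (mem_univ _) y (mem_univ _)
  rw [h1] at h3
  rw [one_mul, h2] at h4
  have h5 : ‖u x - u y‖ ≤ ‖u x - u w‖ + ‖u w - u y‖ := norm_sub_le_norm_sub_add_norm_sub _ _ _
  linarith

/-- The modification along the strips of a uniformly separated family. -/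
theorem strip_lemma (hE : Dim2 H₂) {u : H₁ → H₂} (hu : LipOn 1 u univ)
    {P : Set (H₁ × H₁ × H₁)} {len m : ℝ} (hP : GoodFam P len m) {t κ₀ : ℝ} (ht0 : 0 ≤ t)
    (ht1 : t < 1) (hκ₀ : 0 < κ₀)
    (hstrict : ∀ p ∈ P, ∀ x ∈ sg p, ∀ z, ‖x - z‖ ≤ κ₀ → ‖u x - u z‖ ≤ t * ‖x - z‖)
    {ε : ℝ} (hε0 : 0 < ε) (hε1 : ε ≤ 1) :
    ∃ u' : H₁ → H₂, LipOn 1 u' univ ∧ (∀ x, ‖u' x - u x‖ ≤ ε) ∧
      (∀ x, (∀ p ∈ P, ∀ y ∈ sg p, ε ≤ ‖x - y‖) → u' x = u x) ∧
      ∃ τ, 0 < τ ∧ τ < ε ∧ ∃ δ > 0, ∀ p ∈ P, ∀ T, Crosses T p τ → ∃ x ∈ T, ∃ y ∈ T,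
        (∃ x' ∈ sg p, ‖x - x'‖ ≤ ε) ∧ (∃ y' ∈ sg p, ‖y - y'‖ ≤ ε) ∧ δ ≤ ‖x - y‖ ∧
        (1 - ε) ^ 2 * ‖x - y‖ ≤ ‖u' x - u' y‖ := by
  classical
  have h1t : 0 < 1 - t := by linarith
  have hlen := hP.len_pos
  obtain ⟨κ, hκ⟩ : ∃ κ, κ = min (ε / 4) (min κ₀ m) := ⟨_, rfl⟩
  have hκ0 : 0 < κ := by
    rw [hκ]; exact lt_min (by positivity) (lt_min hκ₀ hP.sep_pos)
  have hκε : κ ≤ ε / 4 := by rw [hκ]; exact min_le_left _ _
  have hκκ₀ : κ ≤ κ₀ := by rw [hκ]; exact (min_le_right _ _).trans (min_le_left _ _)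
  have hκm : κ ≤ m := by rw [hκ]; exact (min_le_right _ _).trans (min_le_right _ _)
  obtain ⟨N, hN⟩ := exists_nat_gt (8 * len / ((1 - t) * κ))
  have hN0 : (0 : ℝ) < N := lt_trans (by positivity) hN
  obtain ⟨lam, hlam⟩ : ∃ lam, lam = len / N := ⟨_, rfl⟩
  have hlam0 : 0 < lam := by rw [hlam]; positivity
  have hNlam : N * lam = len := by
    rw [hlam]
    field_simp
  have hlamκ : lam ≤ (1 - t) * κ / 8 := by
    rw [hlam, div_le_iff₀ hN0]
    rw [div_lt_iff₀ (by positivity)] at hN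
    linarith
  have hlamκ' : lam ≤ κ / 8 := by
    have : (1 - t) * κ ≤ 1 * κ := mul_le_mul_of_nonneg_right (by linarith) hκ0.le
    linarith
  obtain ⟨τ, hτ⟩ : ∃ τ, τ = (1 - t) * lam / 4 := ⟨_, rfl⟩
  have hτ0 : 0 < τ := by rw [hτ]; positivity
  have hτlam : τ ≤ lam / 4 := by
    have : (1 - t) * lam ≤ 1 * lam := mul_le_mul_of_nonneg_right (by linarith) hlam0.le
    rw [hτ]
    linarith
  have hsmall : Real.pi * τ ≤ (1 - t) * lam := by
    have : Real.pi * τ ≤ 4 * τ := mul_le_mul_of_nonneg_right Real.pi_le_four hτ0.le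
    rw [hτ] at this ⊢
    linarith
  -- the points and the values
  let c : H₁ × H₁ × H₁ → ℕ → H₂ := fun p i => u (S len p ((i * lam : ℝ) : ℂ))
  have hnode_mem : ∀ p ∈ P, ∀ i ≤ N, S len p ((i * lam : ℝ) : ℂ) ∈ sg p := by
    intro p hp i hi
    refine S_mem_sg hP hp (by positivity) ?_
    rw [← hNlam]
    have : (i : ℝ) ≤ N := by exact_mod_cast hi
    exact mul_le_mul_of_nonneg_right this hlam0.le
  have hc : ∀ p ∈ P, ∀ i < N, ‖c p (i + 1) - c p i‖ ≤ t * lam := by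
    intro p hp i hi
    have h1 : ‖S len p ((i * lam : ℝ) : ℂ) - S len p (((i + 1 : ℕ) * lam : ℝ) : ℂ)‖ = lam := by
      rw [S_dist hP hp, ← Complex.ofReal_sub, Complex.norm_real, Real.norm_eq_abs]
      have : (i : ℝ) * lam - ((i + 1 : ℕ) : ℝ) * lam = -lam := by push_cast; ring
      rw [this, abs_neg, abs_of_pos hlam0]
    have h2 := hstrict p hp _ (hnode_mem p hp i hi.le) (S len p (((i + 1 : ℕ) * lam : ℝ) : ℂ))
      (by rw [h1]; linarith)
    rw [h1, norm_sub_rev] at h2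
    exact h2
  have hex : ∀ p, ∃ (ψ : ℂ → H₂) (idx : ℝ → ℕ), p ∈ P →
      IsSP τ ε (N * (rotNum ε + 2) + 1) 0 (N * lam) ψ idx ∧
      (∀ i ≤ N, ψ ((i * lam : ℝ) : ℂ) = c p i) := by
    intro p
    by_cases hp : p ∈ P
    · obtain ⟨ψ, idx, n, -, h1, -, h2⟩ := strip_chain hE hτ0 hε0 hε1 hlam0 hsmall N (c p) (hc p hp)
      exact ⟨ψ, idx, fun _ => ⟨h1, h2⟩⟩
    · exact ⟨fun _ => 0, fun _ => 0, fun h => absurd h hp⟩
  choose ψ idx hψ using hex
  rw [hNlam] at hψ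
  -- the strips and the map
  let Str : H₁ × H₁ × H₁ → Set H₁ := fun p => S len p '' rect 0 len τ
  let Out : Set H₁ := {y | ∀ p ∈ P, ∀ x ∈ sg p, κ ≤ ‖y - x‖}
  have hnear : ∀ p ∈ P, ∀ z ∈ rect 0 len τ, ∃ i ≤ N,
      ‖S len p z - S len p ((i * lam : ℝ) : ℂ)‖ ≤ lam + τ ∧
      ‖ψ p z - u (S len p ((i * lam : ℝ) : ℂ))‖ ≤ lam + τ := by
    intro p hp z hz
    have hz0 := hz.1
    refine ⟨⌊z.re / lam⌋₊, ?_, ?_⟩
    · have h1 : z.re / lam ≤ N := by
        rw [div_le_iff₀ hlam0, hNlam]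
        exact hz.2.1
      have := Nat.floor_le_floor h1
      rwa [Nat.floor_natCast] at this
    · have hfl0 := Nat.floor_le (div_nonneg hz0 hlam0.le)
      have hfl1 := Nat.lt_floor_add_one (z.re / lam)
      rw [le_div_iff₀ hlam0] at hfl0
      rw [div_lt_iff₀ hlam0] at hfl1
      obtain ⟨i, hi⟩ : ∃ i, i = ⌊z.re / lam⌋₊ := ⟨_, rfl⟩
      rw [← hi] at hfl0 hfl1 ⊢
      have hiN : i ≤ N := by
        have h1 : (i : ℝ) * lam ≤ N * lam := by
          rw [hNlam]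
          exact hfl0.trans hz.2.1
        exact_mod_cast le_of_mul_le_mul_right h1 hlam0
      have hdist : ‖z - ((i * lam : ℝ) : ℂ)‖ ≤ lam + τ := by
        refine (Complex.norm_le_abs_re_add_abs_im _).trans ?_
        rw [Complex.sub_re, Complex.sub_im, Complex.ofReal_re, Complex.ofReal_im, sub_zero,
          abs_of_nonneg (by linarith), abs_of_nonneg hz.2.2.1]
        have := hz.2.2.2
        linarith
      have hrect : ((i * lam : ℝ) : ℂ) ∈ rect 0 len τ := by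
        refine ⟨?_, ?_, ?_, ?_⟩
        · rw [Complex.ofReal_re]; positivity
        · rw [Complex.ofReal_re]; exact hfl0.trans hz.2.1
        · rw [Complex.ofReal_im]
        · rw [Complex.ofReal_im]; exact hτ0.le
      constructor
      · rw [S_dist hP hp]
        exact hdist
      · have h1 := (hψ p hp).1.lip z hz _ hrect
        rw [one_mul, (hψ p hp).2 i hiN] at h1
        exact h1.trans hdist
  have hstr_sg : ∀ p ∈ P, ∀ x ∈ Str p, ∃ x' ∈ sg p, ‖x - x'‖ ≤ τ := by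
    rintro p hp _ ⟨z, hz, rfl⟩
    refine ⟨S len p (z.re : ℂ), S_mem_sg hP hp hz.1 hz.2.1, ?_⟩
    rw [S_dist hP hp]
    refine (Complex.norm_le_abs_re_add_abs_im _).trans ?_
    rw [Complex.sub_re, Complex.sub_im, Complex.ofReal_re, Complex.ofReal_im, sub_zero, sub_self,
      abs_zero, zero_add, abs_of_nonneg hz.2.2.1]
    exact hz.2.2.2
  have hτκ : τ < κ := by linarith
  have hout : ∀ p ∈ P, ∀ x ∈ Str p, x ∉ Out := by
    intro p hp x hx hxO
    obtain ⟨x', hx', hd⟩ := hstr_sg p hp x hx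
    have := hxO p hp x' hx'
    linarith
  have huniq : ∀ p ∈ P, ∀ q ∈ P, ∀ x, x ∈ Str p → x ∈ Str q → p = q := by
    intro p hp q hq x hxp hxq
    by_contra hne
    obtain ⟨x', hx', hd⟩ := hstr_sg p hp x hxp
    obtain ⟨x'', hx'', hd'⟩ := hstr_sg q hq x hxq
    have h1 := hP.sep p hp q hq hne x' hx' x'' hx''
    have h2 : ‖x' - x''‖ ≤ ‖x' - x‖ + ‖x - x''‖ := norm_sub_le_norm_sub_add_norm_sub _ _ _
    rw [norm_sub_rev x' x] at h2
    linarith
  let v : H₁ → H₂ := fun x => if h : ∃ p, p ∈ P ∧ x ∈ Str p then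
    ψ h.choose (crd len h.choose x) else u x
  have hvS : ∀ p ∈ P, ∀ z ∈ rect 0 len τ, v (S len p z) = ψ p z := by
    intro p hp z hz
    have h : ∃ q, q ∈ P ∧ S len p z ∈ Str q := ⟨p, hp, z, hz, rfl⟩
    have hq : h.choose = p := huniq _ h.choose_spec.1 _ hp _ h.choose_spec.2 ⟨z, hz, rfl⟩
    simp only [v, dif_pos h]
    rw [hq, crd_S hP hp]
  have hvO : ∀ x ∈ Out, v x = u x := by
    intro x hx
    have h : ¬ ∃ p, p ∈ P ∧ x ∈ Str p := by
      rintro ⟨p, hp, hxp⟩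
      exact hout p hp x hxp hx
    simp only [v, dif_neg h]
  have hfar : ∀ p ∈ P, ∀ x ∈ sg p, ∀ y, κ ≤ ‖x - y‖ → ‖u x - u y‖ ≤ ‖x - y‖ - (1 - t) * κ :=
    fun p hp x hx y hy => strict_far hu hκ0 (fun z hz => hstrict p hp x hx z (hz.trans hκκ₀)) hy
  have hstrout : ∀ p ∈ P, ∀ z ∈ rect 0 len τ, ∀ y ∈ Out, ‖ψ p z - u y‖ ≤ ‖S len p z - y‖ := by
    intro p hp z hz y hy
    obtain ⟨i, hi, h1, h2⟩ := hnear p hp z hz
    have h3 := hfar p hp _ (hnode_mem p hp i hi) y (by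
      rw [norm_sub_rev]
      exact hy p hp _ (hnode_mem p hp i hi))
    have h4 : ‖ψ p z - u y‖ ≤ ‖ψ p z - u (S len p ((i * lam : ℝ) : ℂ))‖ +
      ‖u (S len p ((i * lam : ℝ) : ℂ)) - u y‖ := norm_sub_le_norm_sub_add_norm_sub _ _ _
    have h5 : ‖S len p ((i * lam : ℝ) : ℂ) - y‖ ≤ ‖S len p ((i * lam : ℝ) : ℂ) - S len p z‖ +
      ‖S len p z - y‖ := norm_sub_le_norm_sub_add_norm_sub _ _ _
    rw [norm_sub_rev (S len p ((i * lam : ℝ) : ℂ)) (S len p z)] at h5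
    linarith
  have hstrstr : ∀ p ∈ P, ∀ q ∈ P, p ≠ q → ∀ z ∈ rect 0 len τ, ∀ z' ∈ rect 0 len τ,
      ‖ψ p z - ψ q z'‖ ≤ ‖S len p z - S len q z'‖ := by
    intro p hp q hq hpq z hz z' hz'
    obtain ⟨i, hi, h1, h2⟩ := hnear p hp z hz
    obtain ⟨j, hj, h1', h2'⟩ := hnear q hq z' hz'
    obtain ⟨x, hx⟩ : ∃ x, x = S len p ((i * lam : ℝ) : ℂ) := ⟨_, rfl⟩
    obtain ⟨x', hx'⟩ : ∃ x', x' = S len q ((j * lam : ℝ) : ℂ) := ⟨_, rfl⟩
    have hxm : x ∈ sg p := by rw [hx]; exact hnode_mem p hp i hi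
    have hxm' : x' ∈ sg q := by rw [hx']; exact hnode_mem q hq j hj
    rw [← hx] at h1 h2
    rw [← hx'] at h1' h2'
    have h3 := hfar p hp x hxm x' (hκm.trans (hP.sep p hp q hq hpq x hxm x' hxm'))
    have h4 : ‖ψ p z - ψ q z'‖ ≤ ‖ψ p z - u x‖ + ‖u x - ψ q z'‖ :=
      norm_sub_le_norm_sub_add_norm_sub _ _ _
    have h5 : ‖u x - ψ q z'‖ ≤ ‖u x - u x'‖ + ‖u x' - ψ q z'‖ :=
      norm_sub_le_norm_sub_add_norm_sub _ _ _
    rw [norm_sub_rev (u x') (ψ q z')] at h5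
    have h6 : ‖x - x'‖ ≤ ‖x - S len p z‖ + ‖S len p z - x'‖ :=
      norm_sub_le_norm_sub_add_norm_sub _ _ _
    have h7 : ‖S len p z - x'‖ ≤ ‖S len p z - S len q z'‖ + ‖S len q z' - x'‖ :=
      norm_sub_le_norm_sub_add_norm_sub _ _ _
    rw [norm_sub_rev x (S len p z)] at h6
    linarith
  have hvlip : LipOn 1 v (Out ∪ ⋃ p ∈ P, Str p) := by
    have hdec : ∀ x ∈ Out ∪ ⋃ p ∈ P, Str p, x ∈ Out ∨ ∃ p ∈ P, ∃ z ∈ rect 0 len τ,
        x = S len p z := by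
      rintro x (hx | hx)
      · exact Or.inl hx
      · obtain ⟨p, hp, z, hz, hzx⟩ := mem_iUnion₂.1 hx
        exact Or.inr ⟨p, hp, z, hz, hzx.symm⟩
    intro x hx y hy
    rw [one_mul]
    rcases hdec x hx with hx | ⟨p, hp, z, hz, rfl⟩ <;> rcases hdec y hy with hy | ⟨q, hq, z', hz', rfl⟩
    · rw [hvO x hx, hvO y hy]
      have := hu x (mem_univ _) y (mem_univ _)
      rwa [one_mul] at this
    · rw [hvO x hx, hvS q hq z' hz', norm_sub_rev, norm_sub_rev x]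
      exact hstrout q hq z' hz' x hx
    · rw [hvO y hy, hvS p hp z hz]
      exact hstrout p hp z hz y hy
    · rw [hvS p hp z hz, hvS q hq z' hz']
      by_cases hpq : p = q
      · subst hpq
        rw [S_dist hP hp]
        have := (hψ p hp).1.lip z hz z' hz'
        rwa [one_mul] at this
      · exact hstrstr p hp q hq hpq z hz z' hz'
  obtain ⟨u', hu'1, hu'2⟩ := kirszbraun_one v hvlip
  have hu'S : ∀ p ∈ P, ∀ z ∈ rect 0 len τ, u' (S len p z) = ψ p z := by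
    intro p hp z hz
    rw [hu'2 _ (Or.inr (mem_iUnion₂.2 ⟨p, hp, z, hz, rfl⟩)), hvS p hp z hz]
  have hu'O : ∀ x ∈ Out, u' x = u x := fun x hx => by
    rw [hu'2 _ (Or.inl hx), hvO x hx]
  refine ⟨u', hu'1, ?_, ?_, τ, hτ0, by linarith, τ * ε / ((N * (rotNum ε + 2) + 1 : ℕ) : ℝ),
    by positivity, ?_⟩
  · intro x
    by_cases hx : x ∈ Out
    · rw [hu'O x hx, sub_self, norm_zero]
      exact hε0.le
    · simp only [Out, mem_ofPred_eq] at hx
      push Not at hx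
      obtain ⟨p, hp, x', hx', hd⟩ := hx
      obtain ⟨s, hs0, hs1, rfl⟩ := exists_of_mem_sg hP hp hx'
      have hsr : (s : ℂ) ∈ rect 0 len τ := by
        refine ⟨?_, ?_, ?_, ?_⟩
        · rw [Complex.ofReal_re]; exact hs0
        · rw [Complex.ofReal_re]; exact hs1
        · rw [Complex.ofReal_im]
        · rw [Complex.ofReal_im]; exact hτ0.le
      obtain ⟨i, hi, h1, h2⟩ := hnear p hp _ hsr
      obtain ⟨xi, hxi⟩ : ∃ xi, xi = S len p ((i * lam : ℝ) : ℂ) := ⟨_, rfl⟩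
      have hui : u' xi = u xi := by
        have hrect : ((i * lam : ℝ) : ℂ) ∈ rect 0 len τ := by
          refine ⟨?_, ?_, ?_, ?_⟩
          · rw [Complex.ofReal_re]; positivity
          · rw [Complex.ofReal_re, ← hNlam]
            have : (i : ℝ) ≤ N := by exact_mod_cast hi
            exact mul_le_mul_of_nonneg_right this hlam0.le
          · rw [Complex.ofReal_im]
          · rw [Complex.ofReal_im]; exact hτ0.le
        rw [hxi, hu'S p hp _ hrect, (hψ p hp).2 i hi]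
      rw [← hxi] at h1
      have h3 : ‖x - xi‖ ≤ ‖x - S len p (s : ℂ)‖ + ‖S len p (s : ℂ) - xi‖ :=
        norm_sub_le_norm_sub_add_norm_sub _ _ _
      have h4 := hu'1 x (mem_univ _) xi (mem_univ _)
      have h5 := hu xi (mem_univ _) x (mem_univ _)
      rw [norm_sub_rev xi x] at h5
      have h6 : ‖u' x - u x‖ ≤ ‖u' x - u' xi‖ + ‖u' xi - u x‖ :=
        norm_sub_le_norm_sub_add_norm_sub _ _ _
      rw [hui] at h6 h4
      linarith
  · intro x hx
    apply hu'O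
    intro p hp y hy
    have := hx p hp y hy
    linarith
  · intro p hp T hT
    have hT' : ∀ y, 0 ≤ y → y ≤ τ → ∃ z ∈ {z : ℂ | S len p z ∈ T}, z.im = y ∧ 0 ≤ z.re ∧
        z.re ≤ len := by
      intro y hy0 hy1
      obtain ⟨s, hs0, hs1, hsT⟩ := hT y hy0 hy1
      refine ⟨⟨s * len, y⟩, ?_, rfl, by positivity, ?_⟩
      · have : S len p ⟨s * len, y⟩ = p.1 + s • (p.2.1 - p.1) + y • p.2.2 := by
          unfold S om
          simp only
          rw [smul_smul, mul_assoc, mul_inv_cancel₀ hlen.ne', mul_one]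
        rw [mem_ofPred_eq, this]
        exact hsT
      · simp only
        nlinarith
    obtain ⟨z, hz, z', hz', hzr, hzr', hd, hsl⟩ := strip_pigeonhole hτ0 hε0 hε1 (hψ p hp).1 hT'
    refine ⟨S len p z, hz, S len p z', hz', ?_, ?_, ?_, ?_⟩
    · obtain ⟨x', hx', hd⟩ := hstr_sg p hp _ ⟨z, hzr, rfl⟩
      exact ⟨x', hx', by linarith⟩
    · obtain ⟨x', hx', hd⟩ := hstr_sg p hp _ ⟨z', hzr', rfl⟩
      exact ⟨x', hx', by linarith⟩
    · rw [S_dist hP hp]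
      exact hd
    · rw [S_dist hP hp, hu'S p hp z hzr, hu'S p hp z' hzr']
      exact hsl

end Pool.Agent.Lib.MP_1e31fb_an
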