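import Pool.Agent.Lib.MP_1e31fb_an.Basic

set_option linter.unusedSectionVars false

open Set Metric Topology

namespace Pool.Agent.Lib.MP_1e31fb_an

section

variable {X : Type*} [NormedAddCommGroup X] [NormedSpace ℝ X]

/-- Comparison with cones from above, for open sets disjoint from `Y`. -/
def CCA (Y : Set X) (h : X → ℝ) : Prop :=
  ∀ V : Set X, IsOpen V → Disjoint V Y → ∀ z, z ∉ V → ∀ a c : ℝ, 0 ≤ a →
    (∀ x ∈ frontier V, h x ≤ c + a * ‖x - z‖) → ∀ x ∈ V, h x ≤ c + a * ‖x - z‖

/-- The Perron class. -/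
structure Adm (Y : Set X) (f : X → ℝ) (L : ℝ) (h : X → ℝ) : Prop where
  lip : LipOn L h univ
  eq : ∀ y ∈ Y, h y = f y
  cca : CCA Y h

variable {Y : Set X} {f : X → ℝ} {L : ℝ}

theorem lipOn_real_iff {h : X → ℝ} {S : Set X} :
    LipOn L h S ↔ ∀ x ∈ S, ∀ y ∈ S, h x ≤ h y + L * ‖x - y‖ := by
  constructor
  · intro H x hx y hy
    have := H x hx y hy
    rw [Real.norm_eq_abs, abs_le] at this
    linarith [this.2]
  · intro H x hx y hy
    rw [Real.norm_eq_abs, abs_le]
    have h1 := H x hx y hy
    have h2 := H y hy x hx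
    rw [norm_sub_rev] at h2
    constructor <;> linarith

/-- The lower McShane extension is admissible. -/
theorem exists_adm (hY : Y.Nonempty) (hL : 0 ≤ L) (hf : LipOn L f Y) :
    ∃ h, Adm Y f L h := by
  obtain ⟨y₀, hy₀⟩ := hY
  have hf' := lipOn_real_iff.1 hf
  have : Nonempty Y := ⟨⟨y₀, hy₀⟩⟩
  let h : X → ℝ := fun x => ⨆ y : Y, (f y - L * ‖x - (y : X)‖)
  have hbdd : ∀ x, BddAbove (range fun y : Y => f y - L * ‖x - (y : X)‖) := by
    intro x
    refine ⟨f y₀ + L * ‖x - y₀‖, ?_⟩
    rintro _ ⟨y, rfl⟩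
    have h1 := hf' y y.2 y₀ hy₀
    have h2 : ‖(y : X) - y₀‖ ≤ ‖x - (y : X)‖ + ‖x - y₀‖ := by
      rw [norm_sub_rev x (y : X)]
      exact norm_sub_le_norm_sub_add_norm_sub _ _ _
    have h3 := mul_le_mul_of_nonneg_left h2 hL
    simp only
    linarith
  have hle : ∀ x (y : Y), f y - L * ‖x - (y : X)‖ ≤ h x := fun x y => le_ciSup (hbdd x) y
  have hlip : LipOn L h univ := by
    rw [lipOn_real_iff]
    intro x _ x' _
    refine ciSup_le fun y => ?_
    have h1 := hle x' y
    have h2 : ‖x' - (y : X)‖ ≤ ‖x - x'‖ + ‖x - (y : X)‖ := by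
      rw [norm_sub_rev x x']
      exact norm_sub_le_norm_sub_add_norm_sub _ _ _
    have h3 := mul_le_mul_of_nonneg_left h2 hL
    linarith
  refine ⟨h, hlip, ?_, ?_⟩
  · intro y hy
    apply le_antisymm
    · refine ciSup_le fun y' => ?_
      have h1 := hf' y' y'.2 y hy
      rw [norm_sub_rev] at h1
      linarith
    · have h1 := hle y ⟨y, hy⟩
      simpa using h1
  · intro V hV hVY z hz a c ha hfr x hx
    have hlip' := lipOn_real_iff.1 hlip
    by_cases haL : a ≤ L
    · refine ciSup_le fun y => ?_
      have hyV : (y : X) ∉ V := fun h => disjoint_left.1 hVY h y.2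
      obtain ⟨w, hw, hwf⟩ := exists_mem_frontier hx hyV
      have h1 := hle w y
      have h2 := hfr w hwf
      have h3 := norm_add_of_mem_segment hw
      have h4 : ‖w - z‖ ≤ ‖x - w‖ + ‖x - z‖ := by
        rw [norm_sub_rev x w]
        exact norm_sub_le_norm_sub_add_norm_sub _ _ _
      have h5 := mul_le_mul_of_nonneg_left h4 ha
      have h6 : a * ‖x - w‖ ≤ L * ‖x - w‖ := mul_le_mul_of_nonneg_right haL (norm_nonneg _)
      rw [← h3]
      linarith
    · push Not at haL
      obtain ⟨w, hw, hwf⟩ := exists_mem_frontier hx hz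
      have h1 := hlip' x (mem_univ _) w (mem_univ _)
      have h2 := hfr w hwf
      have h3 := norm_add_of_mem_segment hw
      have h6 : L * ‖x - w‖ ≤ a * ‖x - w‖ := mul_le_mul_of_nonneg_right haL.le (norm_nonneg _)
      rw [← h3]
      linarith

/-- The supremum of the Perron class. -/
noncomputable def perron (Y : Set X) (f : X → ℝ) (L : ℝ) (x : X) : ℝ :=
  ⨆ h : {h // Adm Y f L h}, h.1 x

theorem perron_bdd (hY : Y.Nonempty) (x : X) :
    BddAbove (range fun h : {h // Adm Y f L h} => h.1 x) := by
  obtain ⟨y₀, hy₀⟩ := hY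
  refine ⟨f y₀ + L * ‖x - y₀‖, ?_⟩
  rintro _ ⟨h, rfl⟩
  have := lipOn_real_iff.1 h.2.lip x (mem_univ _) y₀ (mem_univ _)
  rw [h.2.eq y₀ hy₀] at this
  exact this

theorem perron_adm (hY : Y.Nonempty) (hL : 0 ≤ L) (hf : LipOn L f Y) :
    Adm Y f L (perron Y f L) := by
  have hne : Nonempty {h // Adm Y f L h} := by
    obtain ⟨h, hh⟩ := exists_adm hY hL hf
    exact ⟨⟨h, hh⟩⟩
  have hle : ∀ (h : {h // Adm Y f L h}) x, h.1 x ≤ perron Y f L x := fun h x =>
    le_ciSup (perron_bdd hY x) h
  refine ⟨?_, ?_, ?_⟩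
  · rw [lipOn_real_iff]
    intro x _ x' _
    refine ciSup_le fun h => ?_
    have h1 := lipOn_real_iff.1 h.2.lip x (mem_univ _) x' (mem_univ _)
    have h2 := hle h x'
    linarith
  · intro y hy
    have : ∀ h : {h // Adm Y f L h}, h.1 y = f y := fun h => h.2.eq y hy
    simp only [perron, this, ciSup_const]
  · intro V hV hVY z hz a c ha hfr x hx
    refine ciSup_le fun h => ?_
    exact h.2.cca V hV hVY z hz a c ha (fun w hw => (hle h w).trans (hfr w hw)) x hx

theorem le_perron (hY : Y.Nonempty) {h : X → ℝ} (hh : Adm Y f L h) (x : X) :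
    h x ≤ perron Y f L x := le_ciSup (perron_bdd hY x) ⟨h, hh⟩

/-- Comparison with cones from below. -/
theorem perron_ccb (hY : Y.Nonempty) (hL : 0 ≤ L) (hf : LipOn L f Y)
    {V : Set X} (hV : IsOpen V) (hVY : Disjoint V Y) {z : X} (hz : z ∉ V) {a c : ℝ} (ha : 0 ≤ a)
    (hfr : ∀ x ∈ frontier V, c - a * ‖x - z‖ ≤ perron Y f L x) :
    ∀ x ∈ V, c - a * ‖x - z‖ ≤ perron Y f L x := by
  classical
  intro x hx
  have hu := perron_adm hY hL hf
  set u := perron Y f L with hudef
  have hulip := lipOn_real_iff.1 hu.lip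
  by_cases haL : L < a
  · obtain ⟨w, hw, hwf⟩ := exists_mem_frontier hx hz
    have h1 := hulip w (mem_univ _) x (mem_univ _)
    rw [norm_sub_rev] at h1
    have h2 := hfr w hwf
    have h3 := norm_add_of_mem_segment hw
    have h6 : L * ‖x - w‖ ≤ a * ‖x - w‖ := mul_le_mul_of_nonneg_right haL.le (norm_nonneg _)
    rw [← h3]
    linarith
  · push Not at haL
    let C : X → ℝ := fun x => c - a * ‖x - z‖
    have hC : LipOn L C univ := by
      rw [lipOn_real_iff]
      intro x _ y _
      have h1 : ‖y - z‖ ≤ ‖x - y‖ + ‖x - z‖ := by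
        rw [norm_sub_rev x y]
        exact norm_sub_le_norm_sub_add_norm_sub _ _ _
      have h2 := mul_le_mul_of_nonneg_left h1 ha
      have h3 : a * ‖x - y‖ ≤ L * ‖x - y‖ := mul_le_mul_of_nonneg_right haL (norm_nonneg _)
      simp only [C]
      linarith
    have hCc : Continuous C := hC.continuous
    let û : X → ℝ := fun x => if x ∈ V then max (u x) (C x) else u x
    have hûu : ∀ x, u x ≤ û x := by
      intro x
      by_cases h : x ∈ V
      · simp only [û, if_pos h]; exact le_max_left _ _
      · simp only [û, if_neg h]; exact le_refl _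
    have hûadm : Adm Y f L û := by
      refine ⟨?_, ?_, ?_⟩
      · refine lipOn_piecewise hV (hu.lip.mono (subset_univ _)) ?_ ?_
        · rw [lipOn_real_iff]
          intro x _ y _
          have h1 := hulip x (mem_univ _) y (mem_univ _)
          have h2 := lipOn_real_iff.1 hC x (mem_univ _) y (mem_univ _)
          have h3 := le_max_left (u y) (C y)
          have h4 := le_max_right (u y) (C y)
          apply max_le <;> linarith
        · intro w hw
          exact (max_eq_left (hfr w hw)).symm
      · intro y hy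
        have : y ∉ V := fun h => disjoint_left.1 hVY h hy
        simp only [û, if_neg this]
        exact hu.eq y hy
      · intro V' hV' hV'Y z' hz' a' c' ha' hfr'
        have hu' : ∀ x ∈ V', u x ≤ c' + a' * ‖x - z'‖ :=
          hu.cca V' hV' hV'Y z' hz' a' c' ha' fun w hw => (hûu w).trans (hfr' w hw)
        let C' : X → ℝ := fun x => c' + a' * ‖x - z'‖
        have hC'c : Continuous C' := by fun_prop
        let V₁ : Set X := {x | x ∈ V ∧ x ∈ V' ∧ C' x < C x}
        have hV₁ : IsOpen V₁ := hV.inter (hV'.inter (isOpen_lt hC'c hCc))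
        have hV₁fr : ∀ w ∈ frontier V₁, C w ≤ C' w := by
          intro w hw
          rw [hV₁.frontier_eq] at hw
          have hwV : w ∈ closure V := closure_mono (fun x hx => hx.1) hw.1
          have hwV' : w ∈ closure V' := closure_mono (fun x hx => hx.2.1) hw.1
          by_cases h1 : w ∈ V
          · by_cases h2 : w ∈ V'
            · by_contra h3
              push Not at h3
              exact hw.2 ⟨h1, h2, h3⟩
            · have h3 := hfr' w (by rw [hV'.frontier_eq]; exact ⟨hwV', h2⟩)
              simp only [û, if_pos h1] at h3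
              exact (le_max_right _ _).trans h3
          · have h3 := hfr w (by rw [hV.frontier_eq]; exact ⟨hwV, h1⟩)
            by_cases h2 : w ∈ V'
            · exact h3.trans (hu' w h2)
            · have h4 := hfr' w (by rw [hV'.frontier_eq]; exact ⟨hwV', h2⟩)
              simp only [û, if_neg h1] at h4
              exact h3.trans h4
        have hempty : ∀ x, x ∉ V₁ := by
          intro x₀ hx₀
          have hlt : C' x₀ < C x₀ := hx₀.2.2
          by_cases haa : a' ≤ a
          · have hzV : z ∉ V₁ := fun h => hz h.1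
            obtain ⟨w, hw, hwf⟩ := exists_mem_frontier hx₀ hzV
            have h1 := hV₁fr w hwf
            have h3 := norm_add_of_mem_segment hw
            have h4 : ‖w - z'‖ ≤ ‖x₀ - w‖ + ‖x₀ - z'‖ := by
              rw [norm_sub_rev x₀ w]
              exact norm_sub_le_norm_sub_add_norm_sub _ _ _
            have h5 := mul_le_mul_of_nonneg_left h4 ha'
            have h6 : a' * ‖x₀ - w‖ ≤ a * ‖x₀ - w‖ :=
              mul_le_mul_of_nonneg_right haa (norm_nonneg _)
            simp only [C, C'] at h1 hlt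
            rw [← h3] at hlt
            linarith
          · push Not at haa
            have hzV : z' ∉ V₁ := fun h => hz' h.2.1
            obtain ⟨w, hw, hwf⟩ := exists_mem_frontier hx₀ hzV
            have h1 := hV₁fr w hwf
            have h3 := norm_add_of_mem_segment hw
            have h4 : ‖w - z‖ ≤ ‖x₀ - w‖ + ‖x₀ - z‖ := by
              rw [norm_sub_rev x₀ w]
              exact norm_sub_le_norm_sub_add_norm_sub _ _ _
            have h5 := mul_le_mul_of_nonneg_left h4 ha
            have h6 : a * ‖x₀ - w‖ ≤ a' * ‖x₀ - w‖ :=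
              mul_le_mul_of_nonneg_right haa.le (norm_nonneg _)
            simp only [C, C'] at h1 hlt
            rw [← h3] at hlt
            linarith
        intro x hxV'
        by_cases hxV : x ∈ V
        · simp only [û, if_pos hxV]
          refine max_le (hu' x hxV') ?_
          by_contra h
          push Not at h
          exact hempty x ⟨hxV, hxV', h⟩
        · simp only [û, if_neg hxV]
          exact hu' x hxV'
    have h1 := le_perron hY hûadm x
    simp only [û, if_pos hx] at h1
    exact (le_max_right _ _).trans h1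

/-- The scalar case: absolutely minimal Lipschitz extensions of real valued functions. -/
theorem scalar_amle (Y : Set X) (f : X → ℝ) (L : ℝ) (hf : LipOn L f Y) :
    ∃ g : X → ℝ, (∀ y ∈ Y, g y = f y) ∧ ∀ U : Set X, IsOpen U → Disjoint U Y → ∀ C : ℝ, 0 ≤ C →
      LipOn C g (frontier U) → LipOn C g U := by
  rcases Y.eq_empty_or_nonempty with rfl | hY
  · exact ⟨fun _ => 0, by simp, fun U _ _ C hC _ x _ y _ => by
      simp only [sub_self, norm_zero]; positivity⟩
  have hf' : LipOn (max L 0) f Y := hf.mono_const (le_max_left _ _)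
  have hL : 0 ≤ max L 0 := le_max_right _ _
  have hu := perron_adm hY hL hf'
  set u := perron Y f (max L 0) with hudef
  have hulip := lipOn_real_iff.1 hu.lip
  refine ⟨u, hu.eq, fun U hU hUY C hC hfr => ?_⟩
  rw [lipOn_real_iff] at hfr
  have hfrU : ∀ w ∈ frontier U, w ∉ U := by
    intro w hw
    rw [hU.frontier_eq] at hw
    exact hw.2
  -- step one: comparison with boundary points
  have h1 : ∀ x ∈ U, ∀ y ∈ frontier U, u x ≤ u y + C * ‖x - y‖ := fun x hx y hy =>
    hu.cca U hU hUY y (hfrU y hy) C (u y) hC (fun w hw => hfr w hw y hy) x hx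
  have h2 : ∀ x ∈ U, ∀ y ∈ frontier U, u y - C * ‖x - y‖ ≤ u x := fun x hx y hy =>
    perron_ccb hY hL hf' hU hUY (hfrU y hy) hC (fun w hw => by
      have := hfr y hy w hw
      rw [norm_sub_rev] at this
      linarith) x hx
  rw [lipOn_real_iff]
  intro y hy x hx
  by_cases hyx : y = x
  · subst hyx
    simp
  have hUx : IsOpen (U \ {x}) := hU.sdiff isClosed_singleton
  have hfx : ∀ w ∈ frontier (U \ {x}), w = x ∨ w ∈ frontier U := by
    intro w hw
    rw [hUx.frontier_eq] at hw
    by_cases h : w = x
    · exact Or.inl h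
    · right
      rw [hU.frontier_eq]
      refine ⟨closure_mono sdiff_subset hw.1, fun h' => hw.2 ⟨h', h⟩⟩
  refine hu.cca (U \ {x}) hUx (hUY.mono_left sdiff_subset) x (by simp) C (u x) hC ?_ y ⟨hy, hyx⟩
  intro w hw
  rcases hfx w hw with rfl | hw
  · simp
  · have := h2 x hx w hw
    rw [norm_sub_rev] at this
    linarith

end

end Pool.Agent.Lib.MP_1e31fb_an
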