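import Pool.Agent.Lib.MP_1e31fb_an.Wild
import Pool.Agent.Lib.MP_1e31fb_an.Scalar

set_option linter.unusedSectionVars false

open Set Metric Topology Filter
open scoped RealInnerProductSpace

namespace Pool.Agent.Lib.MP_1e31fb_an

variable {H₁ H₂ : Type*} [NormedAddCommGroup H₁] [InnerProductSpace ℝ H₁] [CompleteSpace H₁]
  [NormedAddCommGroup H₂] [InnerProductSpace ℝ H₂] [CompleteSpace H₂]

/-- The extension in a component. -/
theorem component (hE : Dim2 H₂) {W : Set H₁} (hW : IsOpen W)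
    (hWc : IsPreconnected W) {f : H₁ → H₂} {K : ℝ} (hf : LipOn K f (frontier W)) :
    ∃ L : ℝ, 0 ≤ L ∧ ∃ u : H₁ → H₂, LipOn L u univ ∧ (∀ z ∈ frontier W, u z = f z) ∧
      ∀ U ⊆ W, IsOpen U → U.Nonempty → ∀ C, 0 ≤ C → LipOn C u (frontier U) → L ≤ C := by
  -- the best constant
  let A : Set ℝ := {L | 0 ≤ L ∧ LipOn L f (frontier W)}
  have hA : A.Nonempty := ⟨max K 0, le_max_right _ _, hf.mono_const (le_max_left _ _)⟩
  have hAb : BddBelow A := ⟨0, fun L hL => hL.1⟩
  obtain ⟨L, hL⟩ : ∃ L, L = sInf A := ⟨_, rfl⟩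
  have hL0 : 0 ≤ L := by
    rw [hL]
    exact le_csInf hA fun L hL => hL.1
  have hLf : LipOn L f (frontier W) := by
    intro x hx y hy
    by_contra hcon
    push Not at hcon
    have hxy : 0 ≤ ‖x - y‖ := norm_nonneg _
    obtain ⟨M, hM, hMlt⟩ : ∃ M ∈ A, M * ‖x - y‖ < ‖f x - f y‖ := by
      rcases hxy.eq_or_lt with h | h
      · obtain ⟨M, hM⟩ := hA
        refine ⟨M, hM, ?_⟩
        rw [← h, mul_zero] at hcon ⊢
        exact hcon
      · have h1 : sInf A < ‖f x - f y‖ / ‖x - y‖ := by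
          rw [← hL, lt_div_iff₀ h]
          exact hcon
        obtain ⟨M, hM, hMlt⟩ := exists_lt_of_csInf_lt hA h1
        exact ⟨M, hM, by rwa [lt_div_iff₀ h] at hMlt⟩
    exact absurd (hM.2 x hx y hy) (not_le.2 hMlt)
  have hbest : ∀ C, 0 ≤ C → LipOn C f (frontier W) → L ≤ C := fun C hC0 hC => by
    rw [hL]
    exact csInf_le hAb ⟨hC0, hC⟩
  rcases hL0.eq_or_lt with h0 | h0
  · -- constant values
    obtain ⟨u, hu1, hu2⟩ := kirszbraun f hL0 hLf
    refine ⟨L, hL0, u, hu1, hu2, fun U _ _ _ C hC _ => ?_⟩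
    rw [← h0]
    exact hC
  · -- scaling
    have hLne := h0.ne'
    have hscale : ∀ (g : H₁ → H₂) (c M : ℝ) (S : Set H₁), 0 ≤ c → LipOn M g S →
        LipOn (c * M) (fun x => c • g x) S := by
      intro g c M S hc hg x hx y hy
      rw [← smul_sub, norm_smul, Real.norm_eq_abs, abs_of_nonneg hc, mul_assoc]
      exact mul_le_mul_of_nonneg_left (hg x hx y hy) hc
    have hf1 : LipOn 1 (fun x => L⁻¹ • f x) (frontier W) := by
      have := hscale f L⁻¹ L (frontier W) (by positivity) hLf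
      rwa [inv_mul_cancel₀ hLne] at this
    have hft : ∀ t < 1, ¬ LipOn t (fun x => L⁻¹ • f x) (frontier W) := by
      intro t ht h
      have h1 : LipOn (max t 0) (fun x => L⁻¹ • f x) (frontier W) := h.mono_const (le_max_left _ _)
      have h2 := hscale _ L _ _ hL0 h1
      have h3 : (fun x => L • (L⁻¹ • f x)) = f := by
        funext x
        rw [smul_smul, mul_inv_cancel₀ hLne, one_smul]
      rw [h3] at h2
      have h4 := hbest _ (by positivity) h2
      have h5 : max t 0 < 1 := max_lt ht one_pos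
      have : L * max t 0 < L * 1 := mul_lt_mul_of_pos_left h5 h0
      linarith
    obtain ⟨u, hu, hwild⟩ := core hE hW hWc hf1 hft
    refine ⟨L, hL0, fun x => L • u x, ?_, ?_, ?_⟩
    · have := hscale u L 1 univ hL0 hu.1
      rwa [mul_one] at this
    · intro z hz
      simp only
      rw [hu.2 z hz, smul_smul, mul_inv_cancel₀ hLne, one_smul]
    · intro U hUW hU hUne C hC hC'
      by_contra hlt
      push Not at hlt
      refine hwild U hUW hU hUne (L⁻¹ * C) (by positivity) ?_ ?_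
      · rw [inv_mul_lt_iff₀ h0, mul_one]
        exact hlt
      · have h2 := hscale _ L⁻¹ C _ (by positivity) hC'
        have h3 : (fun x => L⁻¹ • (L • u x)) = u := by
          funext x
          rw [smul_smul, inv_mul_cancel₀ hLne, one_smul]
        rwa [h3] at h2

/-- The gluing of the components. -/
theorem amle_dim2 (hE : Dim2 H₂) {Y : Set H₁} (hY : IsClosed Y) {f : H₁ → H₂} {K : ℝ}
    (hf : LipOn K f Y) : ∃ g : H₁ → H₂, (∀ y ∈ Y, g y = f y) ∧
      ∀ U : Set H₁, IsOpen U → Disjoint U Y → ∀ C, 0 ≤ C → LipOn C g (frontier U) →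
        LipOn C g U := by
  classical
  have hYo : IsOpen Yᶜ := hY.isOpen_compl
  let W : H₁ → Set H₁ := fun x => connectedComponentIn Yᶜ x
  have hWo : ∀ x, IsOpen (W x) := fun x => hYo.connectedComponentIn
  have hWc : ∀ x, IsPreconnected (W x) := fun x => isPreconnected_connectedComponentIn
  have hWsub : ∀ x, W x ⊆ Yᶜ := fun x => connectedComponentIn_subset _ _
  have hWmem : ∀ x, x ∈ Yᶜ → x ∈ W x := fun x hx => mem_connectedComponentIn hx
  have hWeq : ∀ x y, y ∈ W x → W y = W x := fun x y hy => (connectedComponentIn_eq hy).symm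
  have hWfr : ∀ x, frontier (W x) ⊆ Y := by
    intro x w hw
    by_contra hwY
    have h1 : w ∈ W w := hWmem w hwY
    obtain ⟨z, hz1, hz2⟩ := mem_closure_iff.1 (frontier_subset_closure hw) (W w) (hWo w) h1
    have h2 : W w = W x := (hWeq w z hz1).symm.trans (hWeq x z hz2)
    rw [h2] at h1
    rw [(hWo x).frontier_eq] at hw
    exact hw.2 h1
  have hcomp : ∀ S : Set H₁, ∃ (L : ℝ) (u : H₁ → H₂), (∃ x, S = W x) → 0 ≤ L ∧
      LipOn L u univ ∧ (∀ z ∈ frontier S, u z = f z) ∧
      ∀ U ⊆ S, IsOpen U → U.Nonempty → ∀ C, 0 ≤ C → LipOn C u (frontier U) → L ≤ C := by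
    intro S
    by_cases h : ∃ x, S = W x
    · obtain ⟨x, rfl⟩ := h
      obtain ⟨L, hL0, u, h1, h2, h3⟩ := component hE (hWo x) (hWc x) (hf.mono (hWfr x))
      exact ⟨L, u, fun _ => ⟨hL0, h1, h2, h3⟩⟩
    · exact ⟨0, fun _ => 0, fun h' => absurd h' h⟩
  choose L u hcomp using hcomp
  let g : H₁ → H₂ := fun x => if x ∈ Y then f x else u (W x) x
  have hgY : ∀ y ∈ Y, g y = f y := fun y hy => if_pos hy
  have hgW : ∀ x, ∀ w ∈ closure (W x), g w = u (W x) w := by
    intro x w hw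
    by_cases hwW : w ∈ W x
    · have : w ∉ Y := hWsub x hwW
      simp only [g, if_neg this]
      rw [hWeq x w hwW]
    · have hwf : w ∈ frontier (W x) := by
        rw [(hWo x).frontier_eq]
        exact ⟨hw, hwW⟩
      rw [hgY w (hWfr x hwf), (hcomp (W x) ⟨x, rfl⟩).2.2.1 w hwf]
  refine ⟨g, hgY, fun U hU hUY C hC hCg => ?_⟩
  have hUYc : ∀ x ∈ U, x ∈ Yᶜ := fun x hx hxY => disjoint_left.1 hUY hx hxY
  have hfrsub : ∀ x, frontier (U ∩ W x) ⊆ frontier U ∩ closure (W x) := by
    intro x w hw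
    rw [(hU.inter (hWo x)).frontier_eq] at hw
    have h1 : w ∈ closure U := closure_mono inter_subset_left hw.1
    have h2 : w ∈ closure (W x) := closure_mono inter_subset_right hw.1
    refine ⟨?_, h2⟩
    rw [hU.frontier_eq]
    refine ⟨h1, fun hwU => ?_⟩
    have hwW : w ∉ W x := fun h => hw.2 ⟨hwU, h⟩
    have hwf : w ∈ frontier (W x) := by
      rw [(hWo x).frontier_eq]
      exact ⟨h2, hwW⟩
    exact hUYc w hwU (hWfr x hwf)
  -- fact A
  have hA : ∀ x ∈ U, LipOn C g (closure (W x)) := by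
    intro x hx
    obtain ⟨hL0, h1, h2, h3⟩ := hcomp (W x) ⟨x, rfl⟩
    have h4 : LipOn C (u (W x)) (frontier (U ∩ W x)) := by
      refine (hCg.mono fun w hw => (hfrsub x hw).1).congr fun w hw => ?_
      exact (hgW x w (hfrsub x hw).2).symm
    have h5 : L (W x) ≤ C := h3 _ inter_subset_right (hU.inter (hWo x))
      ⟨x, hx, hWmem x (hUYc x hx)⟩ C hC h4
    exact ((h1.mono (subset_univ _)).mono_const h5).congr fun w hw => hgW x w hw
  intro x hx y hy
  by_cases hyW : y ∈ W x
  · exact hA x hx x (subset_closure (hWmem x (hUYc x hx))) y (subset_closure hyW)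
  · have hxm : x ∈ U ∩ W x := ⟨hx, hWmem x (hUYc x hx)⟩
    have hym : y ∈ U ∩ W y := ⟨hy, hWmem y (hUYc y hy)⟩
    obtain ⟨p, hp, hpf⟩ := exists_mem_frontier hxm (fun h => hyW h.2)
    have hp' := hfrsub x hpf
    have hpU : p ∉ U := by
      have := hp'.1
      rw [hU.frontier_eq] at this
      exact this.2
    obtain ⟨q, hq, hqf⟩ := exists_mem_frontier hym (fun h => hpU h.1)
    have hq' := hfrsub y hqf
    have h1 := hA x hx x (subset_closure hxm.2) p hp'.2
    have h2 := hCg p hp'.1 q hq'.1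
    have h3 := hA y hy y (subset_closure hym.2) q hq'.2
    have h4 := norm_add_of_mem_segment hp
    have h5 := norm_add_of_mem_segment hq
    rw [norm_sub_rev y q, norm_sub_rev q p, norm_sub_rev y p] at h5
    rw [norm_sub_rev (g y) (g q), norm_sub_rev y q] at h3
    have h6 : ‖g x - g y‖ ≤ ‖g x - g p‖ + ‖g p - g y‖ := norm_sub_le_norm_sub_add_norm_sub _ _ _
    have h7 : ‖g p - g y‖ ≤ ‖g p - g q‖ + ‖g q - g y‖ := norm_sub_le_norm_sub_add_norm_sub _ _ _
    have h8 : C * ‖x - y‖ = C * ‖x - p‖ + C * ‖p - q‖ + C * ‖q - y‖ := by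
      rw [← h4, ← h5]
      ring
    linarith

/-- Existence of absolutely minimal extensions. -/
theorem amle_exists {Y : Set H₁} (hY : IsClosed Y) {f : H₁ → H₂} {K : ℝ}
    (hf : LipOn K f Y) : ∃ g : H₁ → H₂, (∀ y ∈ Y, g y = f y) ∧
      ∀ U : Set H₁, IsOpen U → Disjoint U Y → ∀ C, 0 ≤ C → LipOn C g (frontier U) →
        LipOn C g U := by
  by_cases hE : Dim2 H₂
  · exact amle_dim2 hE hY hf
  · by_cases hex : ∃ e : H₂, ‖e‖ = 1
    · obtain ⟨e, he, hno⟩ : ∃ e : H₂, ‖e‖ = 1 ∧ ¬ ∃ n : H₂, ‖n‖ = 1 ∧ ⟪e, n⟫ = 0 := by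
        by_contra hcon
        push Not at hcon
        exact hE ⟨hex, hcon⟩
      have hone : ∀ x : H₂, x = ⟪e, x⟫ • e := one_dim he hno
      have hf' : LipOn K (fun x => ⟪e, f x⟫) Y := by
        intro x hx y hy
        refine le_trans ?_ (hf x hx y hy)
        rw [← inner_sub_right, Real.norm_eq_abs]
        have := abs_real_inner_le_norm e (f x - f y)
        rwa [he, one_mul] at this
      obtain ⟨g, hg1, hg2⟩ := scalar_amle Y (fun x => ⟪e, f x⟫) K hf'
      have hnorm : ∀ x y, ‖g x • e - g y • e‖ = ‖g x - g y‖ := by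
        intro x y
        rw [← sub_smul, norm_smul, he, mul_one]
      refine ⟨fun x => g x • e, fun y hy => ?_, fun U hU hUY C hC hCg => ?_⟩
      · simp only
        rw [hg1 y hy]
        exact (hone (f y)).symm
      · intro x hx y hy
        simp only
        rw [hnorm]
        refine hg2 U hU hUY C hC (fun a ha b hb => ?_) x hx y hy
        rw [← hnorm]
        exact hCg a ha b hb
    · have hz : ∀ x : H₂, x = 0 := by
        intro x
        by_contra hx
        have h1 : ‖x‖ ≠ 0 := norm_ne_zero_iff.2 hx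
        exact hex ⟨‖x‖⁻¹ • x, by rw [norm_smul, norm_inv, norm_norm, inv_mul_cancel₀ h1]⟩
      refine ⟨fun _ => 0, fun y _ => (hz _).symm, fun U _ _ C hC _ x _ y _ => ?_⟩
      rw [sub_self, norm_zero]
      positivity

end Pool.Agent.Lib.MP_1e31fb_an
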