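import Pool.Agent.Lib.MP_1e31fb_an.Family

set_option linter.unusedSectionVars false

open Set Metric Topology Filter
open scoped RealInnerProductSpace

namespace Pool.Agent.Lib.MP_1e31fb_an

variable {H₁ H₂ : Type*} [NormedAddCommGroup H₁] [InnerProductSpace ℝ H₁] [CompleteSpace H₁]
  [NormedAddCommGroup H₂] [InnerProductSpace ℝ H₂] [CompleteSpace H₂]

theorem isCompact_sg (p : H₁ × H₁ × H₁) : IsCompact (sg p) := by
  unfold sg
  rw [segment_eq_image']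
  exact isCompact_Icc.image (by fun_prop)

/-- One step of the iteration. -/
theorem step_lemma (hE : Dim2 H₂) {F : Set H₁} {f : H₁ → H₂} (hf : LipOn 1 f F)
    (hF : F.Nonempty) {u : H₁ → H₂} (hu : u ∈ Ext F f) {Q : Set (H₁ × H₁ × H₁)} {len m : ℝ}
    (hQ : GoodFam Q len m) {ρ R κ : ℝ} (hρ : 0 < ρ) (hR : 0 ≤ R) (hκ : 0 < κ)
    (hroom : ∀ p ∈ Q, ∀ x ∈ sg p, ∀ y, ‖x - y‖ < κ → y ∈ Room F f ρ ∩ closedBall 0 R)
    {ε θ : ℝ} (hε0 : 0 < ε) (hε1 : ε ≤ 1) (hθ : 0 < θ) :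
    ∃ u' ∈ Ext F f, (∀ x, ‖u' x - u x‖ ≤ θ * (1 + ‖x‖)) ∧ ∃ τ, 0 < τ ∧ τ < ε ∧ ∃ δ > 0,
      ∀ p ∈ Q, ∀ T, Crosses T p τ → ∃ x ∈ T, ∃ y ∈ T, ‖x‖ ≤ R + 1 ∧ ‖y‖ ≤ R + 1 ∧
        δ ≤ ‖x - y‖ ∧ (1 - ε) ^ 2 * ‖x - y‖ ≤ ‖u' x - u' y‖ := by
  obtain ⟨εw, hεw0, hεw1, w, hw, hwstrict⟩ := exists_strict hf hF hρ hR
  obtain ⟨z₀, hz₀⟩ := hF
  obtain ⟨C, hC⟩ : ∃ C, C = 2 * (1 + ‖z₀‖) := ⟨_, rfl⟩
  have hC0 : 0 < C := by rw [hC]; positivity
  have huw : ∀ x, ‖w x - u x‖ ≤ C * (1 + ‖x‖) := by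
    intro x
    have h1 := hw.1 x (mem_univ _) z₀ (mem_univ _)
    have h2 := hu.1 z₀ (mem_univ _) x (mem_univ _)
    rw [hw.2 z₀ hz₀, one_mul] at h1
    rw [hu.2 z₀ hz₀, one_mul, norm_sub_rev z₀ x] at h2
    have h3 : ‖w x - u x‖ ≤ ‖w x - f z₀‖ + ‖f z₀ - u x‖ := norm_sub_le_norm_sub_add_norm_sub _ _ _
    have h4 : ‖x - z₀‖ ≤ ‖x‖ + ‖z₀‖ := norm_sub_le _ _
    have h5 : 0 ≤ ‖z₀‖ * ‖x‖ := by positivity
    rw [hC]
    nlinarith
  obtain ⟨η, hη⟩ : ∃ η, η = min 1 (θ / 2 / C) := ⟨_, rfl⟩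
  have hη0 : 0 < η := by rw [hη]; exact lt_min one_pos (by positivity)
  have hη1 : η ≤ 1 := by rw [hη]; exact min_le_left _ _
  have hηC : η * C ≤ θ / 2 := by
    have : η ≤ θ / 2 / C := by rw [hη]; exact min_le_right _ _
    rwa [le_div_iff₀ hC0] at this
  obtain ⟨u₁, hu₁⟩ : ∃ u₁ : H₁ → H₂, u₁ = fun x => (1 - η) • u x + η • w x := ⟨_, rfl⟩
  have hdiff : ∀ x y, u₁ x - u₁ y = (1 - η) • (u x - u y) + η • (w x - w y) := by
    intro x y
    rw [hu₁]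
    module
  have hconv : ∀ (a b : ℝ) x y, ‖u x - u y‖ ≤ a → ‖w x - w y‖ ≤ b →
      ‖u₁ x - u₁ y‖ ≤ (1 - η) * a + η * b := by
    intro a b x y ha hb
    rw [hdiff]
    refine (norm_add_le _ _).trans ?_
    rw [norm_smul, norm_smul, Real.norm_eq_abs, Real.norm_eq_abs, abs_of_nonneg (by linarith),
      abs_of_pos hη0]
    exact add_le_add (mul_le_mul_of_nonneg_left ha (by linarith))
      (mul_le_mul_of_nonneg_left hb hη0.le)
  have hu₁lip : LipOn 1 u₁ univ := by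
    intro x _ y _
    have h1 := hconv _ _ x y (hu.1 x (mem_univ _) y (mem_univ _))
      (hw.1 x (mem_univ _) y (mem_univ _))
    linarith
  have hu₁F : ∀ z ∈ F, u₁ z = f z := by
    intro z hz
    rw [hu₁]
    simp only
    rw [hu.2 z hz, hw.2 z hz, ← add_smul, sub_add_cancel, one_smul]
  have hu₁u : ∀ x, ‖u₁ x - u x‖ ≤ θ / 2 * (1 + ‖x‖) := by
    intro x
    have h1 : u₁ x - u x = η • (w x - u x) := by
      rw [hu₁]
      module
    rw [h1, norm_smul, Real.norm_eq_abs, abs_of_pos hη0]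
    calc η * ‖w x - u x‖ ≤ η * (C * (1 + ‖x‖)) := mul_le_mul_of_nonneg_left (huw x) hη0.le
      _ = η * C * (1 + ‖x‖) := by ring
      _ ≤ θ / 2 * (1 + ‖x‖) := mul_le_mul_of_nonneg_right hηC (by positivity)
  have hstrict : ∀ p ∈ Q, ∀ x ∈ sg p, ∀ z, ‖x - z‖ ≤ κ / 2 →
      ‖u₁ x - u₁ z‖ ≤ (1 - η * εw) * ‖x - z‖ := by
    intro p hp x hx z hxz
    have hxA := hroom p hp x hx x (by rw [sub_self, norm_zero]; exact hκ)
    have hzA := hroom p hp x hx z (by linarith)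
    have h1 := hconv _ _ x z (hu.1 x (mem_univ _) z (mem_univ _)) (hwstrict x hxA z hzA)
    linarith
  obtain ⟨ε', hε'⟩ : ∃ ε', ε' = min (min ε (θ / 2)) ρ := ⟨_, rfl⟩
  have hε'0 : 0 < ε' := by rw [hε']; exact lt_min (lt_min hε0 (by positivity)) hρ
  have hε'ε : ε' ≤ ε := by rw [hε']; exact (min_le_left _ _).trans (min_le_left _ _)
  have hε'θ : ε' ≤ θ / 2 := by rw [hε']; exact (min_le_left _ _).trans (min_le_right _ _)
  have hε'ρ : ε' ≤ ρ := by rw [hε']; exact min_le_right _ _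
  have ht1 : 1 - η * εw < 1 := by
    have := mul_pos hη0 hεw0
    linarith
  have ht0 : 0 ≤ 1 - η * εw := by
    have : η * εw ≤ 1 * 1 := mul_le_mul hη1 hεw1 hεw0.le zero_le_one
    linarith
  obtain ⟨u', hu'1, hu'2, hu'3, τ, hτ0, hτ1, δ, hδ, hcross⟩ :=
    strip_lemma hE hu₁lip hQ ht0 ht1 (half_pos hκ) hstrict hε'0 (hε'ε.trans hε1)
  refine ⟨u', ⟨hu'1, fun z hz => ?_⟩, fun x => ?_, τ, hτ0, hτ1.trans_le hε'ε, δ, hδ, ?_⟩
  · rw [hu'3 z, hu₁F z hz]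
    intro p hp y hy
    have h1 := (hroom p hp y hy y (by rw [sub_self, norm_zero]; exact hκ)).1
    have h2 := room_dist h1 hz
    rw [norm_sub_rev]
    linarith
  · have h1 : ‖u' x - u x‖ ≤ ‖u' x - u₁ x‖ + ‖u₁ x - u x‖ :=
      norm_sub_le_norm_sub_add_norm_sub _ _ _
    have h2 := hu'2 x
    have h3 := hu₁u x
    have h4 : 0 ≤ θ / 2 * ‖x‖ := by positivity
    linarith
  · intro p hp T hT
    obtain ⟨x, hx, y, hy, ⟨x', hx', hxx'⟩, ⟨y', hy', hyy'⟩, hd, hsl⟩ := hcross p hp T hT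
    have hR' : ∀ z z', z' ∈ sg p → ‖z - z'‖ ≤ ε' → ‖z‖ ≤ R + 1 := by
      intro z z' hz' hzz'
      have h1 := (hroom p hp z' hz' z' (by rw [sub_self, norm_zero]; exact hκ)).2
      rw [mem_closedBall, dist_zero_right] at h1
      have h2 : ‖z‖ ≤ ‖z - z'‖ + ‖z'‖ := by
        have := norm_add_le (z - z') z'
        rwa [sub_add_cancel] at this
      linarith
    refine ⟨x, hx, y, hy, hR' x x' hx' hxx', hR' y y' hy' hyy', hd, ?_⟩
    refine le_trans ?_ hsl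
    apply mul_le_mul_of_nonneg_right _ (norm_nonneg _)
    have h1 : 0 ≤ 1 - ε := by linarith
    have h2 : 1 - ε ≤ 1 - ε' := by linarith
    gcongr

/-- The refined family. -/
def refine' (F : Set H₁) (f : H₁ → H₂) (P : Set (H₁ × H₁ × H₁)) (k : ℕ) :
    Set (H₁ × H₁ × H₁) :=
  {p | p ∈ P ∧ ∀ x ∈ sg p, ∀ y, ‖x - y‖ < 1 / ((k : ℝ) + 1) →
    y ∈ Room F f (1 / ((k : ℝ) + 1)) ∩ closedBall 0 ((k : ℝ) + 1)}

theorem exists_refine {F : Set H₁} {f : H₁ → H₂} {P : Set (H₁ × H₁ × H₁)} {p : H₁ × H₁ × H₁}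
    (hp : p ∈ P) (hroom : ∀ x ∈ sg p, ∃ ρ > 0, x ∈ Room F f ρ) : ∃ k, p ∈ refine' F f P k := by
  let O : ℕ → Set H₁ := fun j => {x | ‖x‖ < (j : ℝ) + 1 ∧ ∃ ρ, 1 / ((j : ℝ) + 1) < ρ ∧
    x ∈ Room F f ρ}
  have hOopen : ∀ j, IsOpen (O j) := by
    intro j
    rw [Metric.isOpen_iff]
    rintro x ⟨hx1, ρ, hρ, hx2⟩
    obtain ⟨δ, hδ⟩ : ∃ δ, δ = min ((j : ℝ) + 1 - ‖x‖) ((ρ - 1 / ((j : ℝ) + 1)) / 2) := ⟨_, rfl⟩
    have hδ0 : 0 < δ := by
      rw [hδ]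
      exact lt_min (by linarith) (by linarith)
    have hδ1 : δ ≤ (j : ℝ) + 1 - ‖x‖ := by rw [hδ]; exact min_le_left _ _
    have hδ2 : δ ≤ (ρ - 1 / ((j : ℝ) + 1)) / 2 := by rw [hδ]; exact min_le_right _ _
    refine ⟨δ, hδ0, fun y hy => ?_⟩
    rw [mem_ball, dist_eq_norm] at hy
    refine ⟨?_, ρ - δ, by linarith, room_shift hx2 (by rw [norm_sub_rev]; exact hy.le)⟩
    have : ‖y‖ ≤ ‖y - x‖ + ‖x‖ := by
      have := norm_add_le (y - x) x
      rwa [sub_add_cancel] at this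
    linarith
  have hOmono : Monotone O := by
    intro i j hij x hx
    obtain ⟨hx1, ρ, hρ, hx2⟩ := hx
    have hij' : (i : ℝ) ≤ j := by exact_mod_cast hij
    refine ⟨by linarith, ρ, lt_of_le_of_lt ?_ hρ, hx2⟩
    apply one_div_le_one_div_of_le (by positivity)
    linarith
  have hcov : sg p ⊆ ⋃ j, O j := by
    intro x hx
    obtain ⟨ρ, hρ, hxρ⟩ := hroom x hx
    obtain ⟨j, hj⟩ := exists_nat_gt (max ‖x‖ (1 / ρ))
    have hj1 : ‖x‖ < j := (le_max_left _ _).trans_lt hj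
    have hj2 : 1 / ρ < j := (le_max_right _ _).trans_lt hj
    refine mem_iUnion.2 ⟨j, by linarith, ρ, ?_, hxρ⟩
    rw [div_lt_iff₀ hρ] at hj2
    rw [div_lt_iff₀ (by positivity)]
    nlinarith
  obtain ⟨j, hj⟩ := (isCompact_sg p).elim_directed_cover O hOopen hcov hOmono.directed_le
  obtain ⟨δ, hδ, hthick⟩ := (isCompact_sg p).exists_thickening_subset_open (hOopen j) hj
  obtain ⟨i, hi⟩ := exists_nat_one_div_lt hδ
  refine ⟨max i j, hp, fun x hx y hxy => ?_⟩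
  have hyj : y ∈ O j := by
    apply hthick
    rw [mem_thickening_iff]
    refine ⟨x, hx, ?_⟩
    rw [dist_comm, dist_eq_norm]
    refine hxy.trans_le (le_trans ?_ hi.le)
    apply one_div_le_one_div_of_le (by positivity)
    have : (i : ℝ) ≤ ((max i j : ℕ) : ℝ) := by exact_mod_cast le_max_left _ _
    linarith
  obtain ⟨h1, ρ, hρ, h2⟩ := hOmono (le_max_right i j) hyj
  refine ⟨room_mono hρ.le h2, ?_⟩
  rw [mem_closedBall, dist_zero_right]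
  exact h1.le

/-- The main existence theorem for wild extensions. -/
theorem exists_wild (hE : Dim2 H₂) {F : Set H₁} {f : H₁ → H₂} (hf : LipOn 1 f F)
    (hF : F.Nonempty) (P : ℕ → Set (H₁ × H₁ × H₁)) (len m : ℕ → ℝ)
    (hP : ∀ n, GoodFam (P n) (len n) (m n)) :
    ∃ u ∈ Ext F f, ∀ n, ∀ p ∈ P n, (∀ x ∈ sg p, ∃ ρ > 0, x ∈ Room F f ρ) →
      ∀ (T : Set H₁) (τ : ℝ), 0 < τ → Crosses T p τ → ∀ t < 1, ¬ LipOn t u T := by
  classical
  let St := {s : (H₁ → H₂) × ℝ // s.1 ∈ Ext F f ∧ 0 < s.2}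
  let ε : ℕ → ℝ := fun j => 1 / ((j : ℝ) + 1)
  have hε0 : ∀ j, 0 < ε j := fun j => by positivity
  have hε1 : ∀ j, ε j ≤ 1 := fun j => by
    simp only [ε]
    rw [div_le_one (by positivity)]
    have : (0 : ℝ) ≤ j := Nat.cast_nonneg j
    linarith
  let nn : ℕ → ℕ := fun j => (Nat.unpair (Nat.unpair j).2).1
  let kk : ℕ → ℕ := fun j => (Nat.unpair (Nat.unpair j).2).2
  let R : ℕ → ℝ := fun j => (kk j : ℝ) + 1 + 1
  have hR0 : ∀ j, 0 < R j := fun j => by positivity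
  have hstep : ∀ (j : ℕ) (s : St), ∃ s' : St,
      (∀ x, ‖s'.1.1 x - s.1.1 x‖ ≤ s.1.2 / 2 * (1 + ‖x‖)) ∧ s'.1.2 ≤ s.1.2 / 2 ∧
      ∃ τ, 0 < τ ∧ τ < ε j ∧ ∀ p ∈ refine' F f (P (nn j)) (kk j), ∀ T, Crosses T p τ →
        ∃ x ∈ T, ∃ y ∈ T, ‖x‖ ≤ R j ∧ ‖y‖ ≤ R j ∧ 0 < ‖x - y‖ ∧
        (1 - ε j) ^ 2 * ‖x - y‖ ≤ ‖s'.1.1 x - s'.1.1 y‖ ∧
        s'.1.2 * (2 * (1 + R j)) ≤ ε j * ‖x - y‖ := by
    intro j s
    have hQ : GoodFam (refine' F f (P (nn j)) (kk j)) (len (nn j)) (m (nn j)) :=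
      (hP (nn j)).mono fun p hp => hp.1
    obtain ⟨u', hu', hd, τ, hτ0, hτ1, δ, hδ, hcross⟩ := step_lemma hE hf hF s.2.1 hQ
      (ρ := 1 / ((kk j : ℝ) + 1)) (R := (kk j : ℝ) + 1) (κ := 1 / ((kk j : ℝ) + 1))
      (by positivity) (by positivity) (by positivity) (fun p hp => hp.2) (hε0 j) (hε1 j)
      (half_pos s.2.2)
    obtain ⟨η', hη'⟩ : ∃ η', η' = min (s.1.2 / 2) (ε j * δ / (2 * (1 + R j))) := ⟨_, rfl⟩
    have hη'0 : 0 < η' := by
      rw [hη']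
      have h1 := hR0 j
      have h2 := hε0 j
      exact lt_min (half_pos s.2.2) (by positivity)
    have hη'1 : η' ≤ s.1.2 / 2 := by rw [hη']; exact min_le_left _ _
    refine ⟨⟨(u', η'), hu', hη'0⟩, hd, hη'1, τ, hτ0, hτ1, ?_⟩
    · intro p hp T hT
      obtain ⟨x, hx, y, hy, hxR, hyR, hd, hsl⟩ := hcross p hp T hT
      refine ⟨x, hx, y, hy, hxR, hyR, lt_of_lt_of_le hδ hd, hsl, ?_⟩
      have h1 : η' ≤ ε j * δ / (2 * (1 + R j)) := by rw [hη']; exact min_le_right _ _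
      rw [le_div_iff₀ (by have := hR0 j; positivity)] at h1
      refine h1.trans ?_
      exact mul_le_mul_of_nonneg_left hd (hε0 j).le
  choose step hstep1 hstep2 τ hτ0 hτ1 hstep3 using hstep
  obtain ⟨u₀, hu₀lip, hu₀F⟩ := kirszbraun_one f hf
  let s₀ : St := ⟨(u₀, 1), ⟨hu₀lip, hu₀F⟩, one_pos⟩
  let σ : ℕ → St := fun j => Nat.rec s₀ (fun i s => step i s) j
  have hσ : ∀ j, σ (j + 1) = step j (σ j) := fun j => rfl
  let u : ℕ → H₁ → H₂ := fun j => (σ j).1.1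
  let η : ℕ → ℝ := fun j => (σ j).1.2
  have hη0 : ∀ j, 0 < η j := fun j => (σ j).2.2
  have hη1 : ∀ j, η (j + 1) ≤ η j / 2 := fun j => by
    have := hstep2 j (σ j)
    rwa [← hσ] at this
  have hu1 : ∀ j x, ‖u (j + 1) x - u j x‖ ≤ (η j - η (j + 1)) * (1 + ‖x‖) := by
    intro j x
    have h1 := hstep1 j (σ j) x
    rw [← hσ] at h1
    refine h1.trans ?_
    apply mul_le_mul_of_nonneg_right _ (by positivity)
    have := hη1 j
    change η j / 2 ≤ η j - η (j + 1)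
    linarith
  have htel : ∀ j i x, ‖u (j + i) x - u j x‖ ≤ (η j - η (j + i)) * (1 + ‖x‖) := by
    intro j i x
    induction i with
    | zero => simp
    | succ i ih =>
      have h1 := hu1 (j + i) x
      have h2 : ‖u (j + i + 1) x - u j x‖ ≤ ‖u (j + i + 1) x - u (j + i) x‖ +
        ‖u (j + i) x - u j x‖ := norm_sub_le_norm_sub_add_norm_sub _ _ _
      rw [← add_assoc]
      linarith
  have hη2 : Tendsto η atTop (𝓝 0) := by
    have h1 : ∀ j, η j ≤ (1 / 2 : ℝ) ^ j := by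
      intro j
      induction j with
      | zero => exact le_of_eq (by simp [η, σ, s₀])
      | succ j ih =>
        have := hη1 j
        rw [pow_succ]
        linarith
    exact squeeze_zero (fun j => (hη0 j).le) h1
      (tendsto_pow_atTop_nhds_zero_of_lt_one (by norm_num) (by norm_num))
  have hcau : ∀ x, CauchySeq fun j => u j x := by
    intro x
    rw [Metric.cauchySeq_iff']
    intro ε hε
    have h1 : Tendsto (fun j => η j * (1 + ‖x‖)) atTop (𝓝 (0 * (1 + ‖x‖))) := hη2.mul_const _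
    rw [zero_mul] at h1
    obtain ⟨N, hN⟩ := (h1.eventually (gt_mem_nhds hε)).exists
    refine ⟨N, fun n hn => ?_⟩
    obtain ⟨i, rfl⟩ := Nat.exists_eq_add_of_le hn
    rw [dist_eq_norm]
    refine lt_of_le_of_lt ((htel N i x).trans ?_) hN
    apply mul_le_mul_of_nonneg_right _ (by positivity)
    have := hη0 (N + i)
    linarith
  choose U hU using fun x => cauchySeq_tendsto_of_complete (hcau x)
  have hUu : ∀ j x, ‖U x - u j x‖ ≤ η j * (1 + ‖x‖) := by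
    intro j x
    have h1 : Tendsto (fun i => ‖u (i + j) x - u j x‖) atTop (𝓝 ‖U x - u j x‖) :=
      (((tendsto_add_atTop_iff_nat j).2 (hU x)).sub_const _).norm
    refine le_of_tendsto' h1 fun i => ?_
    rw [add_comm]
    refine (htel j i x).trans ?_
    apply mul_le_mul_of_nonneg_right _ (by positivity)
    have := hη0 (j + i)
    linarith
  have hUext : U ∈ Ext F f := by
    constructor
    · intro x _ y _
      have h1 : Tendsto (fun j => ‖u j x - u j y‖) atTop (𝓝 ‖U x - U y‖) :=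
        ((hU x).sub (hU y)).norm
      exact le_of_tendsto' h1 fun j => (σ j).2.1.1 x (mem_univ _) y (mem_univ _)
    · intro z hz
      have h1 : ∀ j, u j z = f z := fun j => (σ j).2.1.2 z hz
      have h2 := hU z
      simp only [h1] at h2
      exact tendsto_nhds_unique h2 tendsto_const_nhds
  refine ⟨U, hUext, fun n p hp hroom T τ' hτ' hcross t ht hlip => ?_⟩
  obtain ⟨k, hk⟩ := exists_refine hp hroom
  obtain ⟨i, hi⟩ := exists_nat_one_div_lt (lt_min hτ' (show (0 : ℝ) < (1 - t) / 3 by linarith))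
  obtain ⟨j, hj⟩ : ∃ j, j = Nat.pair i (Nat.pair n k) := ⟨_, rfl⟩
  have hnn : nn j = n := by simp [nn, hj]
  have hkk : kk j = k := by simp [kk, hj]
  have hij : i ≤ j := by rw [hj]; exact Nat.left_le_pair _ _
  have hεj : ε j < min τ' ((1 - t) / 3) := by
    refine lt_of_le_of_lt ?_ hi
    have : (i : ℝ) ≤ j := by exact_mod_cast hij
    exact one_div_le_one_div_of_le (by positivity) (by linarith)
  have hεj1 : ε j < τ' := hεj.trans_le (min_le_left _ _)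
  have hεj2 : ε j < (1 - t) / 3 := hεj.trans_le (min_le_right _ _)
  have hcr : Crosses T p (τ j (σ j)) := fun h h0 h1 =>
    hcross h h0 (h1.trans ((hτ1 j (σ j)).le.trans hεj1.le))
  obtain ⟨x, hx, y, hy, hxR, hyR, hd, hsl, hηR⟩ := hstep3 j (σ j) p (by rw [hnn, hkk]; exact hk)
    T hcr
  rw [← hσ] at hsl hηR
  change (1 - ε j) ^ 2 * ‖x - y‖ ≤ ‖u (j + 1) x - u (j + 1) y‖ at hsl
  change η (j + 1) * (2 * (1 + R j)) ≤ ε j * ‖x - y‖ at hηR
  have h1 := hUu (j + 1) x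
  have h2 := hUu (j + 1) y
  have h3 : ‖u (j + 1) x - u (j + 1) y‖ ≤ ‖u (j + 1) x - U x‖ + ‖U x - u (j + 1) y‖ :=
    norm_sub_le_norm_sub_add_norm_sub _ _ _
  have h4 : ‖U x - u (j + 1) y‖ ≤ ‖U x - U y‖ + ‖U y - u (j + 1) y‖ :=
    norm_sub_le_norm_sub_add_norm_sub _ _ _
  rw [norm_sub_rev (u (j + 1) x) (U x)] at h3
  have h5 := hlip x hx y hy
  have h6 : η (j + 1) * (1 + ‖x‖) ≤ η (j + 1) * (1 + R j) :=
    mul_le_mul_of_nonneg_left (by linarith) (hη0 (j + 1)).le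
  have h7 : η (j + 1) * (1 + ‖y‖) ≤ η (j + 1) * (1 + R j) :=
    mul_le_mul_of_nonneg_left (by linarith) (hη0 (j + 1)).le
  have h8 : (1 - ε j) ^ 2 * ‖x - y‖ ≤ t * ‖x - y‖ + ε j * ‖x - y‖ := by linarith
  have h9 : (1 - ε j) ^ 2 ≤ t + ε j := by
    rw [← add_mul] at h8
    exact le_of_mul_le_mul_right h8 hd
  have h10 := hε0 j
  nlinarith

end Pool.Agent.Lib.MP_1e31fb_an
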