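import Pool.Agent.Lib.MP_1e31fb_an.Prox

set_option linter.unusedSectionVars false

open Set Metric Topology Filter
open scoped RealInnerProductSpace

namespace Pool.Agent.Lib.MP_1e31fb_an

variable {H₁ H₂ : Type*} [NormedAddCommGroup H₁] [InnerProductSpace ℝ H₁] [CompleteSpace H₁]
  [NormedAddCommGroup H₂] [InnerProductSpace ℝ H₂] [CompleteSpace H₂]

/-- The points at which there is room `ρ`. -/
def Room (F : Set H₁) (f : H₁ → H₂) (ρ : ℝ) : Set H₁ :=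
  {x | ∃ m, ∀ z ∈ F, ‖m - f z‖ ≤ ‖x - z‖ - ρ}

/-- The 1-Lipschitz extensions of `f`. -/
def Ext (F : Set H₁) (f : H₁ → H₂) : Set (H₁ → H₂) :=
  {u | LipOn 1 u univ ∧ ∀ z ∈ F, u z = f z}

theorem room_shift {F : Set H₁} {f : H₁ → H₂} {ρ δ : ℝ} {x y : H₁} (hx : x ∈ Room F f ρ)
    (hxy : ‖x - y‖ ≤ δ) : y ∈ Room F f (ρ - δ) := by
  obtain ⟨m, hm⟩ := hx
  refine ⟨m, fun z hz => (hm z hz).trans ?_⟩
  have : ‖x - z‖ ≤ ‖x - y‖ + ‖y - z‖ := norm_sub_le_norm_sub_add_norm_sub _ _ _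
  linarith

theorem room_mono {F : Set H₁} {f : H₁ → H₂} {ρ ρ' : ℝ} (h : ρ' ≤ ρ) :
    Room F f ρ ⊆ Room F f ρ' := by
  rintro x ⟨m, hm⟩
  exact ⟨m, fun z hz => (hm z hz).trans (by linarith)⟩

/-- Points with room `ρ` have distance at least `ρ` from `F`. -/
theorem room_dist {F : Set H₁} {f : H₁ → H₂} {ρ : ℝ} {x z : H₁} (hx : x ∈ Room F f ρ)
    (hz : z ∈ F) : ρ ≤ ‖x - z‖ := by
  obtain ⟨m, hm⟩ := hx
  have := (norm_nonneg _).trans (hm z hz)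
  linarith

/-- If `u` is `t`-Lipschitz on the boundary of an open set `U`, then there is room in `U` and `u`
can be modified in `U` to become `t`-Lipschitz on the closure of `U`. -/
theorem locking {F : Set H₁} {f : H₁ → H₂} {u : H₁ → H₂} (hu : u ∈ Ext F f) {U : Set H₁}
    (hU : IsOpen U) (hUF : Disjoint U F) {t : ℝ} (ht0 : 0 ≤ t) (ht1 : t < 1)
    (hfr : LipOn t u (frontier U)) :
    (∀ x ∈ U, ∃ ρ > 0, x ∈ Room F f ρ) ∧
    ∃ u' ∈ Ext F f, (∀ x, x ∉ U → u' x = u x) ∧ LipOn t u' (closure U) := by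
  classical
  obtain ⟨v, hv1, hv2⟩ := kirszbraun u ht0 hfr
  have hv1' : LipOn 1 v univ := hv1.mono_const ht1.le
  have hlip : LipOn 1 (fun x => if x ∈ U then v x else u x) univ :=
    lipOn_piecewise hU (hu.1.mono (subset_univ _)) (hv1'.mono (subset_univ _))
      fun x hx => (hv2 x hx).symm
  have hfrU : ∀ w ∈ frontier U, w ∉ U := by
    intro w hw
    rw [hU.frontier_eq] at hw
    exact hw.2
  constructor
  · intro x hx
    obtain ⟨d, hd, hball⟩ := Metric.isOpen_iff.1 hU x hx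
    refine ⟨(1 - t) * d, mul_pos (by linarith) hd, v x, fun z hz => ?_⟩
    have hzU : z ∉ U := fun h => disjoint_left.1 hUF h hz
    obtain ⟨w, hw, hwf⟩ := exists_mem_frontier hx hzU
    have hxw : d ≤ ‖x - w‖ := by
      by_contra hcon
      push Not at hcon
      apply hfrU w hwf
      apply hball
      rw [mem_ball, dist_eq_norm, norm_sub_rev]
      exact hcon
    have h1 := hv1 x (mem_univ _) w (mem_univ _)
    have h2 := hu.1 w (mem_univ _) z (mem_univ _)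
    rw [hu.2 z hz, ← hv2 w hwf] at h2
    have h3 := norm_add_of_mem_segment hw
    have h4 : ‖v x - f z‖ ≤ ‖v x - v w‖ + ‖v w - f z‖ := norm_sub_le_norm_sub_add_norm_sub _ _ _
    have h5 : (1 - t) * d ≤ (1 - t) * ‖x - w‖ := mul_le_mul_of_nonneg_left hxw (by linarith)
    linarith
  · refine ⟨_, ⟨hlip, fun z hz => ?_⟩, fun x hx => if_neg hx, ?_⟩
    · have hzU : z ∉ U := fun h => disjoint_left.1 hUF h hz
      simp only [if_neg hzU]
      exact hu.2 z hz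
    · refine (hv1.mono (subset_univ _)).congr fun x hx => ?_
      by_cases h : x ∈ U
      · simp only [if_pos h]
      · simp only [if_neg h]
        refine (hv2 x ?_).symm
        rw [hU.frontier_eq]
        exact ⟨hx, h⟩

/-- At a point `p` without room, the values on spheres around `p` have variance close to maximal. -/
theorem exists_var {F : Set H₁} {f : H₁ → H₂} {u : H₁ → H₂} (hu : u ∈ Ext F f) {p : H₁}
    {ρ : ℝ} (hρ : 0 < ρ) (hball : ∀ z ∈ F, ρ ≤ ‖p - z‖) (hp : ¬ ∃ ρ' > 0, p ∈ Room F f ρ')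
    {δ : ℝ} (hδ0 : 0 < δ) (hδ : δ < ρ) :
    ∃ l ∈ simplex (sphere p ρ), (ρ - δ) ^ 2 < var (fun y : sphere p ρ => u y) l := by
  by_contra hcon
  push Not at hcon
  have h1 : ∀ l ∈ simplex (sphere p ρ), var (fun y : sphere p ρ => u y) l ≤
      av (fun _ => (ρ - δ) ^ 2) l := by
    intro l hl
    rw [av_const _ hl]
    exact hcon l hl
  obtain ⟨m, hm⟩ := ball_intersection _ _ h1
  apply hp
  refine ⟨δ, hδ0, m, fun z hz => ?_⟩
  have hpz := hball z hz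
  have hzp : 0 < ‖z - p‖ := by
    rw [norm_sub_rev]
    linarith
  let y : H₁ := p + (ρ / ‖z - p‖) • (z - p)
  have hy : y ∈ sphere p ρ := by
    rw [mem_sphere, dist_eq_norm]
    simp only [y, add_sub_cancel_left]
    rw [norm_smul, norm_div, norm_norm, Real.norm_eq_abs, abs_of_pos hρ, div_mul_cancel₀ _ hzp.ne']
  have h2 := hm ⟨y, hy⟩
  have h3 : ‖m - u y‖ ≤ ρ - δ := le_of_sq_le_sq h2 (by linarith)
  have h4 : ‖y - z‖ = ‖p - z‖ - ρ := by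
    have h5 : y - z = (1 - ρ / ‖z - p‖) • (p - z) := by
      simp only [y]
      rw [norm_sub_rev]
      module
    rw [h5, norm_smul, Real.norm_eq_abs, abs_of_nonneg, norm_sub_rev z p]
    · rw [sub_mul, div_mul_cancel₀ _ (by rw [norm_sub_rev]; exact hzp.ne'), one_mul]
    · rw [sub_nonneg, div_le_one hzp, norm_sub_rev]
      exact hpz
  have h6 := hu.1 y (mem_univ _) z (mem_univ _)
  rw [hu.2 z hz, one_mul, h4] at h6
  have h7 : ‖m - f z‖ ≤ ‖m - u y‖ + ‖u y - f z‖ := norm_sub_le_norm_sub_add_norm_sub _ _ _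
  linarith

/-- A chord computation in a ball. -/
theorem chord {x₀ ν e : H₁} (hν : ‖ν‖ = 1) (he : ‖e‖ = 1) {r s B : ℝ} (hr : 0 ≤ r)
    (hB2 : B ^ 2 = 2 * r * s - s ^ 2) :
    x₀ - (r - s) • ν + ((r - s) * ⟪ν, e⟫ + B) • e ∈ closedBall x₀ r := by
  rw [mem_closedBall, dist_eq_norm]
  apply le_of_sq_le_sq _ hr
  obtain ⟨c, hc⟩ : ∃ c, c = ⟪ν, e⟫ := ⟨_, rfl⟩
  rw [← hc]
  have h3 : x₀ - (r - s) • ν + ((r - s) * c + B) • e - x₀ =
      ((r - s) * c + B) • e - (r - s) • ν := by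
    abel
  rw [h3, norm_sub_sq_real, inner_smul_left, inner_smul_right, norm_smul, norm_smul, he, hν,
    mul_one, mul_one, Real.norm_eq_abs, Real.norm_eq_abs, sq_abs, sq_abs]
  have h4 : ⟪e, ν⟫ = c := by rw [hc]; exact real_inner_comm _ _
  rw [h4]
  simp only [conj_trivial]
  have h6 : ((r - s) * c + B) ^ 2 - 2 * (((r - s) * c + B) * ((r - s) * c)) + (r - s) ^ 2 =
      r ^ 2 - ((r - s) * c) ^ 2 := by
    have : ((r - s) * c + B) ^ 2 - 2 * (((r - s) * c + B) * ((r - s) * c)) + (r - s) ^ 2 =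
      B ^ 2 - ((r - s) * c) ^ 2 + (r - s) ^ 2 := by ring
    rw [this, hB2]
    ring
  rw [h6]
  have := sq_nonneg ((r - s) * c)
  linarith

/-- The gain along a ray leaving the ball. -/
theorem ray_gain {u : H₁ → H₂} (hu : LipOn 1 u univ) {t : ℝ} (ht1 : t < 1) {x₀ ν : H₁}
    (hν : ‖ν‖ = 1) {r s B : ℝ} (hr : 0 < r) (hs0 : 0 < s) (hsr : s ≤ r) (hB0 : 0 ≤ B)
    (hB2 : B ^ 2 = 2 * r * s - s ^ 2) (hBr : B ≤ r) (hlip : LipOn t u (closedBall x₀ r))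
    {y : H₁} (hy : 2 * r ≤ ‖y - (x₀ - (r - s) • ν)‖) :
    (1 - t) * ((r - s) * ⟪ν, y - (x₀ - (r - s) • ν)⟫ + B * ‖y - (x₀ - (r - s) • ν)‖) ≤
      ‖y - (x₀ - (r - s) • ν)‖ ^ 2 - ‖u y - u (x₀ - (r - s) • ν)‖ ^ 2 := by
  have h1t : 0 < 1 - t := by linarith
  obtain ⟨x₁, hx₁⟩ : ∃ x₁, x₁ = x₀ - (r - s) • ν := ⟨_, rfl⟩
  have hch : ∀ e : H₁, ‖e‖ = 1 → x₁ + ((r - s) * ⟪ν, e⟫ + B) • e ∈ closedBall x₀ r := by
    intro e he
    rw [hx₁]
    exact chord hν he hr.le hB2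
  have hx₁mem : x₁ ∈ closedBall x₀ r := by
    rw [mem_closedBall, dist_eq_norm, hx₁]
    have : x₀ - (r - s) • ν - x₀ = -((r - s) • ν) := by abel
    rw [this, norm_neg, norm_smul, hν, mul_one, Real.norm_eq_abs, abs_of_nonneg (by linarith)]
    linarith
  rw [← hx₁] at hy ⊢
  obtain ⟨a, ha⟩ : ∃ a, a = ‖y - x₁‖ := ⟨_, rfl⟩
  have ha0 : 0 < a := by rw [ha]; linarith
  rw [← ha] at hy ⊢
  obtain ⟨e, he_def⟩ : ∃ e : H₁, e = a⁻¹ • (y - x₁) := ⟨_, rfl⟩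
  have he : ‖e‖ = 1 := by
    rw [he_def, norm_smul, norm_inv, Real.norm_eq_abs, abs_of_pos ha0, ← ha,
      inv_mul_cancel₀ ha0.ne']
  have hye : y - x₁ = a • e := by
    rw [he_def, smul_smul, mul_inv_cancel₀ ha0.ne', one_smul]
  have hch' := hch e he
  obtain ⟨c, hc⟩ : ∃ c : ℝ, c = ⟪ν, e⟫ := ⟨_, rfl⟩
  rw [← hc] at hch'
  have hc1 : c ≤ 1 := by
    have := real_inner_le_norm ν e
    rw [hν, he, ← hc] at this
    simpa using this
  have hin : ⟪ν, y - x₁⟫ = a * c := by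
    rw [hye, inner_smul_right, hc]
  obtain ⟨ℓ, hℓd⟩ : ∃ ℓ : ℝ, ℓ = (r - s) * c + B := ⟨_, rfl⟩
  rw [← hℓd] at hch'
  have hgoal : (1 - t) * ((r - s) * ⟪ν, y - x₁⟫ + B * a) = (1 - t) * ℓ * a := by
    rw [hin, hℓd]
    ring
  rw [hgoal]
  have hux : ‖u y - u x₁‖ ≤ a := by
    have := hu y (mem_univ _) x₁ (mem_univ _)
    rw [one_mul, ← ha] at this
    exact this
  have hux0 : 0 ≤ ‖u y - u x₁‖ := norm_nonneg _
  by_cases hℓ : ℓ ≤ 0
  · have h3 : (1 - t) * ℓ * a ≤ 0 := by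
      have : (1 - t) * ℓ ≤ 0 := mul_nonpos_of_nonneg_of_nonpos h1t.le hℓ
      exact mul_nonpos_of_nonpos_of_nonneg this ha0.le
    have h4 : ‖u y - u x₁‖ ^ 2 ≤ a ^ 2 := by gcongr
    linarith
  · push Not at hℓ
    obtain ⟨q, hq_def⟩ : ∃ q : H₁, q = x₁ + ℓ • e := ⟨_, rfl⟩
    rw [← hq_def] at hch'
    have hℓa : ℓ ≤ a := by
      have : (r - s) * c ≤ (r - s) * 1 := mul_le_mul_of_nonneg_left hc1 (by linarith)
      rw [hℓd]
      linarith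
    have hqx : ‖q - x₁‖ = ℓ := by
      rw [hq_def, add_sub_cancel_left, norm_smul, he, mul_one, Real.norm_eq_abs, abs_of_pos hℓ]
    have hyq : ‖y - q‖ = a - ℓ := by
      have : y - q = (a - ℓ) • e := by
        have h' : y - q = (y - x₁) - ℓ • e := by rw [hq_def]; abel
        rw [h', hye, ← sub_smul]
      rw [this, norm_smul, he, mul_one, Real.norm_eq_abs, abs_of_nonneg (by linarith)]
    have h3 := hlip q hch' x₁ hx₁mem
    have h4 := hu y (mem_univ _) q (mem_univ _)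
    rw [hqx] at h3
    rw [one_mul, hyq] at h4
    have h5 : ‖u y - u x₁‖ ≤ ‖u y - u q‖ + ‖u q - u x₁‖ := norm_sub_le_norm_sub_add_norm_sub _ _ _
    have h6 : (1 - t) * ℓ ≤ a - ‖u y - u x₁‖ := by linarith
    have h7 : 0 ≤ (1 - t) * ℓ := by positivity
    have h8 : (1 - t) * ℓ * a ≤ (a - ‖u y - u x₁‖) * (a + ‖u y - u x₁‖) := by
      apply mul_le_mul h6 (by linarith) ha0.le (by linarith)
    linarith

/-- The averaged inequality. -/
theorem avg_gain {F : Set H₁} {f : H₁ → H₂} {u : H₁ → H₂} (hu : u ∈ Ext F f) {t : ℝ}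
    (ht1 : t < 1) {x₀ ν p : H₁} (hν : ‖ν‖ = 1) {r s B ρ : ℝ} (hr : 0 < r) (hs0 : 0 < s)
    (hsr : s ≤ r) (hB0 : 0 ≤ B) (hB2 : B ^ 2 = 2 * r * s - s ^ 2) (hBr : B ≤ r)
    (hlip : LipOn t u (closedBall x₀ r)) (hrρ : r ≤ ρ / 8)
    (hball : ∀ z ∈ F, ρ ≤ ‖p - z‖) (hp : ¬ ∃ ρ' > 0, p ∈ Room F f ρ')
    (hxp : ‖x₀ - (r - s) • ν - p‖ ≤ 2 * s) {η : ℝ} (hη0 : 0 < η) (hηρ : η < ρ) :
    (1 - t) * (B * (ρ - 2 * s) - r * (η + 2 * s)) ≤ (η + 2 * s) ^ 2 + η ^ 2 := by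
  have hρ : 0 < ρ := by linarith
  have h1t : 0 < 1 - t := by linarith
  have hδ0 : 0 < η ^ 2 / (2 * ρ) := by positivity
  have hδρ : η ^ 2 / (2 * ρ) < ρ := by
    rw [div_lt_iff₀ (by positivity)]
    nlinarith
  obtain ⟨l, hl, hvar⟩ := exists_var hu hρ hball hp hδ0 hδρ
  obtain ⟨δ, hδ⟩ : ∃ δ, δ = η ^ 2 / (2 * ρ) := ⟨_, rfl⟩
  rw [← hδ] at hvar hδ0 hδρ
  have hδη : 2 * ρ * δ = η ^ 2 := by
    rw [hδ]
    field_simp
  have hpt : ∀ y : sphere p ρ, (1 - t) * ((r - s) * ⟪ν, (y : H₁) - (x₀ - (r - s) • ν)⟫ +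
      B * ‖(y : H₁) - (x₀ - (r - s) • ν)‖) ≤
      ‖(y : H₁) - (x₀ - (r - s) • ν)‖ ^ 2 - ‖u y - u (x₀ - (r - s) • ν)‖ ^ 2 := by
    intro y
    refine ray_gain hu.1 ht1 hν hr hs0 hsr hB0 hB2 hBr hlip ?_
    have h3 := y.2
    rw [mem_sphere, dist_eq_norm] at h3
    have : ‖(y : H₁) - p‖ ≤ ‖(y : H₁) - (x₀ - (r - s) • ν)‖ + ‖x₀ - (r - s) • ν - p‖ :=
      norm_sub_le_norm_sub_add_norm_sub _ _ _
    linarith
  obtain ⟨x₁, hx₁⟩ : ∃ x₁, x₁ = x₀ - (r - s) • ν := ⟨_, rfl⟩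
  rw [← hx₁] at hpt hxp
  obtain ⟨b, hb⟩ : ∃ b : H₁, b = av (fun y : sphere p ρ => (y : H₁)) l := ⟨_, rfl⟩
  have hv1 : var (fun y : sphere p ρ => (y : H₁)) l = ρ ^ 2 - ‖b - p‖ ^ 2 := by
    have h3 := av_norm_sub_sq (fun y : sphere p ρ => (y : H₁)) hl p
    have h4 : (fun y : sphere p ρ => ‖(y : H₁) - p‖ ^ 2) = fun _ => ρ ^ 2 := by
      funext y
      have := y.2
      rw [mem_sphere, dist_eq_norm] at this
      rw [this]
    rw [h4, av_const _ hl, ← hb] at h3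
    linarith
  have hv2 : var (fun y : sphere p ρ => u y) l ≤ var (fun y : sphere p ρ => (y : H₁)) l := by
    refine var_le_var hl fun i j => ?_
    have := hu.1 i (mem_univ _) j (mem_univ _)
    rwa [one_mul] at this
  have hbp2 : ‖b - p‖ ^ 2 ≤ η ^ 2 := by
    have : (ρ - δ) ^ 2 = ρ ^ 2 - 2 * ρ * δ + δ ^ 2 := by ring
    have := sq_nonneg δ
    linarith
  have hbp : ‖b - p‖ ≤ η := le_of_sq_le_sq hbp2 hη0.le
  have hbx : ‖b - x₁‖ ≤ η + 2 * s := by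
    have : ‖b - x₁‖ ≤ ‖b - p‖ + ‖p - x₁‖ := norm_sub_le_norm_sub_add_norm_sub _ _ _
    rw [norm_sub_rev p x₁] at this
    linarith
  have hbx2 : ‖b - x₁‖ ^ 2 ≤ (η + 2 * s) ^ 2 := by gcongr
  have hD1 : av (fun y : sphere p ρ => ‖(y : H₁) - x₁‖ ^ 2 - ‖u y - u x₁‖ ^ 2) l ≤
      (η + 2 * s) ^ 2 + η ^ 2 := by
    rw [av_sub, av_norm_sub_sq _ hl, av_norm_sub_sq _ hl, hv1, ← hb]
    have : (ρ - δ) ^ 2 = ρ ^ 2 - 2 * ρ * δ + δ ^ 2 := by ring
    have h3 := sq_nonneg δ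
    have h4 := sq_nonneg ‖b - p‖
    have h5 := sq_nonneg ‖av (fun y : sphere p ρ => u y) l - u x₁‖
    linarith
  have hD2 := av_mono hl hpt
  have hD3 : av (fun y : sphere p ρ => (1 - t) * ((r - s) * ⟪ν, (y : H₁) - x₁⟫ +
      B * ‖(y : H₁) - x₁‖)) l = (1 - t) * ((r - s) * ⟪ν, b - x₁⟫ +
      B * av (fun y : sphere p ρ => ‖(y : H₁) - x₁‖) l) := by
    rw [av_const_mul, av_add, av_const_mul, av_const_mul, av_inner, av_sub, av_const _ hl, hb]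
  have hD4 : ρ - 2 * s ≤ av (fun y : sphere p ρ => ‖(y : H₁) - x₁‖) l := by
    have := av_mono (v := fun _ => ρ - 2 * s) (w := fun y : sphere p ρ => ‖(y : H₁) - x₁‖) hl
      (fun y => by
        have h3 := y.2
        rw [mem_sphere, dist_eq_norm] at h3
        have : ‖(y : H₁) - p‖ ≤ ‖(y : H₁) - x₁‖ + ‖x₁ - p‖ :=
          norm_sub_le_norm_sub_add_norm_sub _ _ _
        linarith)
    rwa [av_const _ hl] at this
  have hD5 : -(η + 2 * s) ≤ ⟪ν, b - x₁⟫ := by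
    have h3 := abs_real_inner_le_norm ν (b - x₁)
    rw [hν, one_mul] at h3
    have h4 := neg_abs_le ⟪ν, b - x₁⟫
    linarith
  refine le_trans ?_ ((hD3.symm.le.trans hD2).trans hD1)
  apply mul_le_mul_of_nonneg_left _ h1t.le
  have h6 : (r - s) * (-(η + 2 * s)) ≤ (r - s) * ⟪ν, b - x₁⟫ :=
    mul_le_mul_of_nonneg_left hD5 (by linarith)
  have h7 : B * (ρ - 2 * s) ≤ B * av (fun y : sphere p ρ => ‖(y : H₁) - x₁‖) l :=
    mul_le_mul_of_nonneg_left hD4 hB0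
  have h8 : 0 ≤ s * (η + 2 * s) := by positivity
  linarith

/-- The interior ball lemma. -/
theorem interior_ball {F : Set H₁} {f : H₁ → H₂} {u : H₁ → H₂} (hu : u ∈ Ext F f) {t : ℝ}
    (ht1 : t < 1) {x₀ p : H₁} {r ρ s : ℝ} (hr : 0 < r) (hrρ : r ≤ ρ / 8)
    (hs : s = min r ((1 - t) * ρ / 32)) (hball : ∀ z ∈ F, ρ ≤ ‖p - z‖)
    (hp : ¬ ∃ ρ' > 0, p ∈ Room F f ρ') (h1 : r ≤ ‖x₀ - p‖) (h2 : ‖x₀ - p‖ ≤ r + s)
    (hlip : LipOn t u (ball x₀ r)) : False := by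
  have hρ : 0 < ρ := by linarith
  have h1t : 0 < 1 - t := by linarith
  have hs0 : 0 < s := by
    rw [hs]
    exact lt_min hr (by positivity)
  have hsr : s ≤ r := by rw [hs]; exact min_le_left _ _
  have hst : s ≤ (1 - t) * ρ / 32 := by rw [hs]; exact min_le_right _ _
  have hcont : Continuous u := hu.1.continuous
  have hlip' : LipOn t u (closedBall x₀ r) := by
    have := hlip.closure hcont
    rwa [closure_ball x₀ hr.ne'] at this
  have hd : 0 < ‖x₀ - p‖ := by linarith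
  obtain ⟨d, hd_def⟩ : ∃ d, d = ‖x₀ - p‖ := ⟨_, rfl⟩
  rw [← hd_def] at h1 h2 hd
  obtain ⟨ν, hν_def⟩ : ∃ ν : H₁, ν = d⁻¹ • (x₀ - p) := ⟨_, rfl⟩
  have hν : ‖ν‖ = 1 := by
    rw [hν_def, norm_smul, norm_inv, Real.norm_eq_abs, abs_of_pos hd, ← hd_def,
      inv_mul_cancel₀ hd.ne']
  have hx₁p : ‖x₀ - (r - s) • ν - p‖ ≤ 2 * s := by
    have : x₀ - (r - s) • ν - p = (d - (r - s)) • ν := by
      have h : x₀ - p = d • ν := by
        rw [hν_def, smul_smul, mul_inv_cancel₀ hd.ne', one_smul]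
      have h' : x₀ - (r - s) • ν - p = (x₀ - p) - (r - s) • ν := by abel
      rw [h', h, ← sub_smul]
    rw [this, norm_smul, hν, mul_one, Real.norm_eq_abs, abs_of_nonneg (by linarith)]
    linarith
  obtain ⟨B, hB0, hB2⟩ : ∃ B : ℝ, 0 ≤ B ∧ B ^ 2 = 2 * r * s - s ^ 2 := by
    refine ⟨√(2 * r * s - s ^ 2), Real.sqrt_nonneg _, Real.sq_sqrt ?_⟩
    nlinarith
  have hBs : s ≤ B := by
    apply le_of_sq_le_sq _ hB0
    nlinarith
  have hBr : B ≤ r := by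
    apply le_of_sq_le_sq _ hr.le
    nlinarith [sq_nonneg (r - s)]
  have key : ∀ η : ℝ, 0 < η → η < ρ →
      (1 - t) * (B * (ρ - 2 * s) - r * (η + 2 * s)) ≤ (η + 2 * s) ^ 2 + η ^ 2 := fun η h0 h1 =>
    avg_gain hu ht1 hν hr hs0 hsr hB0 hB2 hBr hlip' hrρ hball hp hx₁p h0 h1
  -- the limit `η → 0`
  have hlim : (1 - t) * (B * (ρ - 2 * s) - r * (0 + 2 * s)) ≤ (0 + 2 * s) ^ 2 + (0 : ℝ) ^ 2 := by
    have hc1 : Tendsto (fun η : ℝ => (1 - t) * (B * (ρ - 2 * s) - r * (η + 2 * s))) (𝓝[>] 0)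
        (𝓝 ((1 - t) * (B * (ρ - 2 * s) - r * (0 + 2 * s)))) := by
      apply Tendsto.mono_left _ nhdsWithin_le_nhds
      apply Continuous.tendsto
      fun_prop
    have hc2 : Tendsto (fun η : ℝ => (η + 2 * s) ^ 2 + η ^ 2) (𝓝[>] 0)
        (𝓝 ((0 + 2 * s) ^ 2 + (0 : ℝ) ^ 2)) := by
      apply Tendsto.mono_left _ nhdsWithin_le_nhds
      apply Continuous.tendsto
      fun_prop
    refine le_of_tendsto_of_tendsto hc1 hc2 ?_
    have h3 : ∀ᶠ η in 𝓝[>] (0 : ℝ), η < ρ := nhdsWithin_le_nhds (gt_mem_nhds hρ)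
    filter_upwards [h3, self_mem_nhdsWithin] with η hη1 hη0
    exact key η hη0 hη1
  -- contradiction
  have hrs : r * s ≤ B * B := by nlinarith
  have hBB : B * B ≤ B * r := mul_le_mul_of_nonneg_left hBr hB0
  have hBρ : B * (s + r) ≤ B * (ρ / 4) := mul_le_mul_of_nonneg_left (by linarith) hB0
  have hsρ : s * ρ ≤ B * ρ := mul_le_mul_of_nonneg_right hBs hρ.le
  have h3 : s * (ρ / 2) ≤ B * (ρ - 2 * s) - r * (0 + 2 * s) := by
    linarith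
  have h4 : (1 - t) * (s * (ρ / 2)) ≤ (0 + 2 * s) ^ 2 + (0 : ℝ) ^ 2 :=
    (mul_le_mul_of_nonneg_left h3 h1t.le).trans hlim
  have h5 : s * s ≤ s * ((1 - t) * ρ / 32) := mul_le_mul_of_nonneg_left hst hs0.le
  have h6 : 0 < (1 - t) * s * ρ := by positivity
  linarith

end Pool.Agent.Lib.MP_1e31fb_an
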