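import Pool.Agent.Lib.MP_1e31fb_an.Sep

set_option linter.unusedSectionVars false

open Set Metric Topology Filter
open scoped RealInnerProductSpace

namespace Pool.Agent.Lib.MP_1e31fb_an

variable {H₁ : Type*} [NormedAddCommGroup H₁] [InnerProductSpace ℝ H₁]

/-- In dimension at least two there are unit vectors orthogonal to a given vector. -/
theorem exists_nu {k : ℕ} (hk : 2 ≤ k) (δ : Fin k → ℝ) :
    ∃ ν : Fin k → ℝ, ∑ i, ν i ^ 2 = 1 ∧ ∑ i, δ i * ν i = 0 := by
  classical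
  let i₀ : Fin k := ⟨0, by omega⟩
  let i₁ : Fin k := ⟨1, by omega⟩
  have h01 : i₀ ≠ i₁ := by
    intro h
    have := congrArg Fin.val h
    simp [i₀, i₁] at this
  by_cases h : δ i₀ = 0
  · refine ⟨fun i => if i = i₀ then 1 else 0, ?_, ?_⟩
    · simp
    · simp [h]
  · obtain ⟨r, hr⟩ : ∃ r, r = √(δ i₀ ^ 2 + δ i₁ ^ 2) := ⟨_, rfl⟩
    have hpos : 0 < δ i₀ ^ 2 + δ i₁ ^ 2 := by
      have := sq_nonneg (δ i₁)
      have := pow_pos (abs_pos.2 h) 2
      rw [sq_abs] at this
      linarith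
    have hr0 : 0 < r := by rw [hr]; exact Real.sqrt_pos.2 hpos
    have hr2 : r ^ 2 = δ i₀ ^ 2 + δ i₁ ^ 2 := by rw [hr]; exact Real.sq_sqrt hpos.le
    refine ⟨fun i => if i = i₀ then δ i₁ / r else if i = i₁ then - δ i₀ / r else 0, ?_, ?_⟩
    · have h1 : ∀ i, (if i = i₀ then δ i₁ / r else if i = i₁ then - δ i₀ / r else 0) ^ 2 =
          (if i = i₀ then (δ i₁ / r) ^ 2 else 0) + (if i = i₁ then (δ i₀ / r) ^ 2 else 0) := by
        intro i
        by_cases ha : i = i₀
        · subst ha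
          simp [h01]
        · by_cases hb : i = i₁
          · subst hb
            simp [Ne.symm h01, neg_div]
          · simp [ha, hb]
      simp only [h1]
      rw [Finset.sum_add_distrib, Finset.sum_ite_eq', Finset.sum_ite_eq']
      simp only [Finset.mem_univ, if_true]
      rw [div_pow, div_pow, hr2]
      field_simp
      ring
    · have h1 : ∀ i, δ i * (if i = i₀ then δ i₁ / r else if i = i₁ then - δ i₀ / r else 0) =
          (if i = i₀ then δ i₀ * (δ i₁ / r) else 0) +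
          (if i = i₁ then δ i₁ * (- δ i₀ / r) else 0) := by
        intro i
        by_cases ha : i = i₀
        · subst ha
          simp [h01]
        · by_cases hb : i = i₁
          · subst hb
            simp [Ne.symm h01]
          · simp [ha, hb]
      simp only [h1]
      rw [Finset.sum_add_distrib, Finset.sum_ite_eq', Finset.sum_ite_eq']
      simp only [Finset.mem_univ, if_true]
      ring

/-- Positive functions on finite sets have positive lower bounds. -/
theorem exists_pos_le {ι : Type*} (F : Finset ι) (g : ι → ℝ) (hg : ∀ δ ∈ F, 0 < g δ) :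
    ∃ ε > 0, ∀ δ ∈ F, ε ≤ g δ := by
  classical
  induction F using Finset.induction_on with
  | empty => exact ⟨1, one_pos, by simp⟩
  | insert a F _ ih =>
    obtain ⟨ε, hε, h⟩ := ih fun δ hδ => hg δ (Finset.mem_insert_of_mem hδ)
    refine ⟨min ε (g a), lt_min hε (hg a (Finset.mem_insert_self _ _)), fun δ hδ => ?_⟩
    rcases Finset.mem_insert.1 hδ with rfl | hδ
    · exact min_le_right _ _
    · exact (min_le_left _ _).trans (h δ hδ)

theorem sign_of_close {q c : ℝ} (h : |q - c| < |c|) : 0 < q * c := by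
  rcases lt_trichotomy c 0 with hc | hc | hc
  · rw [abs_of_neg hc, abs_lt] at h
    exact mul_pos_of_neg_of_neg (by linarith [h.2]) hc
  · rw [hc, abs_zero] at h
    exact absurd h (not_lt.2 (abs_nonneg _))
  · rw [abs_of_pos hc, abs_lt] at h
    exact mul_pos (by linarith [h.1]) hc

theorem sign_trans {a b c : ℝ} (h1 : 0 < a * b) (h2 : 0 < b * c) : 0 < a * c := by
  have h3 : 0 < (a * b) * (b * c) := mul_pos h1 h2
  have h4 : (a * b) * (b * c) = (a * c) * b ^ 2 := by ring
  rw [h4] at h3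
  by_contra h5
  push Not at h5
  have := mul_nonpos_of_nonpos_of_nonneg h5 (sq_nonneg b)
  linarith

section Comb

variable {ι : Type*} [LinearOrder ι] (b : ι → H₁)

/-- Combinations of basis vectors. -/
def vec (F : Finset ι) (c : ι → ℝ) : H₁ := ∑ δ ∈ F, c δ • b δ

theorem vec_add (F : Finset ι) (c d : ι → ℝ) : vec b F (fun δ => c δ + d δ) =
    vec b F c + vec b F d := by
  simp [vec, add_smul, Finset.sum_add_distrib]

theorem vec_sub (F : Finset ι) (c d : ι → ℝ) : vec b F (fun δ => c δ - d δ) =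
    vec b F c - vec b F d := by
  simp [vec, sub_smul, Finset.sum_sub_distrib]

theorem vec_smul (F : Finset ι) (s : ℝ) (c : ι → ℝ) : vec b F (fun δ => s * c δ) =
    s • vec b F c := by
  simp [vec, mul_smul, Finset.smul_sum]

theorem vec_congr {F : Finset ι} {c d : ι → ℝ} (h : ∀ δ ∈ F, c δ = d δ) :
    vec b F c = vec b F d :=
  Finset.sum_congr rfl fun δ hδ => by rw [h δ hδ]

variable {b} (hb : Orthonormal ℝ b)
include hb

theorem inner_vec (F : Finset ι) (c : ι → ℝ) {δ : ι} (hδ : δ ∈ F) : ⟪b δ, vec b F c⟫ = c δ := by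
  unfold vec
  rw [inner_sum]
  simp only [inner_smul_right, orthonormal_iff_ite.1 hb]
  rw [Finset.sum_eq_single δ]
  · simp
  · intro j _ hj
    simp [Ne.symm hj]
  · exact fun h => absurd hδ h

theorem norm_sq_vec (F : Finset ι) (c : ι → ℝ) : ‖vec b F c‖ ^ 2 = ∑ δ ∈ F, c δ ^ 2 := by
  rw [← real_inner_self_eq_norm_sq]
  conv_lhs => rw [vec]
  rw [sum_inner]
  refine Finset.sum_congr rfl fun δ hδ => ?_
  rw [inner_smul_left]
  change c δ * ⟪b δ, vec b F c⟫ = _
  rw [inner_vec hb F c hδ]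
  ring

theorem abs_coord_le (F : Finset ι) (c : ι → ℝ) {δ : ι} (hδ : δ ∈ F) : |c δ| ≤ ‖vec b F c‖ := by
  rw [← inner_vec hb F c hδ]
  have h1 := abs_real_inner_le_norm (b δ) (vec b F c)
  rw [hb.1 δ, one_mul] at h1
  exact h1

theorem vec_close {F : Finset ι} {c d : ι → ℝ} {ε : ℝ} (h : ∀ δ ∈ F, |c δ - d δ| ≤ ε) :
    ‖vec b F c - vec b F d‖ ≤ F.card * ε := by
  rw [← vec_sub]
  unfold vec
  refine (norm_sum_le _ _).trans ?_
  have : ∀ δ ∈ F, ‖(c δ - d δ) • b δ‖ ≤ ε := by
    intro δ hδ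
    rw [norm_smul, hb.1 δ, mul_one, Real.norm_eq_abs]
    exact h δ hδ
  refine (Finset.sum_le_sum this).trans ?_
  simp

theorem vec_ball {O : Set H₁} (hO : IsOpen O) {F : Finset ι} {c : ι → ℝ} (hc : vec b F c ∈ O) :
    ∃ η > 0, ∀ d : ι → ℝ, (∀ δ ∈ F, |d δ - c δ| < η) → vec b F d ∈ O := by
  obtain ⟨r, hr, hball⟩ := Metric.isOpen_iff.1 hO _ hc
  refine ⟨r / (F.card + 1), by positivity, fun d hd => hball ?_⟩
  rw [mem_ball, dist_eq_norm]
  refine lt_of_le_of_lt (vec_close hb fun δ hδ => (hd δ hδ).le) ?_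
  rw [mul_div_assoc', div_lt_iff₀ (by positivity)]
  nlinarith

/-- The system of types. -/
theorem exists_system : ∃ (P : ℕ → Set (H₁ × H₁ × H₁)) (len m : ℕ → ℝ),
    (∀ n, GoodFam (P n) (len n) (m n)) ∧ ∀ (F : Finset ι) (c d : ι → ℚ), 2 ≤ F.card →
      (∀ δ ∈ F, 0 < c δ * d δ) → (∃ δ ∈ F, c δ ≠ d δ) → ∃ n, ∃ ν : ι → ℝ,
      (vec b F (fun δ => (c δ : ℝ)), vec b F (fun δ => (d δ : ℝ)), vec b F ν) ∈ P n := by
  classical
  let T := Σ k : ℕ, (Fin k → ℚ) × (Fin k → ℚ)
  have hT : Nonempty T := ⟨⟨0, fun _ => 0, fun _ => 0⟩⟩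
  obtain ⟨e, he⟩ := exists_surjective_nat T
  have hν : ∀ τ : T, ∃ ν : Fin τ.1 → ℝ, 2 ≤ τ.1 → ∑ i, ν i ^ 2 = 1 ∧
      ∑ i, ((τ.2.2 i : ℝ) - τ.2.1 i) * ν i = 0 := by
    intro τ
    by_cases h : 2 ≤ τ.1
    · obtain ⟨ν, hν⟩ := exists_nu h (fun i => ((τ.2.2 i : ℝ) - τ.2.1 i))
      exact ⟨ν, fun _ => hν⟩
    · exact ⟨0, fun h' => absurd h' h⟩
  choose ν hν using hν
  let good : T → Prop := fun τ => 2 ≤ τ.1 ∧ (∀ i, 0 < τ.2.1 i * τ.2.2 i) ∧ ∃ i, τ.2.1 i ≠ τ.2.2 i
  let comb : ∀ {k : ℕ}, (Fin k ↪o ι) → (Fin k → ℝ) → H₁ := fun γ c => ∑ i, c i • b (γ i)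
  let fam : T → Set (H₁ × H₁ × H₁) := fun τ => {p | good τ ∧ ∃ γ : Fin τ.1 ↪o ι,
    p = (comb γ (fun i => (τ.2.1 i : ℝ)), comb γ (fun i => (τ.2.2 i : ℝ)), comb γ (ν τ))}
  have hbγ : ∀ {k : ℕ} (γ : Fin k ↪o ι), Orthonormal ℝ (fun i => b (γ i)) := fun γ =>
    hb.comp _ γ.injective
  have hinner : ∀ {k : ℕ} (γ : Fin k ↪o ι) (c : Fin k → ℝ) (i : Fin k),
      ⟪b (γ i), comb γ c⟫ = c i := by
    intro k γ c i
    simp only [comb]
    rw [inner_sum]
    simp only [inner_smul_right, orthonormal_iff_ite.1 (hbγ γ)]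
    simp
  have hinner0 : ∀ {k : ℕ} (γ : Fin k ↪o ι) (c : Fin k → ℝ) (δ : ι), δ ∉ range γ →
      ⟪b δ, comb γ c⟫ = 0 := by
    intro k γ c δ hδ
    simp only [comb]
    rw [inner_sum]
    refine Finset.sum_eq_zero fun i _ => ?_
    rw [inner_smul_right, orthonormal_iff_ite.1 hb, if_neg, mul_zero]
    rintro rfl
    exact hδ ⟨i, rfl⟩
  have hcc : ∀ {k : ℕ} (γ : Fin k ↪o ι) (c d : Fin k → ℝ), ⟪comb γ c, comb γ d⟫ =
      ∑ i, c i * d i := by
    intro k γ c d
    conv_lhs => simp only [comb]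
    rw [sum_inner]
    refine Finset.sum_congr rfl fun i _ => ?_
    rw [inner_smul_left]
    change c i * ⟪b (γ i), comb γ d⟫ = _
    rw [hinner]
  have hsub : ∀ {k : ℕ} (γ : Fin k ↪o ι) (c d : Fin k → ℝ), comb γ c - comb γ d =
      comb γ (fun i => c i - d i) := by
    intro k γ c d
    simp [comb, sub_smul, Finset.sum_sub_distrib]
  have hconv : ∀ {k : ℕ} (γ : Fin k ↪o ι) (s t : ℝ) (c d : Fin k → ℝ),
      s • comb γ c + t • comb γ d = comb γ (fun i => s * c i + t * d i) := by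
    intro k γ s t c d
    simp [comb, add_smul, mul_smul, Finset.sum_add_distrib, Finset.smul_sum]
  let len : T → ℝ := fun τ => if good τ then √(∑ i, ((τ.2.2 i : ℝ) - τ.2.1 i) ^ 2) else 1
  have hm : ∀ τ : T, ∃ m : ℝ, 0 < m ∧ (good τ → ∀ i, m ≤ |(τ.2.1 i : ℝ)| ∧
      m ≤ |(τ.2.2 i : ℝ)|) := by
    intro τ
    by_cases h : good τ
    · have h1 : ∀ i ∈ (Finset.univ : Finset (Fin τ.1)),
          0 < min |(τ.2.1 i : ℝ)| |(τ.2.2 i : ℝ)| := by
        intro i _
        have := h.2.1 i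
        apply lt_min
        · apply abs_pos.2
          intro h'
          have hz : τ.2.1 i = 0 := by exact_mod_cast h'
          rw [hz, zero_mul] at this
          exact lt_irrefl _ this
        · apply abs_pos.2
          intro h'
          have hz : τ.2.2 i = 0 := by exact_mod_cast h'
          rw [hz, mul_zero] at this
          exact lt_irrefl _ this
      obtain ⟨m, hm0, hm⟩ := exists_pos_le _ _ h1
      exact ⟨m, hm0, fun _ i => ⟨(hm i (Finset.mem_univ i)).trans (min_le_left _ _),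
        (hm i (Finset.mem_univ i)).trans (min_le_right _ _)⟩⟩
    · exact ⟨1, one_pos, fun h' => absurd h' h⟩
  choose m hm0 hm using hm
  refine ⟨fun n => fam (e n), fun n => len (e n), fun n => m (e n), ?_, ?_⟩
  · intro n
    change GoodFam (fam (e n)) (len (e n)) (m (e n))
    obtain ⟨τ, hτ⟩ : ∃ τ, τ = e n := ⟨_, rfl⟩
    rw [← hτ]
    refine ⟨?_, hm0 τ, ?_, ?_, ?_, ?_⟩
    · by_cases h : good τ
      · simp only [len, if_pos h]
        apply Real.sqrt_pos.2
        obtain ⟨i, hi⟩ := h.2.2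
        refine Finset.sum_pos' (fun i _ => sq_nonneg _) ⟨i, Finset.mem_univ i, ?_⟩
        have hne : ((τ.2.2 i : ℝ) - τ.2.1 i) ≠ 0 := by
          rw [sub_ne_zero]
          exact_mod_cast Ne.symm hi
        positivity
      · simp only [len, if_neg h]
        exact one_pos
    · rintro p ⟨hg, γ, rfl⟩
      simp only [len, if_pos hg]
      rw [hsub]
      have h1 : ‖comb γ (fun i => (τ.2.2 i : ℝ) - (τ.2.1 i : ℝ))‖ ^ 2 =
          ∑ i, ((τ.2.2 i : ℝ) - τ.2.1 i) ^ 2 := by
        rw [← real_inner_self_eq_norm_sq, hcc]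
        exact Finset.sum_congr rfl fun i _ => by ring
      rw [← h1, Real.sqrt_sq (norm_nonneg _)]
    · rintro p ⟨hg, γ, rfl⟩
      have h1 : ‖comb γ (ν τ)‖ ^ 2 = 1 := by
        rw [← real_inner_self_eq_norm_sq, hcc, ← (hν τ hg.1).1]
        exact Finset.sum_congr rfl fun i _ => by ring
      have h2 : ‖comb γ (ν τ)‖ ^ 2 = 1 ^ 2 := by rw [h1]; norm_num
      exact (sq_eq_sq₀ (norm_nonneg _) zero_le_one).1 h2
    · rintro p ⟨hg, γ, rfl⟩
      simp only
      rw [hsub, hcc]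
      exact (hν τ hg.1).2
    · rintro p ⟨hg, γ, rfl⟩ q ⟨-, γ', rfl⟩ hpq x hx y hy
      have hγ : γ ≠ γ' := by
        rintro rfl
        exact hpq rfl
      have hr : ∃ i, γ i ∉ range γ' := by
        by_contra hcon
        push Not at hcon
        have h1 : Finset.univ.map γ.toEmbedding ⊆ Finset.univ.map γ'.toEmbedding := by
          intro δ hδ
          obtain ⟨i, -, rfl⟩ := Finset.mem_map.1 hδ
          obtain ⟨j, hj⟩ := hcon i
          exact Finset.mem_map.2 ⟨j, Finset.mem_univ _, hj⟩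
        have h2 := Finset.eq_of_subset_of_card_le h1 (by simp)
        have h3 : range γ = range γ' := by
          have h4 := congrArg (fun s : Finset ι => (s : Set ι)) h2
          simpa using h4
        apply hγ
        have h5 := (StrictMono.range_inj γ.strictMono γ'.strictMono).1 h3
        exact DFunLike.coe_injective h5
      obtain ⟨i, hi⟩ := hr
      obtain ⟨s, t, hs, ht, hst, rfl⟩ := hx
      obtain ⟨s', t', hs', ht', hst', rfl⟩ := hy
      simp only
      rw [hconv, hconv]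
      have h1 : ∀ z w : H₁, |⟪b (γ i), z⟫ - ⟪b (γ i), w⟫| ≤ ‖z - w‖ := by
        intro z w
        rw [← inner_sub_right]
        have := abs_real_inner_le_norm (b (γ i)) (z - w)
        rwa [hb.1, one_mul] at this
      refine le_trans ?_ (h1 _ _)
      rw [hinner, hinner0 _ _ _ hi, sub_zero]
      have h2 := hm τ hg i
      have h3 : (0 : ℝ) < (τ.2.1 i : ℝ) * (τ.2.2 i : ℝ) := by exact_mod_cast hg.2.1 i
      rcases lt_or_gt_of_ne (show (τ.2.1 i : ℝ) ≠ 0 by intro h; rw [h] at h3; simp at h3)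
        with h4 | h4
      · have h5 : (τ.2.2 i : ℝ) < 0 := by
          by_contra h6
          push Not at h6
          have := mul_nonpos_of_nonpos_of_nonneg h4.le h6
          linarith
        rw [abs_of_neg h4, abs_of_neg h5] at h2
        have h6 : s * (τ.2.1 i : ℝ) + t * (τ.2.2 i : ℝ) ≤ -(m τ) := by
          have a1 := mul_le_mul_of_nonneg_left h2.1 hs
          have a2 := mul_le_mul_of_nonneg_left h2.2 ht
          have a3 : s * m τ + t * m τ = m τ := by rw [← add_mul, hst, one_mul]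
          linarith
        rw [abs_of_nonpos (by linarith [hm0 τ])]
        linarith
      · have h5 : 0 < (τ.2.2 i : ℝ) := by
          by_contra h6
          push Not at h6
          have := mul_nonpos_of_nonneg_of_nonpos h4.le h6
          linarith
        rw [abs_of_pos h4, abs_of_pos h5] at h2
        have h6 : m τ ≤ s * (τ.2.1 i : ℝ) + t * (τ.2.2 i : ℝ) := by
          have a1 := mul_le_mul_of_nonneg_left h2.1 hs
          have a2 := mul_le_mul_of_nonneg_left h2.2 ht
          have a3 : s * m τ + t * m τ = m τ := by rw [← add_mul, hst, one_mul]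
          linarith
        exact h6.trans (le_abs_self _)
  · intro F c d hF hcd hne
    obtain ⟨γ, hγ⟩ : ∃ γ : Fin F.card ↪o ι, γ = F.orderEmbOfFin rfl := ⟨_, rfl⟩
    have hmap : Finset.univ.map γ.toEmbedding = F := by
      rw [hγ]
      exact Finset.map_orderEmbOfFin_univ F rfl
    have hvec : ∀ a : ι → ℝ, vec b F a = comb γ (fun i => a (γ i)) := by
      intro a
      unfold vec
      conv_lhs => rw [← hmap]
      rw [Finset.sum_map]
      rfl
    have hmem : ∀ i, γ i ∈ F := by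
      intro i
      rw [hγ]
      exact Finset.orderEmbOfFin_mem F rfl i
    obtain ⟨τ, hτ⟩ : ∃ τ : T, τ = ⟨F.card, fun i => c (γ i), fun i => d (γ i)⟩ := ⟨_, rfl⟩
    obtain ⟨n, hn⟩ := he τ
    refine ⟨n, ?_⟩
    simp only
    rw [hn, hτ]
    refine ⟨Function.extend γ (ν ⟨F.card, fun i => c (γ i), fun i => d (γ i)⟩) 0,
      ⟨hF, fun i => hcd _ (hmem i), ?_⟩, γ, ?_⟩
    · obtain ⟨δ, hδ, hne⟩ := hne
      rw [← hmap] at hδ
      obtain ⟨i, -, rfl⟩ := Finset.mem_map.1 hδ
      exact ⟨i, hne⟩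
    · rw [hvec, hvec, hvec]
      simp only [γ.injective.extend_apply]

end Comb

end Pool.Agent.Lib.MP_1e31fb_an
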