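import Pool.Agent.Lib.MP_1e31fb_an.NonSep

set_option linter.unusedSectionVars false

open Set Metric Topology Filter
open scoped RealInnerProductSpace

namespace Pool.Agent.Lib.MP_1e31fb_an

variable {H₁ : Type*} [NormedAddCommGroup H₁] [InnerProductSpace ℝ H₁]

theorem exists_rat_close {ι : Type*} (F : Finset ι) (c : ι → ℝ) (hc : ∀ δ ∈ F, c δ ≠ 0) {η : ℝ}
    (hη : 0 < η) : ∃ q : ι → ℚ, ∀ δ ∈ F, |(q δ : ℝ) - c δ| < η ∧ 0 < (q δ : ℝ) * c δ := by
  have h : ∀ δ, ∃ q : ℚ, δ ∈ F → |(q : ℝ) - c δ| < η ∧ 0 < (q : ℝ) * c δ := by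
    intro δ
    by_cases hδ : δ ∈ F
    · have hpos : 0 < min η |c δ| := lt_min hη (abs_pos.2 (hc δ hδ))
      obtain ⟨q, h1, h2⟩ := exists_rat_btwn (show c δ - min η |c δ| < c δ by linarith)
      have h3 : |(q : ℝ) - c δ| < min η |c δ| := by
        rw [abs_lt]
        constructor <;> linarith
      exact ⟨q, fun _ => ⟨h3.trans_le (min_le_left _ _), sign_of_close (h3.trans_le (min_le_right _ _))⟩⟩
    · exact ⟨0, fun h => absurd h hδ⟩
  choose q hq using h
  exact ⟨q, hq⟩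

section Chain

variable {ι : Type*} [LinearOrder ι]

/-- The hypothesis that the frontier of `U` does not cross the segments of the system. -/
def NoCross (b : ι → H₁) (U G : Set H₁) : Prop :=
  ∀ (F : Finset ι) (c d : ι → ℚ), 2 ≤ F.card → (∀ δ ∈ F, 0 < c δ * d δ) →
    (∃ δ ∈ F, c δ ≠ d δ) →
    segment ℝ (vec b F (fun δ => (c δ : ℝ))) (vec b F (fun δ => (d δ : ℝ))) ⊆ G →
    ∃ ν : ι → ℝ, ‖vec b F ν‖ = 1 ∧ ∀ τ > 0, ¬ Crosses (frontier U)
      (vec b F (fun δ => (c δ : ℝ)), vec b F (fun δ => (d δ : ℝ)), vec b F ν) τ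

variable {b : ι → H₁} (hb : Orthonormal ℝ b) {U G B : Set H₁} (hU : IsOpen U)
  (hN : NoCross b U G) (hB : IsOpen B) (hBc : Convex ℝ B) (hBG : B ⊆ G)
include hb hU hN hB hBc hBG

theorem cell_const {F : Finset ι} (hF : 2 ≤ F.card) {c d : ι → ℝ} (hcd : ∀ δ ∈ F, 0 < c δ * d δ)
    (hc : vec b F c ∈ U) (hcB : vec b F c ∈ B) (hd : vec b F d ∈ (closure U)ᶜ)
    (hdB : vec b F d ∈ B) : False := by
  have hc0 : ∀ δ ∈ F, c δ ≠ 0 := by
    intro δ hδ h
    have := hcd δ hδ
    rw [h, zero_mul] at this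
    exact lt_irrefl _ this
  have hd0 : ∀ δ ∈ F, d δ ≠ 0 := by
    intro δ hδ h
    have := hcd δ hδ
    rw [h, mul_zero] at this
    exact lt_irrefl _ this
  obtain ⟨η₁, hη₁, h1⟩ := vec_ball hb (hU.inter hB) (F := F) (c := c) ⟨hc, hcB⟩
  obtain ⟨η₂, hη₂, h2⟩ := vec_ball hb (isClosed_closure.isOpen_compl.inter hB) (F := F) (c := d)
    ⟨hd, hdB⟩
  obtain ⟨c', hc'⟩ := exists_rat_close F c hc0 hη₁
  obtain ⟨d', hd'⟩ := exists_rat_close F d hd0 hη₂
  have h3 := h1 (fun δ => (c' δ : ℝ)) fun δ hδ => (hc' δ hδ).1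
  have h4 := h2 (fun δ => (d' δ : ℝ)) fun δ hδ => (hd' δ hδ).1
  obtain ⟨ν, hν, hcr⟩ := hN F c' d' hF (fun δ hδ => by
    have a1 := sign_trans (hc' δ hδ).2 (hcd δ hδ)
    have a2 := (hd' δ hδ).2
    rw [mul_comm] at a2
    have a3 := sign_trans a1 a2
    exact_mod_cast a3) (by
    by_contra hcon
    push Not at hcon
    have : vec b F (fun δ => (c' δ : ℝ)) = vec b F (fun δ => (d' δ : ℝ)) :=
      vec_congr b fun δ hδ => by rw [hcon δ hδ]
    rw [this] at h3
    exact h4.1 (subset_closure h3.1)) ((hBc.segment_subset h3.2 h4.2).trans hBG)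
  obtain ⟨τ, hτ, hcross⟩ := crosses_of_mem hU h3.1 h4.1 hν.le
  exact hcr τ hτ hcross

theorem cell_dense {F : Finset ι} (hF : 2 ≤ F.card) {c : ι → ℝ} (hc : ∀ δ ∈ F, c δ ≠ 0)
    (hcB : vec b F c ∈ B) {η : ℝ} (hη : 0 < η) : ∃ c' : ι → ℝ, (∀ δ ∈ F, |c' δ - c δ| < η) ∧
      vec b F c' ∈ B ∧ (vec b F c' ∈ U ∨ vec b F c' ∈ (closure U)ᶜ) := by
  by_contra hcon
  obtain ⟨η₀, hη₀, h0⟩ := vec_ball hb hB hcB
  obtain ⟨μ, hμ0, hμ⟩ := exists_pos_le F (fun δ => |c δ|) fun δ hδ => abs_pos.2 (hc δ hδ)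
  obtain ⟨η₁, hη₁⟩ : ∃ η₁, η₁ = min (min η η₀ / 4) μ := ⟨_, rfl⟩
  have hη₁0 : 0 < η₁ := by
    rw [hη₁]
    exact lt_min (by have := lt_min hη hη₀; positivity) hμ0
  have hmin : η₁ ≤ min η η₀ / 4 := by rw [hη₁]; exact min_le_left _ _
  have hη₁η : 4 * η₁ ≤ η := by have := min_le_left η η₀; linarith
  have hη₁η₀ : 4 * η₁ ≤ η₀ := by have := min_le_right η η₀; linarith
  have hη₁μ : η₁ ≤ μ := by rw [hη₁]; exact min_le_right _ _
  have hfr : ∀ c' : ι → ℝ, (∀ δ ∈ F, |c' δ - c δ| ≤ 2 * η₁) → vec b F c' ∈ frontier U := by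
    intro c' hc'
    have h1 : vec b F c' ∈ B := h0 c' fun δ hδ => by
      have := hc' δ hδ
      linarith
    have h2 : ¬ (vec b F c' ∈ U ∨ vec b F c' ∈ (closure U)ᶜ) := fun h => hcon
      ⟨c', fun δ hδ => by
        have := hc' δ hδ
        linarith, h1, h⟩
    push Not at h2
    rw [hU.frontier_eq]
    exact ⟨by simpa using h2.2, h2.1⟩
  have hq1 : ∀ δ, ∃ q : ℚ, c δ - η₁ < q ∧ (q : ℝ) < c δ := fun δ =>
    exists_rat_btwn (by linarith)
  have hq2 : ∀ δ, ∃ q : ℚ, c δ < q ∧ (q : ℝ) < c δ + η₁ := fun δ =>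
    exists_rat_btwn (by linarith)
  choose q hq using hq1
  choose q' hq' using hq2
  have hqc : ∀ δ, |(q δ : ℝ) - c δ| < η₁ := fun δ => by
    rw [abs_lt]
    constructor <;> linarith [(hq δ).1, (hq δ).2]
  have hqc' : ∀ δ, |(q' δ : ℝ) - c δ| < η₁ := fun δ => by
    rw [abs_lt]
    constructor <;> linarith [(hq' δ).1, (hq' δ).2]
  have hFne : F.Nonempty := by
    rw [← Finset.card_pos]
    omega
  obtain ⟨δ₀, hδ₀⟩ := hFne
  obtain ⟨ν, hν, hcr⟩ := hN F q q' hF (fun δ hδ => by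
    have a1 : 0 < (q δ : ℝ) * c δ := sign_of_close
      ((hqc δ).trans_le (hη₁μ.trans (hμ δ hδ)))
    have a2 : 0 < (q' δ : ℝ) * c δ := sign_of_close
      ((hqc' δ).trans_le (hη₁μ.trans (hμ δ hδ)))
    rw [mul_comm] at a2
    have a3 := sign_trans a1 a2
    exact_mod_cast a3) ⟨δ₀, hδ₀, by
      intro h
      have h1 := (hq δ₀).2
      have h2 := (hq' δ₀).1
      rw [h] at h1
      linarith⟩ (by
    refine (hBc.segment_subset ?_ ?_).trans hBG
    · refine h0 _ fun δ _ => ?_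
      have := hqc δ
      linarith
    · refine h0 _ fun δ _ => ?_
      have := hqc' δ
      linarith)
  refine hcr η₁ hη₁0 fun h hh0 hh1 => ⟨0, le_rfl, zero_le_one, ?_⟩
  simp only [zero_smul, add_zero]
  rw [← vec_smul, ← vec_add]
  refine hfr _ fun δ hδ => ?_
  have h1 : |ν δ| ≤ 1 := by
    rw [← hν]
    exact abs_coord_le hb F ν hδ
  have h2 : |h * ν δ| ≤ η₁ := by
    rw [abs_mul, abs_of_nonneg hh0]
    calc h * |ν δ| ≤ h * 1 := mul_le_mul_of_nonneg_left h1 hh0
      _ ≤ η₁ := by linarith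
  have h3 := hqc δ
  have h4 : (q δ : ℝ) + h * ν δ - c δ = ((q δ : ℝ) - c δ) + h * ν δ := by ring
  rw [h4]
  refine (abs_add_le _ _).trans ?_
  linarith

theorem lab_step {F : Finset ι} (hF : 3 ≤ F.card) {γ : ι} (hγ : γ ∈ F) {c : ι → ℝ}
    (hc : ∀ δ ∈ F, c δ ≠ 0) {β : ℝ} (hβ : β ≠ 0) (hcB : vec b F c ∈ B)
    (hβB : vec b F (Function.update c γ β) ∈ B)
    (hlab : ∃ e : ι → ℝ, (∀ δ ∈ F, 0 < e δ * c δ) ∧ vec b F e ∈ U ∧ vec b F e ∈ B) :
    ∃ e : ι → ℝ, (∀ δ ∈ F, 0 < e δ * (Function.update c γ β) δ) ∧ vec b F e ∈ U ∧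
      vec b F e ∈ B := by
  obtain ⟨e, he, heU, heB⟩ := hlab
  have hcγ := hc γ hγ
  have hvec_erase : ∀ a : ι → ℝ, vec b F a = vec b (F.erase γ) a + a γ • b γ := by
    intro a
    unfold vec
    rw [Finset.sum_erase_add _ _ hγ]
  have hupd : ∀ (a : ι → ℝ) (s : ℝ), vec b F (Function.update a γ s) =
      vec b (F.erase γ) a + s • b γ := by
    intro a s
    rw [hvec_erase, Function.update_self]
    congr 1
    refine vec_congr b fun δ hδ => ?_
    rw [Function.update_of_ne (Finset.ne_of_mem_erase hδ)]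
  rcases lt_or_ge 0 (c γ * β) with hs | hs
  · refine ⟨e, fun δ hδ => ?_, heU, heB⟩
    by_cases h : δ = γ
    · subst h
      rw [Function.update_self]
      exact sign_trans (he δ hδ) hs
    · rw [Function.update_of_ne h]
      exact he δ hδ
  · have hs' : c γ * β < 0 := lt_of_le_of_ne hs (mul_ne_zero hcγ hβ)
    -- the facet
    have hF' : 2 ≤ (F.erase γ).card := by
      rw [Finset.card_erase_of_mem hγ]
      omega
    have h0B : vec b (F.erase γ) c ∈ B := by
      have hne : c γ - β ≠ 0 := by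
        intro h
        have : c γ = β := by linarith
        rw [this] at hs'
        nlinarith [sq_nonneg β]
      have hpos : 0 < (c γ - β) ^ 2 := by positivity
      refine hBc.segment_subset hcB hβB ⟨-β * (c γ - β) / (c γ - β) ^ 2,
        c γ * (c γ - β) / (c γ - β) ^ 2, ?_, ?_, ?_, ?_⟩
      · apply div_nonneg _ hpos.le
        nlinarith [sq_nonneg β]
      · apply div_nonneg _ hpos.le
        nlinarith [sq_nonneg (c γ)]
      · field_simp
        ring
      · rw [hvec_erase c, hupd]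
        have h1 : -β * (c γ - β) / (c γ - β) ^ 2 + c γ * (c γ - β) / (c γ - β) ^ 2 = 1 := by
          field_simp
          ring
        have h2 : -β * (c γ - β) / (c γ - β) ^ 2 * c γ + c γ * (c γ - β) / (c γ - β) ^ 2 * β = 0 := by
          field_simp
          ring
        obtain ⟨s, hs⟩ : ∃ s, s = -β * (c γ - β) / (c γ - β) ^ 2 := ⟨_, rfl⟩
        obtain ⟨t, ht⟩ : ∃ t, t = c γ * (c γ - β) / (c γ - β) ^ 2 := ⟨_, rfl⟩
        rw [← hs, ← ht] at h1 h2 ⊢
        have : s • (vec b (F.erase γ) c + c γ • b γ) + t • (vec b (F.erase γ) c + β • b γ) =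
            (s + t) • vec b (F.erase γ) c + (s * c γ + t * β) • b γ := by module
        rw [this, h1, h2, one_smul, zero_smul, add_zero]
    obtain ⟨μ, hμ0, hμ⟩ := exists_pos_le F (fun δ => |c δ|) fun δ hδ => abs_pos.2 (hc δ hδ)
    obtain ⟨c', hc', hc'B, hc'U⟩ := cell_dense hb hU hN hB hBc hBG hF'
      (fun δ hδ => hc δ (Finset.mem_of_mem_erase hδ)) h0B hμ0
    have hsign : ∀ δ ∈ F.erase γ, 0 < c' δ * c δ := fun δ hδ =>
      sign_of_close ((hc' δ hδ).trans_le (hμ δ (Finset.mem_of_mem_erase hδ)))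
    have hupd0 : vec b F (Function.update c' γ 0) = vec b (F.erase γ) c' := by
      rw [hupd, zero_smul, add_zero]
    -- small perturbation
    have hpert : ∀ O : Set H₁, IsOpen O → vec b (F.erase γ) c' ∈ O → ∀ s : ℝ, s ≠ 0 →
        ∃ e : ι → ℝ, (∀ δ ∈ F, 0 < e δ * (Function.update c γ s) δ) ∧ vec b F e ∈ O := by
      intro O hO hc'O s hs0
      rw [← hupd0] at hc'O
      obtain ⟨η, hη, h⟩ := vec_ball hb hO hc'O
      have hs1 : 0 < |s| := abs_pos.2 hs0
      refine ⟨Function.update c' γ (η / 2 * (s / |s|)), fun δ hδ => ?_, h _ fun δ hδ => ?_⟩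
      · by_cases hd : δ = γ
        · subst hd
          rw [Function.update_self, Function.update_self]
          have : η / 2 * (s / |s|) * s = η / 2 * (s ^ 2 / |s|) := by ring
          rw [this]
          have : 0 < s ^ 2 := by positivity
          positivity
        · rw [Function.update_of_ne hd, Function.update_of_ne hd]
          exact hsign δ (Finset.mem_erase.2 ⟨hd, hδ⟩)
      · by_cases hd : δ = γ
        · subst hd
          rw [Function.update_self, Function.update_self, sub_zero, abs_mul, abs_div s, abs_abs,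
            div_self hs1.ne', mul_one, abs_of_pos (by positivity)]
          linarith
        · rw [Function.update_of_ne hd, Function.update_of_ne hd, sub_self, abs_zero]
          exact hη
    rcases hc'U with h | h
    · obtain ⟨e', he', he'O⟩ := hpert (U ∩ B) (hU.inter hB) ⟨h, hc'B⟩ β hβ
      exact ⟨e', he', he'O.1, he'O.2⟩
    · exfalso
      obtain ⟨e', he', he'O⟩ := hpert ((closure U)ᶜ ∩ B) (isClosed_closure.isOpen_compl.inter hB)
        ⟨h, hc'B⟩ (c γ) hcγ
      rw [Function.update_eq_self] at he'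
      refine cell_const hb hU hN hB hBc hBG (by omega : 2 ≤ F.card) (fun δ hδ => ?_) heU heB
        he'O.1 he'O.2
      have a := he' δ hδ
      rw [mul_comm] at a
      exact sign_trans (he δ hδ) a

theorem chain_const {F : Finset ι} (hF : 3 ≤ F.card) {c d : ι → ℝ} (hc : ∀ δ ∈ F, c δ ≠ 0)
    (hd : ∀ δ ∈ F, d δ ≠ 0)
    (hmix : ∀ S ⊆ F, vec b F (fun δ => if δ ∈ S then d δ else c δ) ∈ B)
    (hcU : vec b F c ∈ U) (hdU : vec b F d ∈ (closure U)ᶜ) : False := by
  classical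
  have key : ∀ S ⊆ F, ∃ e : ι → ℝ, (∀ δ ∈ F, 0 < e δ * (if δ ∈ S then d δ else c δ)) ∧
      vec b F e ∈ U ∧ vec b F e ∈ B := by
    intro S
    induction S using Finset.induction_on with
    | empty =>
      intro hS
      refine ⟨c, fun δ hδ => ?_, hcU, ?_⟩
      · simp only [Finset.notMem_empty, if_false]
        exact mul_self_pos.2 (hc δ hδ)
      · simpa using hmix ∅ hS
    | insert γ S hγS ih =>
      intro hS
      have hSF : S ⊆ F := (Finset.subset_insert γ S).trans hS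
      have hγF : γ ∈ F := hS (Finset.mem_insert_self γ S)
      have hupd : Function.update (fun δ => if δ ∈ S then d δ else c δ) γ (d γ) =
          fun δ => if δ ∈ insert γ S then d δ else c δ := by
        funext δ
        by_cases h : δ = γ
        · subst h
          simp
        · rw [Function.update_of_ne h]
          simp [h]
      have h1 := lab_step hb hU hN hB hBc hBG hF hγF (c := fun δ => if δ ∈ S then d δ else c δ)
        (fun δ hδ => by
          by_cases h : δ ∈ S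
          · simp only [if_pos h]; exact hd δ hδ
          · simp only [if_neg h]; exact hc δ hδ) (hd γ hγF) (hmix S hSF)
        (by rw [hupd]; exact hmix _ hS) (ih hSF)
      rw [hupd] at h1
      exact h1
  obtain ⟨e, he, heU, heB⟩ := key F subset_rfl
  have hdB : vec b F d ∈ B := by
    have := hmix F subset_rfl
    rwa [vec_congr b (d := d) (fun δ hδ => by simp only [if_pos hδ])] at this
  refine cell_const hb hU hN hB hBc hBG (by omega : 2 ≤ F.card) (d := d) (fun δ hδ => ?_) heU heB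
    hdU hdB
  have := he δ hδ
  rwa [if_pos hδ] at this

end Chain

end Pool.Agent.Lib.MP_1e31fb_an
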