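import Pool.Agent.Lib.MP_1e31fb_an.Basic

set_option linter.unusedSectionVars false

open Set Metric Topology Filter
open scoped RealInnerProductSpace

namespace Pool.Agent.Lib.MP_1e31fb_an

section Avg

variable {ι : Type*} {V : Type*} [NormedAddCommGroup V] [InnerProductSpace ℝ V]

/-- Finitely supported probability vectors. -/
def simplex (ι : Type*) : Set (ι →₀ ℝ) :=
  {l | (∀ i, 0 ≤ l i) ∧ Finsupp.linearCombination ℝ (fun _ => (1 : ℝ)) l = 1}

/-- The average of `v` with weights `l`. -/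
noncomputable def av {W : Type*} [AddCommGroup W] [Module ℝ W] (v : ι → W) : (ι →₀ ℝ) →ₗ[ℝ] W :=
  Finsupp.linearCombination ℝ v

theorem simplex_convex : Convex ℝ (simplex ι) := by
  intro l hl m hm a b ha hb hab
  refine ⟨fun i => ?_, ?_⟩
  · simp only [Finsupp.coe_add, Finsupp.coe_smul, Pi.add_apply, Pi.smul_apply, smul_eq_mul]
    have := hl.1 i
    have := hm.1 i
    positivity
  · rw [map_add, map_smul, map_smul, hl.2, hm.2]
    simpa using hab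

theorem single_mem_simplex (i : ι) : Finsupp.single i (1 : ℝ) ∈ simplex ι := by
  classical
  refine ⟨fun j => ?_, by simp⟩
  by_cases h : i = j
  · subst h; simp
  · simp [h]

@[simp] theorem av_single {W : Type*} [AddCommGroup W] [Module ℝ W] (v : ι → W) (i : ι) :
    av v (Finsupp.single i (1 : ℝ)) = v i := by
  simp [av]

theorem av_apply {W : Type*} [AddCommGroup W] [Module ℝ W] (v : ι → W) (l : ι →₀ ℝ) :
    av v l = ∑ i ∈ l.support, l i • v i := by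
  simp [av, Finsupp.linearCombination_apply, Finsupp.sum]

theorem av_add {W : Type*} [AddCommGroup W] [Module ℝ W] (v w : ι → W) (l : ι →₀ ℝ) :
    av (fun i => v i + w i) l = av v l + av w l := by
  simp [av_apply, smul_add, Finset.sum_add_distrib]

theorem av_sub {W : Type*} [AddCommGroup W] [Module ℝ W] (v w : ι → W) (l : ι →₀ ℝ) :
    av (fun i => v i - w i) l = av v l - av w l := by
  simp [av_apply, smul_sub, Finset.sum_sub_distrib]

theorem av_smul {W : Type*} [AddCommGroup W] [Module ℝ W] (c : ℝ) (w : ι → W) (l : ι →₀ ℝ) :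
    av (fun i => c • w i) l = c • av w l := by
  simp [av_apply, Finset.smul_sum, smul_comm c]

theorem av_const_mul (c : ℝ) (w : ι → ℝ) (l : ι →₀ ℝ) :
    av (fun i => c * w i) l = c * av w l := av_smul c w l

theorem av_const {W : Type*} [AddCommGroup W] [Module ℝ W] (c : W) {l : ι →₀ ℝ}
    (hl : l ∈ simplex ι) : av (fun _ => c) l = c := by
  have h := hl.2
  rw [Finsupp.linearCombination_apply, Finsupp.sum] at h
  rw [av_apply, ← Finset.sum_smul]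
  simp only [smul_eq_mul, mul_one] at h
  rw [h, one_smul]

theorem av_mono {v w : ι → ℝ} {l : ι →₀ ℝ} (hl : l ∈ simplex ι) (h : ∀ i, v i ≤ w i) :
    av v l ≤ av w l := by
  rw [av_apply, av_apply]
  exact Finset.sum_le_sum fun i _ => mul_le_mul_of_nonneg_left (h i) (hl.1 i)

theorem av_inner (p : V) (v : ι → V) (l : ι →₀ ℝ) :
    av (fun i => ⟪p, v i⟫) l = ⟪p, av v l⟫ := by
  rw [av_apply, av_apply, inner_sum]
  simp [inner_smul_right]

/-- The variance. -/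
noncomputable def var (v : ι → V) (l : ι →₀ ℝ) : ℝ := av (fun i => ‖v i‖ ^ 2) l - ‖av v l‖ ^ 2

theorem av_norm_sub_sq (v : ι → V) {l : ι →₀ ℝ} (hl : l ∈ simplex ι) (p : V) :
    av (fun i => ‖v i - p‖ ^ 2) l = var v l + ‖av v l - p‖ ^ 2 := by
  have h1 : (fun i => ‖v i - p‖ ^ 2) = fun i => (‖v i‖ ^ 2 + (-2) * ⟪p, v i⟫) + ‖p‖ ^ 2 := by
    funext i
    rw [norm_sub_sq_real, real_inner_comm]
    ring
  rw [h1, av_add, av_add, av_const_mul, av_inner, av_const _ hl, norm_sub_sq_real, var,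
    real_inner_comm]
  ring

theorem var_nonneg (v : ι → V) {l : ι →₀ ℝ} (hl : l ∈ simplex ι) : 0 ≤ var v l := by
  have h := av_norm_sub_sq v hl (av v l)
  rw [sub_self, norm_zero] at h
  have h2 : (0 : ℝ) ≤ av (fun i => ‖v i - av v l‖ ^ 2) l := by
    have := av_mono (v := fun _ => (0 : ℝ)) (w := fun i => ‖v i - av v l‖ ^ 2) hl
      (fun i => by positivity)
    rwa [av_const _ hl] at this
  linarith [h]

theorem two_var (v : ι → V) {l : ι →₀ ℝ} (hl : l ∈ simplex ι) :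
    av (fun j => av (fun i => ‖v i - v j‖ ^ 2) l) l = 2 * var v l := by
  have h1 : (fun j => av (fun i => ‖v i - v j‖ ^ 2) l) =
      fun j => var v l + ‖v j - av v l‖ ^ 2 := by
    funext j
    rw [av_norm_sub_sq v hl, norm_sub_rev]
  rw [h1, av_add, av_const _ hl, av_norm_sub_sq v hl]
  simp
  ring

theorem var_le_var {V' : Type*} [NormedAddCommGroup V'] [InnerProductSpace ℝ V'] {v : ι → V}
    {w : ι → V'} {l : ι →₀ ℝ} (hl : l ∈ simplex ι) (h : ∀ i j, ‖v i - v j‖ ≤ ‖w i - w j‖) :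
    var v l ≤ var w l := by
  have h1 := two_var v hl
  have h2 := two_var w hl
  have h3 : av (fun j => av (fun i => ‖v i - v j‖ ^ 2) l) l ≤
      av (fun j => av (fun i => ‖w i - w j‖ ^ 2) l) l :=
    av_mono hl fun j => av_mono hl fun i => by
      have := h i j
      gcongr
  linarith

end Avg

section Prox

variable {M : Type*} [AddCommGroup M] [Module ℝ M]
variable {E : Type*} [NormedAddCommGroup E] [InnerProductSpace ℝ E]

/-- The functional minimized in the proximal lemma. -/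
def J (ℓ : M →ₗ[ℝ] ℝ) (e : M →ₗ[ℝ] E) (c : E) (k : M) : ℝ := ℓ k + ‖e k - c‖ ^ 2

theorem J_comb (ℓ : M →ₗ[ℝ] ℝ) (e : M →ₗ[ℝ] E) (c : E) (k k' : M) (t : ℝ) :
    J ℓ e c ((1 - t) • k + t • k') =
      (1 - t) * J ℓ e c k + t * J ℓ e c k' - t * (1 - t) * ‖e k - e k'‖ ^ 2 := by
  unfold J
  have h1 : e ((1 - t) • k + t • k') - c = (1 - t) • (e k - c) + t • (e k' - c) := by
    rw [map_add, map_smul, map_smul]
    module
  have h2 : e k - e k' = (e k - c) - (e k' - c) := by abel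
  rw [h1, h2, map_add, map_smul, map_smul]
  generalize e k - c = a
  generalize e k' - c = b
  rw [norm_add_sq_real, norm_sub_sq_real, norm_smul, norm_smul, inner_smul_left, inner_smul_right,
    mul_pow, mul_pow, Real.norm_eq_abs, Real.norm_eq_abs, sq_abs, sq_abs]
  simp only [smul_eq_mul, conj_trivial]
  ring

/-- The output of the proximal lemma. -/
structure IsProx (K : Set M) (ℓ : M →ₗ[ℝ] ℝ) (e : M →ₗ[ℝ] E) (c : E) (φ : ℝ) (P : E) : Prop where
  le : ∀ k ∈ K, φ ≤ J ℓ e c k - ‖e k - P‖ ^ 2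
  seq : ∃ k : ℕ → M, (∀ n, k n ∈ K) ∧ Tendsto (fun n => J ℓ e c (k n)) atTop (𝓝 φ) ∧
    Tendsto (fun n => e (k n)) atTop (𝓝 P)

theorem exists_isProx [CompleteSpace E] {K : Set M} (hK : Convex ℝ K) (hne : K.Nonempty)
    (ℓ : M →ₗ[ℝ] ℝ) (e : M →ₗ[ℝ] E) (c : E) (hbdd : ∃ m, ∀ k ∈ K, m ≤ J ℓ e c k) :
    ∃ φ P, IsProx K ℓ e c φ P := by
  obtain ⟨m, hm⟩ := hbdd
  let φ := sInf (J ℓ e c '' K)
  have hbb : BddBelow (J ℓ e c '' K) := ⟨m, by rintro _ ⟨k, hk, rfl⟩; exact hm k hk⟩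
  have hφ : ∀ k ∈ K, φ ≤ J ℓ e c k := fun k hk => csInf_le hbb ⟨k, hk, rfl⟩
  have hex : ∀ n : ℕ, ∃ k ∈ K, J ℓ e c k < φ + 1 / ((n : ℝ) + 1) := by
    intro n
    obtain ⟨_, ⟨k, hk, rfl⟩, hlt⟩ := exists_lt_of_csInf_lt (hne.image (J ℓ e c))
      (show sInf (J ℓ e c '' K) < φ + 1 / ((n : ℝ) + 1) from lt_add_of_pos_right _ (by positivity))
    exact ⟨k, hk, hlt⟩
  choose k hkK hk using hex
  have hJ : Tendsto (fun n => J ℓ e c (k n)) atTop (𝓝 φ) := by
    have h1 : Tendsto (fun n : ℕ => φ + 1 / ((n : ℝ) + 1)) atTop (𝓝 (φ + 0)) :=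
      tendsto_const_nhds.add tendsto_one_div_add_atTop_nhds_zero_nat
    rw [add_zero] at h1
    exact tendsto_of_tendsto_of_tendsto_of_le_of_le tendsto_const_nhds h1
      (fun n => hφ _ (hkK n)) (fun n => (hk n).le)
  have hdist : ∀ n m, ‖e (k n) - e (k m)‖ ^ 2 ≤
      2 * (J ℓ e c (k n) - φ) + 2 * (J ℓ e c (k m) - φ) := by
    intro n m
    have h1 := J_comb ℓ e c (k n) (k m) (1 / 2)
    have h2 := hφ _ (hK (hkK n) (hkK m) (show (0 : ℝ) ≤ 1 - 1 / 2 by norm_num)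
      (show (0 : ℝ) ≤ 1 / 2 by norm_num) (by norm_num))
    rw [h1] at h2
    linarith
  have hcau : CauchySeq fun n => e (k n) := by
    rw [Metric.cauchySeq_iff]
    intro ε hε
    have h1 : ∀ᶠ n in atTop, J ℓ e c (k n) - φ < ε ^ 2 / 4 := by
      have h2 : Tendsto (fun n => J ℓ e c (k n) - φ) atTop (𝓝 (φ - φ)) :=
        hJ.sub_const φ
      rw [sub_self] at h2
      exact h2.eventually (gt_mem_nhds (by positivity))
    obtain ⟨N, hN⟩ := eventually_atTop.1 h1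
    refine ⟨N, fun m hm n hn => ?_⟩
    rw [dist_eq_norm]
    have h2 := hdist m n
    have h3 := hN m hm
    have h4 := hN n hn
    have h5 : ‖e (k m) - e (k n)‖ ^ 2 < ε ^ 2 := by linarith
    exact lt_of_pow_lt_pow_left₀ 2 hε.le h5
  obtain ⟨P, hP⟩ := cauchySeq_tendsto_of_complete hcau
  refine ⟨φ, P, ?_, k, hkK, hJ, hP⟩
  intro k' hk'
  have h1 : ∀ t : ℝ, 0 < t → t < 1 → φ ≤ J ℓ e c k' - (1 - t) * ‖e k' - P‖ ^ 2 := by
    intro t ht0 ht1
    have h2 : ∀ n, φ ≤ (1 - t) * J ℓ e c (k n) + t * J ℓ e c k' -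
        t * (1 - t) * ‖e (k n) - e k'‖ ^ 2 := by
      intro n
      rw [← J_comb]
      exact hφ _ (hK (hkK n) hk' (by linarith) ht0.le (by ring))
    have h3 : Tendsto (fun n => (1 - t) * J ℓ e c (k n) + t * J ℓ e c k' -
        t * (1 - t) * ‖e (k n) - e k'‖ ^ 2) atTop
        (𝓝 ((1 - t) * φ + t * J ℓ e c k' - t * (1 - t) * ‖P - e k'‖ ^ 2)) :=
      ((hJ.const_mul _).add_const _).sub (((hP.sub_const _).norm.pow 2).const_mul _)
    have h4 := ge_of_tendsto' h3 h2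
    rw [norm_sub_rev] at h4
    have h5 : t * φ ≤ t * (J ℓ e c k' - (1 - t) * ‖e k' - P‖ ^ 2) := by linarith
    exact le_of_mul_le_mul_left h5 ht0
  have h2 : Tendsto (fun t : ℝ => J ℓ e c k' - (1 - t) * ‖e k' - P‖ ^ 2) (𝓝[>] 0)
      (𝓝 (J ℓ e c k' - (1 - 0) * ‖e k' - P‖ ^ 2)) := by
    apply Tendsto.mono_left _ nhdsWithin_le_nhds
    apply Continuous.tendsto
    fun_prop
  rw [sub_zero, one_mul] at h2
  refine ge_of_tendsto h2 ?_
  have h3 : ∀ᶠ t in 𝓝[>] (0 : ℝ), t < 1 :=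
    nhdsWithin_le_nhds (gt_mem_nhds one_pos)
  filter_upwards [h3, self_mem_nhdsWithin] with t ht1 ht0
  exact h1 t ht0 ht1

/-- Firm nonexpansiveness of the proximal map. -/
theorem IsProx.firm {K : Set M} {ℓ : M →ₗ[ℝ] ℝ} {e : M →ₗ[ℝ] E} {c c' : E} {φ φ' : ℝ} {P P' : E}
    (h : IsProx K ℓ e c φ P) (h' : IsProx K ℓ e c' φ' P') :
    ‖P - P'‖ ^ 2 ≤ ⟪P - P', c - c'⟫ := by
  have key : ∀ (c c' : E) (φ φ' : ℝ) (P P' : E), IsProx K ℓ e c φ P → IsProx K ℓ e c' φ' P' →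
      φ ≤ φ' - ‖P' - c'‖ ^ 2 + ‖P' - c‖ ^ 2 - ‖P' - P‖ ^ 2 := by
    intro c c' φ φ' P P' h h'
    obtain ⟨k, hk, hJ, hP⟩ := h'.seq
    have h1 : ∀ n, φ ≤ J ℓ e c' (k n) - ‖e (k n) - c'‖ ^ 2 + ‖e (k n) - c‖ ^ 2 -
        ‖e (k n) - P‖ ^ 2 := by
      intro n
      have := h.le _ (hk n)
      unfold J at *
      linarith
    have h2 : Tendsto (fun n => J ℓ e c' (k n) - ‖e (k n) - c'‖ ^ 2 + ‖e (k n) - c‖ ^ 2 -
        ‖e (k n) - P‖ ^ 2) atTop (𝓝 (φ' - ‖P' - c'‖ ^ 2 + ‖P' - c‖ ^ 2 - ‖P' - P‖ ^ 2)) :=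
      ((hJ.sub ((hP.sub_const _).norm.pow 2)).add ((hP.sub_const _).norm.pow 2)).sub
        ((hP.sub_const _).norm.pow 2)
    exact ge_of_tendsto' h2 h1
  have h1 := key c c' φ φ' P P' h h'
  have h2 := key c' c φ' φ P' P h' h
  rw [norm_sub_rev P' P] at h1
  have e1 : ‖P' - c‖ ^ 2 = ‖P'‖ ^ 2 - 2 * ⟪P', c⟫ + ‖c‖ ^ 2 := norm_sub_sq_real _ _
  have e2 : ‖P' - c'‖ ^ 2 = ‖P'‖ ^ 2 - 2 * ⟪P', c'⟫ + ‖c'‖ ^ 2 := norm_sub_sq_real _ _
  have e3 : ‖P - c‖ ^ 2 = ‖P‖ ^ 2 - 2 * ⟪P, c⟫ + ‖c‖ ^ 2 := norm_sub_sq_real _ _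
  have e4 : ‖P - c'‖ ^ 2 = ‖P‖ ^ 2 - 2 * ⟪P, c'⟫ + ‖c'‖ ^ 2 := norm_sub_sq_real _ _
  have e5 : ⟪P - P', c - c'⟫ = ⟪P, c⟫ - ⟪P, c'⟫ - ⟪P', c⟫ + ⟪P', c'⟫ := by
    rw [inner_sub_left, inner_sub_right, inner_sub_right]
    ring
  linarith

theorem IsProx.eq_of_J_eq {K : Set M} {ℓ : M →ₗ[ℝ] ℝ} {e : M →ₗ[ℝ] E} {c : E} {φ : ℝ} {P : E}
    (h : IsProx K ℓ e c φ P) {k : M} (hk : k ∈ K) (hJ : J ℓ e c k ≤ φ) : P = e k := by
  have h1 := h.le k hk
  have h2 : ‖e k - P‖ ^ 2 ≤ 0 := by linarith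
  have h3 : ‖e k - P‖ = 0 := by
    have := sq_nonneg ‖e k - P‖
    exact pow_eq_zero_iff (two_ne_zero) |>.1 (le_antisymm h2 this)
  rw [norm_eq_zero, sub_eq_zero] at h3
  exact h3.symm

/-- Lower bounds for `J` on `K` are lower bounds for the minimal value. -/
theorem IsProx.le_phi {K : Set M} {ℓ : M →ₗ[ℝ] ℝ} {e : M →ₗ[ℝ] E} {c : E} {φ : ℝ} {P : E}
    (h : IsProx K ℓ e c φ P) {m : ℝ} (hm : ∀ k ∈ K, m ≤ J ℓ e c k) : m ≤ φ := by
  obtain ⟨k, hk, hJ, -⟩ := h.seq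
  exact ge_of_tendsto' hJ fun n => hm _ (hk n)

theorem IsProx.phi_le {K : Set M} {ℓ : M →ₗ[ℝ] ℝ} {e : M →ₗ[ℝ] E} {c : E} {φ : ℝ} {P : E}
    (h : IsProx K ℓ e c φ P) {k : M} (hk : k ∈ K) : φ ≤ J ℓ e c k := by
  have := h.le k hk
  nlinarith [sq_nonneg ‖e k - P‖]

end Prox

section BIL

variable {ι : Type*} {E : Type*} [NormedAddCommGroup E] [InnerProductSpace ℝ E] [CompleteSpace E]

/-- Ball intersection lemma. -/
theorem ball_intersection (b : ι → E) (q : ι → ℝ)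
    (h : ∀ l ∈ simplex ι, var b l ≤ av q l) : ∃ m, ∀ i, ‖m - b i‖ ^ 2 ≤ q i := by
  rcases isEmpty_or_nonempty ι with hι | ⟨⟨i₀⟩⟩
  · exact ⟨0, fun i => hι.elim i⟩
  have hJ : ∀ l ∈ simplex ι, 0 ≤ J (av fun i => q i - ‖b i‖ ^ 2) (av b) 0 l := by
    intro l hl
    have h1 := h l hl
    unfold J
    rw [av_sub, sub_zero]
    unfold var at h1
    linarith
  obtain ⟨φ, P, hP⟩ := exists_isProx simplex_convex ⟨_, single_mem_simplex i₀⟩
    (av fun i => q i - ‖b i‖ ^ 2) (av b) 0 ⟨0, hJ⟩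
  refine ⟨P, fun i => ?_⟩
  have h1 := hP.le _ (single_mem_simplex i)
  have h2 := hP.le_phi hJ
  unfold J at h1
  rw [av_single, av_single, sub_zero] at h1
  rw [norm_sub_rev]
  linarith

end BIL

section Kirszbraun

variable {H₁ H₂ : Type*} [NormedAddCommGroup H₁] [InnerProductSpace ℝ H₁] [CompleteSpace H₁]
  [NormedAddCommGroup H₂] [InnerProductSpace ℝ H₂] [CompleteSpace H₂]

/-- Kirszbraun's theorem for 1-Lipschitz maps. -/
theorem kirszbraun_one {F : Set H₁} (f : H₁ → H₂) (hf : LipOn 1 f F) :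
    ∃ g : H₁ → H₂, LipOn 1 g univ ∧ ∀ x ∈ F, g x = f x := by
  rcases F.eq_empty_or_nonempty with rfl | ⟨z₀, hz₀⟩
  · exact ⟨fun _ => 0, fun x _ y _ => by simp, by simp⟩
  have : Nonempty F := ⟨⟨z₀, hz₀⟩⟩
  let e : F → WithLp 2 (H₁ × H₂) := fun z => WithLp.toLp 2 ((z : H₁), f z)
  let q : F → ℝ := fun z => ‖(z : H₁)‖ ^ 2 - ‖f z‖ ^ 2
  let c : H₁ → WithLp 2 (H₁ × H₂) := fun x => WithLp.toLp 2 ((2 : ℝ) • x, 0)
  have hav : ∀ l : F →₀ ℝ, av e l = WithLp.toLp 2 (av (fun z : F => (z : H₁)) l,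
      av (fun z : F => f z) l) := by
    intro l
    apply (WithLp.equiv 2 (H₁ × H₂)).injective
    have h1 : (WithLp.equiv 2 (H₁ × H₂)) (av e l) =
        ∑ i ∈ l.support, l i • ((i : H₁), f i) := by
      rw [av_apply]
      have : ∀ s : Finset F, (WithLp.equiv 2 (H₁ × H₂)) (∑ i ∈ s, l i • e i) =
          ∑ i ∈ s, l i • ((i : H₁), f i) := by
        intro s
        induction s using Finset.cons_induction with
        | empty => rfl
        | cons a s has ih =>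
          rw [Finset.sum_cons, Finset.sum_cons, ← ih]
          rfl
      exact this _
    rw [h1]
    have h2 : (WithLp.equiv 2 (H₁ × H₂)) (WithLp.toLp 2 (av (fun z : F => (z : H₁)) l,
      av (fun z : F => f z) l)) = (av (fun z : F => (z : H₁)) l, av (fun z : F => f z) l) := rfl
    rw [h2, av_apply, av_apply]
    simp only [Prod.smul_mk]
    rw [Prod.ext_iff]
    simp [Prod.fst_sum, Prod.snd_sum]
  have hJ : ∀ (x : H₁) (l : F →₀ ℝ), l ∈ simplex F → J (av q) (av e) (c x) l =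
      2 * ‖x‖ ^ 2 + 2 * ‖av (fun z : F => (z : H₁)) l - x‖ ^ 2 +
      (var (fun z : F => (z : H₁)) l - var (fun z : F => f z) l) := by
    intro x l _
    unfold J var
    rw [hav, av_sub, ← WithLp.toLp_sub, WithLp.prod_norm_sq_eq_of_L2]
    simp only [Prod.mk_sub_mk, sub_zero]
    generalize av (fun z : F => (z : H₁)) l = a
    generalize av (fun z : F => f z) l = b
    have h0 : (WithLp.toLp 2 (a - (2 : ℝ) • x, b)).fst = a - (2 : ℝ) • x := rfl
    have h0' : (WithLp.toLp 2 (a - (2 : ℝ) • x, b)).snd = b := rfl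
    rw [h0, h0']
    have h1 : ‖a - (2 : ℝ) • x‖ ^ 2 = ‖a‖ ^ 2 - 4 * ⟪a, x⟫ + 4 * ‖x‖ ^ 2 := by
      rw [norm_sub_sq_real, inner_smul_right, norm_smul, Real.norm_eq_abs, abs_two]
      ring
    have h2 : ‖a - x‖ ^ 2 = ‖a‖ ^ 2 - 2 * ⟪a, x⟫ + ‖x‖ ^ 2 := norm_sub_sq_real _ _
    rw [h1, h2]
    ring
  have hvar : ∀ l ∈ simplex F, var (fun z : F => f z) l ≤ var (fun z : F => (z : H₁)) l := by
    intro l hl
    refine var_le_var hl fun i j => ?_
    have := hf i i.2 j j.2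
    rwa [one_mul] at this
  have hlow : ∀ x, ∀ l ∈ simplex F, 2 * ‖x‖ ^ 2 ≤ J (av q) (av e) (c x) l := by
    intro x l hl
    rw [hJ x l hl]
    have := hvar l hl
    nlinarith [sq_nonneg ‖av (fun z : F => (z : H₁)) l - x‖]
  choose φ P hP using fun x => exists_isProx simplex_convex
    (⟨_, single_mem_simplex ⟨z₀, hz₀⟩⟩ : (simplex F).Nonempty) (av q) (av e) (c x) ⟨_, hlow x⟩
  refine ⟨fun x => (P x).snd, ?_, ?_⟩
  · intro x _ y _
    have h1 := (hP x).firm (hP y)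
    rw [WithLp.prod_norm_sq_eq_of_L2, WithLp.prod_inner_apply] at h1
    have h2 : (c x - c y).fst = (2 : ℝ) • (x - y) := by
      simp [c, smul_sub]
    have h3 : (c x - c y).snd = 0 := by
      simp [c]
    change ‖(P x - P y).fst‖ ^ 2 + ‖(P x - P y).snd‖ ^ 2 ≤
      ⟪(P x - P y).fst, (c x - c y).fst⟫ + ⟪(P x - P y).snd, (c x - c y).snd⟫ at h1
    rw [h2, h3, inner_zero_right, inner_smul_right] at h1
    have h4 : ⟪(P x - P y).fst, x - y⟫ ≤ ‖(P x - P y).fst‖ * ‖x - y‖ := real_inner_le_norm _ _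
    have h5 : ‖(P x - P y).snd‖ ^ 2 ≤ ‖x - y‖ ^ 2 := by
      nlinarith [sq_nonneg (‖(P x - P y).fst‖ - ‖x - y‖)]
    have h6 : ‖(P x - P y).snd‖ ≤ ‖x - y‖ := by
      exact le_of_sq_le_sq h5 (norm_nonneg _)
    rw [one_mul]
    exact h6
  · intro x hx
    have h1 : J (av q) (av e) (c x) (Finsupp.single (⟨x, hx⟩ : F) (1 : ℝ)) ≤ φ x := by
      refine le_trans ?_ ((hP x).le_phi (hlow x))
      rw [hJ x _ (single_mem_simplex _)]
      unfold var
      simp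
    have h2 := (hP x).eq_of_J_eq (single_mem_simplex _) h1
    rw [av_single] at h2
    simp only [h2]
    rfl

/-- Kirszbraun's theorem. -/
theorem kirszbraun {F : Set H₁} (f : H₁ → H₂) {L : ℝ} (hL : 0 ≤ L) (hf : LipOn L f F) :
    ∃ g : H₁ → H₂, LipOn L g univ ∧ ∀ x ∈ F, g x = f x := by
  rcases hL.eq_or_lt with rfl | hL
  · rcases F.eq_empty_or_nonempty with rfl | ⟨z₀, hz₀⟩
    · exact ⟨fun _ => 0, fun x _ y _ => by simp, by simp⟩
    · refine ⟨fun _ => f z₀, fun x _ y _ => by simp, fun x hx => ?_⟩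
      have := hf x hx z₀ hz₀
      rw [zero_mul, norm_le_zero_iff, sub_eq_zero] at this
      exact this.symm
  · obtain ⟨g, hg1, hg2⟩ := kirszbraun_one (fun x => L⁻¹ • f x) (F := F) (by
      intro x hx y hy
      rw [← smul_sub, norm_smul, norm_inv, Real.norm_eq_abs, abs_of_pos hL, one_mul,
        inv_mul_le_iff₀ hL]
      exact hf x hx y hy)
    refine ⟨fun x => L • g x, ?_, fun x hx => ?_⟩
    · intro x hx y hy
      rw [← smul_sub, norm_smul, Real.norm_eq_abs, abs_of_pos hL]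
      have := hg1 x hx y hy
      rw [one_mul] at this
      exact mul_le_mul_of_nonneg_left this hL.le
    · simp only
      rw [hg2 x hx, smul_smul, mul_inv_cancel₀ hL.ne', one_smul]

end Kirszbraun

end Pool.Agent.Lib.MP_1e31fb_an
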