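import Pool.Agent.Lib.MP_1e31fb_an.Iterate

set_option linter.unusedSectionVars false

open Set Metric Topology Filter
open scoped RealInnerProductSpace

namespace Pool.Agent.Lib.MP_1e31fb_an

variable {H₁ : Type*} [NormedAddCommGroup H₁] [InnerProductSpace ℝ H₁]

/-- A system of families of segments which detects the relative boundary of open sets. -/
def TestSystem (H₁ : Type*) [NormedAddCommGroup H₁] [InnerProductSpace ℝ H₁] : Prop :=
  ∃ (P : ℕ → Set (H₁ × H₁ × H₁)) (len m : ℕ → ℝ), (∀ n, GoodFam (P n) (len n) (m n)) ∧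
    ∀ U G : Set H₁, IsOpen U → IsOpen G →
      (∀ n, ∀ p ∈ P n, sg p ⊆ G → ∀ τ > 0, ¬ Crosses (frontier U) p τ) →
      ∀ x ∈ closure U ∩ G, ∃ r > 0, ball x r ⊆ closure U

/-- Segments from `U` to the exterior of `U` are crossing. -/
theorem crosses_of_mem {U : Set H₁} (hU : IsOpen U) {a b ν : H₁} (ha : a ∈ U)
    (hb : b ∈ (closure U)ᶜ) (hν : ‖ν‖ ≤ 1) : ∃ τ > 0, Crosses (frontier U) (a, b, ν) τ := by
  obtain ⟨δ₁, hδ₁, h₁⟩ := Metric.isOpen_iff.1 hU a ha
  obtain ⟨δ₂, hδ₂, h₂⟩ := Metric.isOpen_iff.1 isClosed_closure.isOpen_compl b hb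
  refine ⟨min δ₁ δ₂ / 2, half_pos (lt_min hδ₁ hδ₂), fun h h0 h1 => ?_⟩
  have hmin := lt_min hδ₁ hδ₂
  have hh : ‖h • ν‖ < min δ₁ δ₂ := by
    rw [norm_smul, Real.norm_eq_abs, abs_of_nonneg h0]
    have : h * ‖ν‖ ≤ h * 1 := mul_le_mul_of_nonneg_left hν h0
    linarith
  have ha' : a + h • ν ∈ U := by
    apply h₁
    rw [mem_ball, dist_eq_norm, add_sub_cancel_left]
    exact hh.trans_le (min_le_left _ _)
  have hb' : b + h • ν ∉ U := by
    have : b + h • ν ∈ (closure U)ᶜ := by
      apply h₂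
      rw [mem_ball, dist_eq_norm, add_sub_cancel_left]
      exact hh.trans_le (min_le_right _ _)
    exact fun h => this (subset_closure h)
  obtain ⟨w, ⟨α, β, hα, hβ, hαβ, rfl⟩, hwf⟩ := exists_mem_frontier ha' hb'
  refine ⟨β, hβ, by linarith, ?_⟩
  have : a + β • (b - a) + h • ν = α • (a + h • ν) + β • (b + h • ν) := by
    have : α = 1 - β := by linarith
    rw [this]
    module
  rw [this]
  exact hwf

/-- The separable case. -/
theorem testSystem_of_separable [TopologicalSpace.SeparableSpace H₁] (hE : Dim2 H₁) :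
    TestSystem H₁ := by
  classical
  have hne : Nonempty H₁ := ⟨0⟩
  let d : ℕ → H₁ := TopologicalSpace.denseSeq H₁
  have hd : DenseRange d := TopologicalSpace.denseRange_denseSeq H₁
  have hν : ∀ x y : H₁, ∃ ν : H₁, ‖ν‖ = 1 ∧ ⟪y - x, ν⟫ = 0 := by
    intro x y
    by_cases h : y - x = 0
    · obtain ⟨e, he⟩ := hE.1
      exact ⟨e, he, by rw [h, inner_zero_left]⟩
    · have h1 : ‖y - x‖ ≠ 0 := norm_ne_zero_iff.2 h
      obtain ⟨n, hn, hn'⟩ := hE.2 (‖y - x‖⁻¹ • (y - x)) (by
        rw [norm_smul, norm_inv, norm_norm, inv_mul_cancel₀ h1])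
      refine ⟨n, hn, ?_⟩
      rw [inner_smul_left] at hn'
      simp only [map_inv₀, conj_trivial, mul_eq_zero, inv_eq_zero] at hn'
      exact hn'.resolve_left h1
  choose ν hν1 hν2 using hν
  let a : ℕ → H₁ := fun n => d (Nat.unpair n).1
  let b : ℕ → H₁ := fun n => d (Nat.unpair n).2
  refine ⟨fun n => if a n = b n then ∅ else {(a n, b n, ν (a n) (b n))},
    fun n => if a n = b n then 1 else ‖b n - a n‖, fun _ => 1, ?_, ?_⟩
  · intro n
    by_cases h : a n = b n
    · simp only [if_pos h]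
      exact ⟨one_pos, one_pos, by simp, by simp, by simp, by simp⟩
    · simp only [if_neg h]
      refine ⟨?_, one_pos, ?_, ?_, ?_, ?_⟩
      · rw [norm_pos_iff, sub_ne_zero]
        exact fun h' => h h'.symm
      · rintro p rfl
        rfl
      · rintro p rfl
        exact hν1 _ _
      · rintro p rfl
        exact hν2 _ _
      · rintro p rfl q rfl hpq
        exact absurd rfl hpq
  · intro U G hU hG hcr x hx
    obtain ⟨r, hr, hball⟩ := Metric.isOpen_iff.1 hG x hx.2
    refine ⟨r, hr, fun y hy => ?_⟩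
    by_contra hyU
    -- approximation
    have ho1 : IsOpen (U ∩ ball x r) := hU.inter isOpen_ball
    have hne1 : (U ∩ ball x r).Nonempty := by
      obtain ⟨z, hz1, hz2⟩ := mem_closure_iff.1 hx.1 (ball x r) isOpen_ball (mem_ball_self hr)
      exact ⟨z, hz2, hz1⟩
    have ho2 : IsOpen ((closure U)ᶜ ∩ ball x r) := isClosed_closure.isOpen_compl.inter isOpen_ball
    have hne2 : ((closure U)ᶜ ∩ ball x r).Nonempty := ⟨y, hyU, hy⟩
    obtain ⟨i, hi⟩ := hd.exists_mem_open ho1 hne1
    obtain ⟨j, hj⟩ := hd.exists_mem_open ho2 hne2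
    have ha : a (Nat.pair i j) = d i := by simp [a]
    have hb : b (Nat.pair i j) = d j := by simp [b]
    have hab : a (Nat.pair i j) ≠ b (Nat.pair i j) := by
      rw [ha, hb]
      intro h
      rw [h] at hi
      exact hj.1 (subset_closure hi.1)
    obtain ⟨τ, hτ, hcross⟩ := crosses_of_mem hU hi.1 hj.1 (hν1 (d i) (d j)).le
    refine hcr (Nat.pair i j) (d i, d j, ν (d i) (d j)) ?_ ?_ τ hτ hcross
    · simp only [if_neg hab]
      rw [ha, hb]
      rfl
    · exact ((convex_ball x r).segment_subset hi.2 hj.2).trans hball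

end Pool.Agent.Lib.MP_1e31fb_an
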