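import Pool.Agent.Lib.MP_1e31fb_an.Basic

set_option linter.unusedSectionVars false

open Set Metric Topology Filter
open scoped RealInnerProductSpace

namespace Pool.Agent.Lib.MP_1e31fb_an

variable {E : Type*} [NormedAddCommGroup E] [InnerProductSpace ℝ E]

/-- Rectangles in the complex plane. -/
def rect (A B τ : ℝ) : Set ℂ := {z | A ≤ z.re ∧ z.re ≤ B ∧ 0 ≤ z.im ∧ z.im ≤ τ}

/-- The dimension is at least two. -/
def Dim2 (E : Type*) [NormedAddCommGroup E] [InnerProductSpace ℝ E] : Prop :=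
  (∃ e : E, ‖e‖ = 1) ∧ ∀ e : E, ‖e‖ = 1 → ∃ n : E, ‖n‖ = 1 ∧ ⟪e, n⟫ = 0

/-- `ψ` is a 1-Lipschitz map on the rectangle, and the lines of the rectangle are divided in `M`
pieces such that `ψ` is almost isometric on the upper part of every piece. -/
structure IsSP (τ ε : ℝ) (M : ℕ) (A B : ℝ) (ψ : ℂ → E) (idx : ℝ → ℕ) : Prop where
  lip : LipOn 1 ψ (rect A B τ)
  idx_lt : ∀ s, A ≤ s → s ≤ B → idx s < M
  slope : ∀ z ∈ rect A B τ, ∀ z' ∈ rect A B τ, (1 - ε) * τ ≤ z.im → (1 - ε) * τ ≤ z'.im →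
    idx z.re = idx z'.re → (1 - ε) ^ 2 * ‖z - z'‖ ≤ ‖ψ z - ψ z'‖

theorem rect_cross {A B C τ : ℝ} {x y : ℂ} (hx : x ∈ rect A B τ) (hy : y ∈ rect B C τ) :
    ∃ w ∈ segment ℝ x y, w ∈ rect A B τ ∧ w ∈ rect B C τ := by
  obtain ⟨hx1, hx2, hx3, hx4⟩ := hx
  obtain ⟨hy1, hy2, hy3, hy4⟩ := hy
  by_cases h : x.re = y.re
  · have hxB : x.re = B := le_antisymm hx2 (h ▸ hy1)
    exact ⟨x, left_mem_segment ℝ x y, ⟨hx1, hx2, hx3, hx4⟩, ⟨hxB.ge, by linarith, hx3, hx4⟩⟩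
  · have hlt : x.re < y.re := lt_of_le_of_ne (hx2.trans hy1) h
    obtain ⟨t, ht⟩ : ∃ t, t = (B - x.re) / (y.re - x.re) := ⟨_, rfl⟩
    have ht0 : 0 ≤ t := by
      rw [ht]
      exact div_nonneg (by linarith) (by linarith)
    have ht1 : t ≤ 1 := by
      rw [ht, div_le_one (by linarith)]
      linarith
    have htre : (1 - t) * x.re + t * y.re = B := by
      have : t * (y.re - x.re) = B - x.re := by
        rw [ht, div_mul_cancel₀ _ (by linarith)]
      linarith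
    have him0 : 0 ≤ (1 - t) * x.im + t * y.im := by
      have := mul_nonneg (sub_nonneg.2 ht1) hx3
      have := mul_nonneg ht0 hy3
      linarith
    have him1 : (1 - t) * x.im + t * y.im ≤ τ := by
      have h1 := mul_le_mul_of_nonneg_left hx4 (sub_nonneg.2 ht1)
      have h2 := mul_le_mul_of_nonneg_left hy4 ht0
      linarith
    refine ⟨(1 - t) • x + t • y, ⟨1 - t, t, by linarith, ht0, by ring, rfl⟩, ?_, ?_⟩
    · simp only [rect, mem_ofPred_eq, Complex.add_re, Complex.add_im, Complex.real_smul,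
        Complex.mul_re, Complex.mul_im, Complex.ofReal_re, Complex.ofReal_im, zero_mul, sub_zero,
        add_zero]
      rw [htre]
      exact ⟨by linarith, le_rfl, him0, him1⟩
    · simp only [rect, mem_ofPred_eq, Complex.add_re, Complex.add_im, Complex.real_smul,
        Complex.mul_re, Complex.mul_im, Complex.ofReal_re, Complex.ofReal_im, zero_mul, sub_zero,
        add_zero]
      rw [htre]
      exact ⟨le_rfl, by linarith, him0, him1⟩

/-- Concatenation. -/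
theorem IsSP.concat {τ ε : ℝ} {M₁ M₂ : ℕ} {A B C : ℝ} {ψ₁ ψ₂ : ℂ → E} {idx₁ idx₂ : ℝ → ℕ}
    (h₁ : IsSP τ ε M₁ A B ψ₁ idx₁) (h₂ : IsSP τ ε M₂ B C ψ₂ idx₂)
    (hag : ∀ z : ℂ, z.re = B → 0 ≤ z.im → z.im ≤ τ → ψ₁ z = ψ₂ z) :
    IsSP τ ε (M₁ + M₂) A C (fun z => if z.re ≤ B then ψ₁ z else ψ₂ z)
      (fun s => if s ≤ B then idx₁ s else M₁ + idx₂ s) := by
  have e1 : ∀ z ∈ rect A B τ, (if z.re ≤ B then ψ₁ z else ψ₂ z) = ψ₁ z :=
    fun z hz => if_pos hz.2.1
  have e2 : ∀ z ∈ rect B C τ, (if z.re ≤ B then ψ₁ z else ψ₂ z) = ψ₂ z := by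
    intro z hz
    by_cases h : z.re ≤ B
    · rw [if_pos h]
      exact hag z (le_antisymm h hz.1) hz.2.2.1 hz.2.2.2
    · rw [if_neg h]
  refine ⟨?_, ?_, ?_⟩
  · have hsub : rect A C τ ⊆ rect A B τ ∪ rect B C τ := by
      intro z hz
      by_cases h : z.re ≤ B
      · exact Or.inl ⟨hz.1, h, hz.2.2.1, hz.2.2.2⟩
      · exact Or.inr ⟨(not_le.1 h).le, hz.2.1, hz.2.2.1, hz.2.2.2⟩
    refine (lipOn_union (h₁.lip.congr e1) (h₂.lip.congr e2) fun x hx y hy => ?_).mono hsub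
    exact rect_cross hx hy
  · intro s hs1 hs2
    by_cases h : s ≤ B
    · simp only [if_pos h]
      have := h₁.idx_lt s hs1 h
      omega
    · simp only [if_neg h]
      have := h₂.idx_lt s (not_le.1 h).le hs2
      omega
  · intro z hz z' hz' him him' hidx
    by_cases h : z.re ≤ B
    · by_cases h' : z'.re ≤ B
      · simp only [if_pos h, if_pos h'] at hidx ⊢
        exact h₁.slope z ⟨hz.1, h, hz.2.2⟩ z' ⟨hz'.1, h', hz'.2.2⟩ him him' hidx
      · simp only [if_pos h, if_neg h'] at hidx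
        have := h₁.idx_lt z.re hz.1 h
        omega
    · by_cases h' : z'.re ≤ B
      · simp only [if_neg h, if_pos h'] at hidx
        have := h₁.idx_lt z'.re hz'.1 h'
        omega
      · simp only [if_neg h, if_neg h'] at hidx ⊢
        exact h₂.slope z ⟨(not_le.1 h).le, hz.2⟩ z' ⟨(not_le.1 h').le, hz'.2⟩ him him'
          (by omega)

theorem complex_norm_sq (z : ℂ) : ‖z‖ ^ 2 = z.re ^ 2 + z.im ^ 2 := by
  rw [← Complex.normSq_eq_norm_sq, Complex.normSq_apply]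
  ring

/-- Orthonormal combination. -/
theorem norm_sq_orth {n e : E} (hn : ‖n‖ = 1) (he : ‖e‖ = 1) (hne : ⟪e, n⟫ = 0) (a b : ℝ) :
    ‖a • e + b • n‖ ^ 2 = a ^ 2 + b ^ 2 := by
  rw [norm_add_sq_real, inner_smul_left, inner_smul_right, hne, norm_smul, norm_smul, hn, he]
  simp

/-- The linear piece. -/
theorem linear_piece {τ ε : ℝ} (hε0 : 0 ≤ ε) (hε1 : ε ≤ 1) (A B : ℝ) {c e n : E} (hn : ‖n‖ = 1)
    (he : ‖e‖ = 1) (hne : ⟪e, n⟫ = 0) :
    IsSP τ ε 1 A B (fun z => c + (z.re - A) • e + z.im • n) (fun _ => 0) := by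
  have key : ∀ z z' : ℂ, ‖(c + (z.re - A) • e + z.im • n) - (c + (z'.re - A) • e + z'.im • n)‖ =
      ‖z - z'‖ := by
    intro z z'
    have h1 : (c + (z.re - A) • e + z.im • n) - (c + (z'.re - A) • e + z'.im • n) =
        (z.re - z'.re) • e + (z.im - z'.im) • n := by
      module
    rw [h1]
    have h2 := norm_sq_orth hn he hne (z.re - z'.re) (z.im - z'.im)
    have h3 := complex_norm_sq (z - z')
    rw [Complex.sub_re, Complex.sub_im] at h3
    have h4 : ‖(z.re - z'.re) • e + (z.im - z'.im) • n‖ ^ 2 = ‖z - z'‖ ^ 2 := by rw [h2, h3]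
    exact (sq_eq_sq₀ (norm_nonneg _) (norm_nonneg _)).1 h4
  refine ⟨?_, fun _ _ _ => Nat.lt_one_iff.2 rfl, ?_⟩
  · intro z _ z' _
    rw [key, one_mul]
  · intro z _ z' _ _ _ _
    rw [key]
    have : (1 - ε) ^ 2 ≤ 1 := by nlinarith
    nlinarith [norm_nonneg (z - z')]

/-- The number of pieces of a rotation. -/
noncomputable def rotNum (ε : ℝ) : ℕ := ⌊Real.pi / ε⌋₊ + 1

theorem cos_lower {x : ℝ} (hx : |x| ≤ 1) : x ^ 2 / 2 - x ^ 4 * (5 / 96) ≤ 1 - Real.cos x := by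
  have h1 := Real.cos_bound hx
  have h2 := (abs_le.1 h1).2
  have h3 : |x| ^ 4 = x ^ 4 := by
    have : |x| ^ 4 = (|x| ^ 2) ^ 2 := by ring
    rw [this, sq_abs]
    ring
  rw [h3] at h2
  linarith

/-- The rotation piece. -/
theorem rot_piece {τ ε : ℝ} (hτ : 0 < τ) (hε0 : 0 < ε) (hε1 : ε ≤ 1) (A θ : ℝ) (hθ : θ ≤ Real.pi)
    {c n m : E} (hn : ‖n‖ = 1) (hm : ‖m‖ = 1) (hnm : ⟪n, m⟫ = 0) :
    IsSP τ ε (rotNum ε) A (A + θ * τ)
      (fun z => c + z.im • (Real.cos ((z.re - A) / τ) • n + Real.sin ((z.re - A) / τ) • m))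
      (fun s => ⌊(s - A) / (ε * τ)⌋₊) := by
  have key : ∀ z z' : ℂ,
      ‖(c + z.im • (Real.cos ((z.re - A) / τ) • n + Real.sin ((z.re - A) / τ) • m)) -
      (c + z'.im • (Real.cos ((z'.re - A) / τ) • n + Real.sin ((z'.re - A) / τ) • m))‖ ^ 2 =
      (z.im - z'.im) ^ 2 + 2 * z.im * z'.im * (1 - Real.cos ((z.re - z'.re) / τ)) := by
    intro z z'
    have h1 : (c + z.im • (Real.cos ((z.re - A) / τ) • n + Real.sin ((z.re - A) / τ) • m)) -
      (c + z'.im • (Real.cos ((z'.re - A) / τ) • n + Real.sin ((z'.re - A) / τ) • m)) =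
      (z.im * Real.cos ((z.re - A) / τ) - z'.im * Real.cos ((z'.re - A) / τ)) • n +
      (z.im * Real.sin ((z.re - A) / τ) - z'.im * Real.sin ((z'.re - A) / τ)) • m := by
      module
    rw [h1, norm_sq_orth hm hn hnm]
    have h2 : (z.re - z'.re) / τ = (z.re - A) / τ - (z'.re - A) / τ := by ring
    rw [h2, Real.cos_sub]
    have h3 := Real.sin_sq_add_cos_sq ((z.re - A) / τ)
    have h4 := Real.sin_sq_add_cos_sq ((z'.re - A) / τ)
    generalize Real.cos ((z.re - A) / τ) = c1 at *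
    generalize Real.sin ((z.re - A) / τ) = s1 at *
    generalize Real.cos ((z'.re - A) / τ) = c2 at *
    generalize Real.sin ((z'.re - A) / τ) = s2 at *
    have h5 : (z.im * c1 - z'.im * c2) ^ 2 + (z.im * s1 - z'.im * s2) ^ 2 =
        z.im ^ 2 * (s1 ^ 2 + c1 ^ 2) + z'.im ^ 2 * (s2 ^ 2 + c2 ^ 2) -
        2 * z.im * z'.im * (c1 * c2 + s1 * s2) := by ring
    rw [h5, h3, h4]
    ring
  refine ⟨?_, ?_, ?_⟩
  · intro z hz z' hz'
    rw [one_mul]
    apply le_of_sq_le_sq _ (norm_nonneg _)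
    rw [key, complex_norm_sq, Complex.sub_re, Complex.sub_im]
    have h1 : 1 - Real.cos ((z.re - z'.re) / τ) ≤ ((z.re - z'.re) / τ) ^ 2 / 2 := by
      have := Real.one_sub_sq_div_two_le_cos (x := (z.re - z'.re) / τ)
      linarith
    have h2 : 0 ≤ 1 - Real.cos ((z.re - z'.re) / τ) := by
      have := Real.cos_le_one ((z.re - z'.re) / τ)
      linarith
    have h3 : z.im * z'.im ≤ τ * τ := mul_le_mul hz.2.2.2 hz'.2.2.2 hz'.2.2.1 hτ.le
    have h4 : 2 * z.im * z'.im * (1 - Real.cos ((z.re - z'.re) / τ)) ≤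
        2 * (τ * τ) * (((z.re - z'.re) / τ) ^ 2 / 2) := by
      have : 2 * z.im * z'.im ≤ 2 * (τ * τ) := by linarith
      exact mul_le_mul this h1 h2 (by positivity)
    have h5 : 2 * (τ * τ) * (((z.re - z'.re) / τ) ^ 2 / 2) = (z.re - z'.re) ^ 2 := by
      field_simp
    linarith
  · intro s hs1 hs2
    unfold rotNum
    rw [Nat.lt_succ_iff]
    apply Nat.floor_le_floor
    rw [div_le_div_iff₀ (by positivity) hε0]
    have h1 : s - A ≤ Real.pi * τ := by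
      have : θ * τ ≤ Real.pi * τ := mul_le_mul_of_nonneg_right hθ hτ.le
      linarith
    calc (s - A) * ε ≤ (Real.pi * τ) * ε := mul_le_mul_of_nonneg_right h1 hε0.le
      _ = Real.pi * (ε * τ) := by ring
  · intro z hz z' hz' him him' hidx
    have hετ : 0 < ε * τ := by positivity
    have hx : |(z.re - z'.re) / τ| ≤ ε := by
      have h1 : |(z.re - A) / (ε * τ) - (z'.re - A) / (ε * τ)| < 1 := by
        have a1 : 0 ≤ (z.re - A) / (ε * τ) := div_nonneg (by linarith [hz.1]) hετ.le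
        have a2 : 0 ≤ (z'.re - A) / (ε * τ) := div_nonneg (by linarith [hz'.1]) hετ.le
        have b1 := Nat.floor_le a1
        have b2 := Nat.floor_le a2
        have c1 := Nat.lt_floor_add_one ((z.re - A) / (ε * τ))
        have c2 := Nat.lt_floor_add_one ((z'.re - A) / (ε * τ))
        rw [hidx] at b1 c1
        rw [abs_lt]
        constructor <;> linarith
      have h2 : (z.re - A) / (ε * τ) - (z'.re - A) / (ε * τ) = ((z.re - z'.re) / τ) / ε := by
        field_simp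
        ring
      rw [h2, abs_div, abs_of_pos hε0, div_lt_one hε0] at h1
      exact h1.le
    apply le_of_sq_le_sq _ (norm_nonneg _)
    rw [key, mul_pow, complex_norm_sq, Complex.sub_re, Complex.sub_im]
    obtain ⟨x, hxd⟩ : ∃ x, x = (z.re - z'.re) / τ := ⟨_, rfl⟩
    have hxs : z.re - z'.re = x * τ := by rw [hxd, div_mul_cancel₀ _ hτ.ne']
    rw [← hxd] at hx ⊢
    rw [hxs]
    have h1 := cos_lower (hx.trans hε1)
    have hx2 : x ^ 2 ≤ ε ^ 2 := by
      rw [← sq_abs x]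
      have := abs_nonneg x
      gcongr
    have hq0 : 0 ≤ 1 - ε := by linarith
    have h2 : ((1 - ε) * τ) * ((1 - ε) * τ) ≤ z.im * z'.im :=
      mul_le_mul him him' (by positivity) (by linarith [hz.2.2.1])
    have h3 : (1 - ε) ^ 2 * (x ^ 2 / 2) ≤ x ^ 2 / 2 - x ^ 4 * (5 / 96) := by
      have h4 : x ^ 4 = x ^ 2 * x ^ 2 := by ring
      have h5 : x ^ 2 * x ^ 2 ≤ x ^ 2 * ε ^ 2 := mul_le_mul_of_nonneg_left hx2 (sq_nonneg x)
      have h6 : 0 ≤ x ^ 2 := sq_nonneg x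
      have h7 : ε ^ 2 ≤ ε := by nlinarith
      have h8 : x ^ 2 * ε ^ 2 ≤ x ^ 2 * ε := mul_le_mul_of_nonneg_left h7 h6
      have h9 : (1 - ε) ^ 2 ≤ 1 - ε := by nlinarith
      have h10 := mul_le_mul_of_nonneg_right h9 h6
      nlinarith
    have h4 : (1 - ε) ^ 2 * (x ^ 2 / 2) ≤ 1 - Real.cos x := h3.trans h1
    have h5 : 0 ≤ (1 - ε) ^ 2 * (x ^ 2 / 2) := by positivity
    have h6 : 2 * (((1 - ε) * τ) * ((1 - ε) * τ)) * ((1 - ε) ^ 2 * (x ^ 2 / 2)) ≤
        2 * z.im * z'.im * (1 - Real.cos x) := by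
      have : 2 * (((1 - ε) * τ) * ((1 - ε) * τ)) ≤ 2 * z.im * z'.im := by linarith
      exact mul_le_mul this h4 h5 (by
        have := mul_nonneg hz.2.2.1 hz'.2.2.1
        linarith)
    have h7 : ((1 - ε) ^ 2) ^ 2 * (x * τ) ^ 2 =
        2 * (((1 - ε) * τ) * ((1 - ε) * τ)) * ((1 - ε) ^ 2 * (x ^ 2 / 2)) := by ring
    have h8 : ((1 - ε) ^ 2) ^ 2 ≤ 1 := by
      have : (1 - ε) ^ 2 ≤ 1 := by nlinarith
      have := sq_nonneg (1 - ε)
      nlinarith
    have h9 : ((1 - ε) ^ 2) ^ 2 * (z.im - z'.im) ^ 2 ≤ (z.im - z'.im) ^ 2 := by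
      have := sq_nonneg (z.im - z'.im)
      nlinarith
    rw [mul_add, h7]
    linarith

/-- Two unit vectors are related by a rotation. -/
theorem exists_rot (hE : Dim2 E) {n n' : E} (hn : ‖n‖ = 1) (hn' : ‖n'‖ = 1) :
    ∃ (m : E) (θ : ℝ), ‖m‖ = 1 ∧ ⟪n, m⟫ = 0 ∧ 0 ≤ θ ∧ θ ≤ Real.pi ∧
      n' = Real.cos θ • n + Real.sin θ • m := by
  obtain ⟨a, ha⟩ : ∃ a, a = ⟪n, n'⟫ := ⟨_, rfl⟩
  have ha1 : |a| ≤ 1 := by
    have := abs_real_inner_le_norm n n'
    rw [hn, hn', ← ha, one_mul] at this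
    exact this
  have ha2 := abs_le.1 ha1
  have hcos : Real.cos (Real.arccos a) = a := Real.cos_arccos ha2.1 ha2.2
  have hsin : Real.sin (Real.arccos a) ^ 2 = 1 - a ^ 2 := by
    have := Real.sin_sq_add_cos_sq (Real.arccos a)
    rw [hcos] at this
    linarith
  have hv : ‖n' - a • n‖ ^ 2 = 1 - a ^ 2 := by
    rw [norm_sub_sq_real, inner_smul_right, norm_smul, hn, hn', real_inner_comm, ← ha]
    simp
    ring
  have hort : ⟪n, n' - a • n⟫ = 0 := by
    rw [inner_sub_right, inner_smul_right, ← ha, real_inner_self_eq_norm_sq, hn]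
    ring
  by_cases h : Real.sin (Real.arccos a) = 0
  · obtain ⟨m, hm, hnm⟩ := hE.2 n hn
    refine ⟨m, Real.arccos a, hm, hnm, Real.arccos_nonneg a, Real.arccos_le_pi a, ?_⟩
    rw [h, hcos, zero_smul, add_zero]
    rw [h] at hsin
    have h1 : ‖n' - a • n‖ ^ 2 = 0 := by rw [hv, ← hsin]; ring
    have h2 : ‖n' - a • n‖ = 0 := by
      exact pow_eq_zero_iff two_ne_zero |>.1 h1
    rw [norm_eq_zero, sub_eq_zero] at h2
    exact h2
  · have hpos : 0 < Real.sin (Real.arccos a) :=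
      lt_of_le_of_ne (Real.sin_nonneg_of_nonneg_of_le_pi (Real.arccos_nonneg a)
        (Real.arccos_le_pi a)) (Ne.symm h)
    obtain ⟨σ, hσ⟩ : ∃ σ, σ = Real.sin (Real.arccos a) := ⟨_, rfl⟩
    rw [← hσ] at hpos hsin
    have hnorm : ‖n' - a • n‖ = σ := by
      have : ‖n' - a • n‖ ^ 2 = σ ^ 2 := by rw [hv, hsin]
      exact (sq_eq_sq₀ (norm_nonneg _) hpos.le).1 this
    refine ⟨σ⁻¹ • (n' - a • n), Real.arccos a, ?_, ?_, Real.arccos_nonneg a,
      Real.arccos_le_pi a, ?_⟩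
    · rw [norm_smul, hnorm, norm_inv, Real.norm_eq_abs, abs_of_pos hpos, inv_mul_cancel₀ hpos.ne']
    · rw [inner_smul_right, hort, mul_zero]
    · rw [hcos, ← hσ, smul_smul, mul_inv_cancel₀ hpos.ne', one_smul]
      abel

/-- One step of the strip construction. -/
theorem strip_step (hE : Dim2 E) {τ ε lam t : ℝ} (hτ : 0 < τ) (hε0 : 0 < ε) (hε1 : ε ≤ 1)
    (hlam : 0 ≤ lam) (hsmall : Real.pi * τ ≤ (1 - t) * lam) (A : ℝ) {c c' n : E} (hn : ‖n‖ = 1)
    (hcc : ‖c' - c‖ ≤ t * lam) :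
    ∃ (ψ : ℂ → E) (idx : ℝ → ℕ) (n' : E), ‖n'‖ = 1 ∧ IsSP τ ε (rotNum ε + 2) A (A + lam) ψ idx ∧
      (∀ z : ℂ, z.re = A → 0 ≤ z.im → z.im ≤ τ → ψ z = c + z.im • n) ∧
      (∀ z : ℂ, z.re = A + lam → 0 ≤ z.im → z.im ≤ τ → ψ z = c' + z.im • n') := by
  -- the direction
  obtain ⟨e, he, hce⟩ : ∃ e : E, ‖e‖ = 1 ∧ c' - c = ‖c' - c‖ • e := by
    by_cases h : c' - c = 0
    · exact ⟨n, hn, by rw [h, norm_zero, zero_smul]⟩
    · have h1 : ‖c' - c‖ ≠ 0 := norm_ne_zero_iff.2 h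
      refine ⟨‖c' - c‖⁻¹ • (c' - c), ?_, ?_⟩
      · rw [norm_smul, norm_inv, norm_norm, inv_mul_cancel₀ h1]
      · rw [smul_smul, mul_inv_cancel₀ h1, one_smul]
  obtain ⟨n', hn', hen'⟩ := hE.2 e he
  obtain ⟨m, θ, hm, hnm, hθ0, hθ1, hrot⟩ := exists_rot hE hn hn'
  obtain ⟨D, hD⟩ : ∃ D, D = ‖c' - c‖ := ⟨_, rfl⟩
  rw [← hD] at hcc hce
  have hD0 : 0 ≤ D := by rw [hD]; exact norm_nonneg _
  obtain ⟨Λ, hΛ⟩ : ∃ Λ, Λ = lam - θ * τ := ⟨_, rfl⟩
  have hDΛ : D ≤ Λ := by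
    have : θ * τ ≤ Real.pi * τ := mul_le_mul_of_nonneg_right hθ1 hτ.le
    rw [hΛ]
    linarith
  have hθτ : 0 ≤ θ * τ := by positivity
  obtain ⟨A₁, hA₁⟩ : ∃ A₁, A₁ = A + θ * τ := ⟨_, rfl⟩
  obtain ⟨A₂, hA₂⟩ : ∃ A₂, A₂ = A₁ + (Λ + D) / 2 := ⟨_, rfl⟩
  have hA₃ : A + lam = A₂ + (Λ - D) / 2 := by
    rw [hA₂, hA₁, hΛ]
    ring
  have p1 := rot_piece (c := c) hτ hε0 hε1 A θ hθ1 hn hm hnm
  rw [← hA₁] at p1
  have p2 := linear_piece (τ := τ) (c := c) hε0.le hε1 A₁ A₂ hn' he hen'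
  have p3 := linear_piece (τ := τ) (c := c + ((Λ + D) / 2) • e) hε0.le hε1 A₂ (A + lam) hn'
    (by rw [norm_neg]; exact he : ‖-e‖ = 1) (by rw [inner_neg_left, hen', neg_zero])
  have p12 := p1.concat p2 (by
    intro z hz _ _
    rw [hz, hA₁]
    have h1 : (A + θ * τ - A) / τ = θ := by
      field_simp
      ring
    rw [h1, ← hrot]
    simp)
  have p123 := p12.concat p3 (by
    intro z hz _ _
    have h1 : (if z.re ≤ A₁ then c + z.im • (Real.cos ((z.re - A) / τ) • n +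
        Real.sin ((z.re - A) / τ) • m) else c + (z.re - A₁) • e + z.im • n') =
        c + (z.re - A₁) • e + z.im • n' := by
      by_cases h : z.re ≤ A₁
      · rw [if_pos h]
        have h2 : z.re = A₁ := by
          apply le_antisymm h
          rw [hz, hA₂]
          linarith
        have h3 : (z.re - A) / τ = θ := by
          rw [h2, hA₁]
          field_simp
          ring
        rw [h3, ← hrot, h2]
        simp
      · rw [if_neg h]
    rw [h1, hz, hA₂]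
    simp)
  refine ⟨_, _, n', hn', p123, ?_, ?_⟩
  · intro z hz _ _
    have h1 : z.re ≤ A₂ := by rw [hz, hA₂, hA₁]; linarith
    have h2 : z.re ≤ A₁ := by rw [hz, hA₁]; linarith
    simp only [if_pos h1, if_pos h2]
    rw [hz]
    simp
  · intro z hz _ _
    by_cases h : z.re ≤ A₂
    · -- then `Λ = D`
      have h1 : Λ = D := by
        rw [hz, hA₃] at h
        linarith
      have h2 : z.re = A₁ + D := by rw [hz, hA₃, hA₂, h1]; ring
      simp only [if_pos h]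
      by_cases h3 : z.re ≤ A₁
      · have h4 : D = 0 := by
          rw [h2] at h3
          linarith
        rw [if_pos h3]
        have h5 : (z.re - A) / τ = θ := by
          rw [h2, h4, hA₁]
          field_simp
          ring
        rw [h5, ← hrot]
        rw [h4, zero_smul, sub_eq_zero] at hce
        rw [hce]
      · rw [if_neg h3, h2]
        have : A₁ + D - A₁ = D := by ring
        rw [this, ← hce]
        abel
    · simp only [if_neg h]
      rw [hz, hA₃]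
      have : c + ((Λ + D) / 2) • e + (A₂ + (Λ - D) / 2 - A₂) • -e + z.im • n' =
          c + D • e + z.im • n' := by
        module
      rw [this, ← hce]
      abel

/-- The chain of steps. -/
theorem strip_chain (hE : Dim2 E) {τ ε lam t : ℝ} (hτ : 0 < τ) (hε0 : 0 < ε) (hε1 : ε ≤ 1)
    (hlam : 0 < lam) (hsmall : Real.pi * τ ≤ (1 - t) * lam) (N : ℕ) (c : ℕ → E)
    (hc : ∀ i < N, ‖c (i + 1) - c i‖ ≤ t * lam) :
    ∃ (ψ : ℂ → E) (idx : ℝ → ℕ) (n : E), ‖n‖ = 1 ∧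
      IsSP τ ε (N * (rotNum ε + 2) + 1) 0 (N * lam) ψ idx ∧
      (∀ z : ℂ, z.re = N * lam → 0 ≤ z.im → z.im ≤ τ → ψ z = c N + z.im • n) ∧
      (∀ i ≤ N, ψ ((i * lam : ℝ) : ℂ) = c i) := by
  induction N with
  | zero =>
    obtain ⟨e, he⟩ := hE.1
    obtain ⟨n, hn, hen⟩ := hE.2 e he
    refine ⟨fun z => c 0 + (z.re - 0) • e + z.im • n, fun _ => 0, n, hn, ?_, ?_, ?_⟩
    · have := linear_piece (τ := τ) (c := c 0) hε0.le hε1 0 ((0 : ℕ) * lam) hn he hen
      simpa using this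
    · intro z hz _ _
      simp [hz]
    · intro i hi
      have : i = 0 := by omega
      subst this
      simp
  | succ N ih =>
    obtain ⟨ψ₁, idx₁, n, hn, hsp, hend, hnode⟩ := ih fun i hi => hc i (by omega)
    obtain ⟨ψ₂, idx₂, n', hn', hsp₂, hst₂, hend₂⟩ := strip_step hE hτ hε0 hε1 hlam.le hsmall
      (N * lam) hn (hc N (by omega))
    have hBC : (N : ℝ) * lam + lam = ((N + 1 : ℕ) : ℝ) * lam := by
      push_cast
      ring
    rw [hBC] at hsp₂ hend₂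
    have h12 := hsp.concat hsp₂ (fun z hz h0 h1 => by rw [hend z hz h0 h1, hst₂ z hz h0 h1])
    have hMM : N * (rotNum ε + 2) + 1 + (rotNum ε + 2) = (N + 1) * (rotNum ε + 2) + 1 := by ring
    rw [hMM] at h12
    refine ⟨_, _, n', hn', h12, ?_, ?_⟩
    · intro z hz h0 h1
      have h2 : ¬ z.re ≤ N * lam := by
        rw [hz, ← hBC]
        linarith
      simp only [if_neg h2]
      exact hend₂ z hz h0 h1
    · intro i hi
      by_cases h : i ≤ N
      · have h1 : ((i * lam : ℝ) : ℂ).re ≤ N * lam := by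
          rw [Complex.ofReal_re]
          have : (i : ℝ) ≤ N := by exact_mod_cast h
          exact mul_le_mul_of_nonneg_right this hlam.le
        simp only [if_pos h1]
        exact hnode i h
      · have hi' : i = N + 1 := by omega
        subst hi'
        have h1 : ¬ (((N + 1 : ℕ) * lam : ℝ) : ℂ).re ≤ N * lam := by
          rw [Complex.ofReal_re, ← hBC]
          linarith
        simp only [if_neg h1]
        rw [hend₂ _ (by rw [Complex.ofReal_re]) (by rw [Complex.ofReal_im])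
          (by rw [Complex.ofReal_im]; exact hτ.le)]
        rw [Complex.ofReal_im, zero_smul, add_zero]

/-- The pigeonhole argument. -/
theorem strip_pigeonhole {τ ε : ℝ} (hτ : 0 < τ) (hε0 : 0 < ε) (hε1 : ε ≤ 1) {M : ℕ} {B : ℝ}
    {ψ : ℂ → E} {idx : ℝ → ℕ} (h : IsSP τ ε M 0 B ψ idx) {T : Set ℂ}
    (hT : ∀ y, 0 ≤ y → y ≤ τ → ∃ z ∈ T, z.im = y ∧ 0 ≤ z.re ∧ z.re ≤ B) :
    ∃ z ∈ T, ∃ z' ∈ T, z ∈ rect 0 B τ ∧ z' ∈ rect 0 B τ ∧ τ * ε / M ≤ ‖z - z'‖ ∧
      (1 - ε) ^ 2 * ‖z - z'‖ ≤ ‖ψ z - ψ z'‖ := by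
  have hM : 0 < M := by
    obtain ⟨z, _, _, hz0, hz1⟩ := hT 0 le_rfl hτ.le
    exact lt_of_le_of_lt (Nat.zero_le _) (h.idx_lt z.re hz0 hz1)
  have hM' : (0 : ℝ) < M := by exact_mod_cast hM
  let y : Fin (M + 1) → ℝ := fun j => τ * (1 - ε * j / M)
  have hy0 : ∀ j, (1 - ε) * τ ≤ y j := by
    intro j
    have h1 : ε * j / M ≤ ε := by
      rw [div_le_iff₀ hM']
      have : (j : ℝ) ≤ M := by
        have := j.2
        exact_mod_cast Nat.lt_succ_iff.1 this
      exact mul_le_mul_of_nonneg_left this hε0.le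
    simp only [y]
    rw [mul_comm τ]
    exact mul_le_mul_of_nonneg_right (by linarith) hτ.le
  have hy1 : ∀ j, y j ≤ τ := by
    intro j
    have h1 : 0 ≤ ε * j / M := by positivity
    simp only [y]
    nlinarith
  have hy2 : ∀ j, 0 ≤ y j := fun j => le_trans (mul_nonneg (by linarith) hτ.le) (hy0 j)
  choose z hzT hzim hzre0 hzre1 using fun j => hT (y j) (hy2 j) (hy1 j)
  have hrect : ∀ j, z j ∈ rect 0 B τ := fun j =>
    ⟨hzre0 j, hzre1 j, by rw [hzim]; exact hy2 j, by rw [hzim]; exact hy1 j⟩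
  obtain ⟨i, j, hij, hidx⟩ := Fintype.exists_ne_map_eq_of_card_lt
    (fun j : Fin (M + 1) => (⟨idx (z j).re, h.idx_lt _ (hzre0 j) (hzre1 j)⟩ : Fin M)) (by simp)
  simp only [Fin.mk.injEq] at hidx
  refine ⟨z i, hzT i, z j, hzT j, hrect i, hrect j, ?_, ?_⟩
  · have h1 : |(z i - z j).im| ≤ ‖z i - z j‖ := Complex.abs_im_le_norm _
    refine le_trans ?_ h1
    rw [Complex.sub_im, hzim, hzim]
    simp only [y]
    have h2 : τ * (1 - ε * i / M) - τ * (1 - ε * j / M) = (τ * ε / M) * ((j : ℝ) - i) := by ring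
    rw [h2, abs_mul, abs_of_pos (by positivity : 0 < τ * ε / M)]
    have h3 : 1 ≤ |((j : ℕ) : ℝ) - (i : ℕ)| := by
      have h4 : ((j : ℕ) : ℤ) - (i : ℕ) ≠ 0 := by
        intro h5
        apply hij
        ext
        omega
      have h5 := Int.one_le_abs h4
      have h6 : ((|((j : ℕ) : ℤ) - (i : ℕ)| : ℤ) : ℝ) = |((j : ℕ) : ℝ) - (i : ℕ)| := by
        push_cast
        rfl
      rw [← h6]
      exact_mod_cast h5
    have h7 : 0 < τ * ε / M := by positivity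
    nlinarith
  · exact h.slope _ (hrect i) _ (hrect j) (by rw [hzim]; exact hy0 i) (by rw [hzim]; exact hy0 j)
      hidx

end Pool.Agent.Lib.MP_1e31fb_an
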