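import Pool.Agent.Lib.MP_1e31fb_an.NonSep2

set_option linter.unusedSectionVars false

open Set Metric Topology Filter
open scoped RealInnerProductSpace

namespace Pool.Agent.Lib.MP_1e31fb_an

variable {H₁ : Type*} [NormedAddCommGroup H₁] [InnerProductSpace ℝ H₁] [CompleteSpace H₁]

/-- The nonseparable case. -/
theorem testSystem_of_not_separable (hns : ¬ TopologicalSpace.SeparableSpace H₁) :
    TestSystem H₁ := by
  classical
  obtain ⟨w, b, -⟩ := exists_hilbertBasis ℝ H₁
  let _ : LinearOrder w := IsWellOrder.linearOrder (WellOrderingRel : w → w → Prop)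
  have hb : Orthonormal ℝ b := b.orthonormal
  have hdense : Dense ((Submodule.span ℝ (range b) : Submodule ℝ H₁) : Set H₁) :=
    (Submodule.dense_iff_topologicalClosure_eq_top).2 b.dense_span
  have hinf : Infinite w := by
    by_contra hfin
    rw [not_infinite_iff_finite] at hfin
    apply hns
    have h1 : TopologicalSpace.IsSeparable (range b) := (Set.finite_range b).countable.isSeparable
    have h2 := h1.span (R := ℝ)
    have h3 := h2.closure
    rw [hdense.closure_eq] at h3
    exact TopologicalSpace.isSeparable_univ_iff.1 h3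
  obtain ⟨P, len, m, hP, hsys⟩ := exists_system (b := b) hb
  refine ⟨P, len, m, hP, fun U G hU hG hcr x hx => ?_⟩
  have hN : NoCross b U G := by
    intro F c d hF hcd hne hseg
    obtain ⟨n, ν, hmem⟩ := hsys F c d hF hcd hne
    exact ⟨ν, (hP n).unit _ hmem, hcr n _ hmem hseg⟩
  obtain ⟨R, hR, hball⟩ := Metric.isOpen_iff.1 hG x hx.2
  refine ⟨R / 3, by positivity, fun y hy => ?_⟩
  by_contra hyU
  obtain ⟨r, hr⟩ : ∃ r, r = R / 3 := ⟨_, rfl⟩
  rw [← hr] at hy
  have hr0 : 0 < r := by rw [hr]; positivity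
  have hrR : 3 * r = R := by rw [hr]; ring
  -- approximation
  have happ : ∀ O : Set H₁, IsOpen O → O.Nonempty → ∃ c : w →₀ ℝ, ∀ F : Finset w,
      c.support ⊆ F → vec b F c ∈ O := by
    intro O hO hOne
    obtain ⟨z, hzO, hz⟩ := hdense.inter_open_nonempty O hO hOne
    obtain ⟨c, hc⟩ := Finsupp.mem_span_range_iff_exists_finsupp.1 hz
    refine ⟨c, fun F hF => ?_⟩
    rw [Finsupp.sum_of_support_subset c hF _ (by simp)] at hc
    unfold vec
    rw [hc]
    exact hzO
  have hpert : ∀ (O : Set H₁) (F : Finset w) (c : w → ℝ), IsOpen O → vec b F c ∈ O →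
      ∃ c' : w → ℝ, (∀ δ ∈ F, c' δ ≠ 0) ∧ vec b F c' ∈ O := by
    intro O F c hO hc
    obtain ⟨η, hη, h⟩ := vec_ball hb hO hc
    refine ⟨fun δ => if c δ = 0 then η / 2 else c δ, fun δ _ => ?_, h _ fun δ _ => ?_⟩
    · by_cases h0 : c δ = 0
      · simp only [if_pos h0]
        positivity
      · simp only [if_neg h0]
        exact h0
    · by_cases h0 : c δ = 0
      · simp only [if_pos h0]
        rw [h0, sub_zero, abs_of_pos (by positivity)]
        linarith
      · simp only [if_neg h0]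
        rw [sub_self, abs_zero]
        exact hη
  have ho1 : IsOpen (U ∩ ball x r) := hU.inter isOpen_ball
  have hne1 : (U ∩ ball x r).Nonempty := by
    obtain ⟨z, hz1, hz2⟩ := mem_closure_iff.1 hx.1 (ball x r) isOpen_ball (mem_ball_self hr0)
    exact ⟨z, hz2, hz1⟩
  have ho2 : IsOpen ((closure U)ᶜ ∩ ball x r) := isClosed_closure.isOpen_compl.inter isOpen_ball
  have hne2 : ((closure U)ᶜ ∩ ball x r).Nonempty := ⟨y, hyU, hy⟩
  obtain ⟨c, hc⟩ := happ _ ho1 hne1
  obtain ⟨d, hd⟩ := happ _ ho2 hne2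
  obtain ⟨T, hT⟩ := Infinite.exists_subset_card_eq w 3
  obtain ⟨F, hF⟩ : ∃ F : Finset w, F = c.support ∪ d.support ∪ T := ⟨_, rfl⟩
  have hcF : c.support ⊆ F := by
    rw [hF]
    exact Finset.subset_union_left.trans Finset.subset_union_left
  have hdF : d.support ⊆ F := by
    rw [hF]
    exact Finset.subset_union_right.trans Finset.subset_union_left
  have hTF : T ⊆ F := by
    rw [hF]
    exact Finset.subset_union_right
  have hcard : 3 ≤ F.card := by
    rw [← hT]
    exact Finset.card_le_card hTF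
  obtain ⟨c', hc'0, hc'⟩ := hpert _ F c ho1 (hc F hcF)
  obtain ⟨d', hd'0, hd'⟩ := hpert _ F d ho2 (hd F hdF)
  have h3 : dist (vec b F c') x < r := hc'.2
  have h4 : dist (vec b F d') x < r := hd'.2
  rw [dist_eq_norm] at h3 h4
  have h5 : ‖vec b F d' - vec b F c'‖ ≤ ‖vec b F d' - x‖ + ‖x - vec b F c'‖ :=
    norm_sub_le_norm_sub_add_norm_sub _ _ _
  rw [norm_sub_rev x] at h5
  have key : ∀ e : w → ℝ, (∀ δ ∈ F, e δ = d' δ ∨ e δ = c' δ) → vec b F e ∈ ball x (3 * r) := by
    intro e he
    have h1 : ‖vec b F e - vec b F c'‖ ^ 2 ≤ ‖vec b F d' - vec b F c'‖ ^ 2 := by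
      rw [← vec_sub, ← vec_sub, norm_sq_vec hb, norm_sq_vec hb]
      refine Finset.sum_le_sum fun δ hδ => ?_
      rcases he δ hδ with h | h
      · rw [h]
      · rw [h, sub_self]
        have := sq_nonneg (d' δ - c' δ)
        simpa using this
    have h2 : ‖vec b F e - vec b F c'‖ ≤ ‖vec b F d' - vec b F c'‖ := by
      have := Real.sqrt_le_sqrt h1
      rwa [Real.sqrt_sq (norm_nonneg _), Real.sqrt_sq (norm_nonneg _)] at this
    have h6 : ‖vec b F e - x‖ ≤ ‖vec b F e - vec b F c'‖ + ‖vec b F c' - x‖ :=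
      norm_sub_le_norm_sub_add_norm_sub _ _ _
    rw [mem_ball, dist_eq_norm]
    linarith
  refine chain_const hb hU hN (B := ball x (3 * r)) isOpen_ball (convex_ball _ _)
    (by rw [hrR]; exact hball) hcard hc'0 hd'0 (fun S _ => key _ fun δ _ => ?_) hc'.1 hd'.1
  by_cases h : δ ∈ S
  · exact Or.inl (if_pos h)
  · exact Or.inr (if_neg h)

theorem testSystem (hE : Dim2 H₁) : TestSystem H₁ := by
  by_cases h : TopologicalSpace.SeparableSpace H₁
  · exact testSystem_of_separable hE
  · exact testSystem_of_not_separable h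

end Pool.Agent.Lib.MP_1e31fb_an
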