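import Pool.Agent.Lib.MP_1e31fb_an.TestSys

set_option linter.unusedSectionVars false

open Set Metric Topology Filter
open scoped RealInnerProductSpace

namespace Pool.Agent.Lib.MP_1e31fb_an

variable {H₁ H₂ : Type*} [NormedAddCommGroup H₁] [InnerProductSpace ℝ H₁] [CompleteSpace H₁]
  [NormedAddCommGroup H₂] [InnerProductSpace ℝ H₂] [CompleteSpace H₂]

theorem one_dim {E : Type*} [NormedAddCommGroup E] [InnerProductSpace ℝ E] {e : E}
    (he : ‖e‖ = 1) (h : ¬ ∃ n : E, ‖n‖ = 1 ∧ ⟪e, n⟫ = 0) (x : E) : x = ⟪e, x⟫ • e := by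
  by_contra hne
  apply h
  have h1 : x - ⟪e, x⟫ • e ≠ 0 := sub_ne_zero.2 hne
  have h2 : ‖x - ⟪e, x⟫ • e‖ ≠ 0 := norm_ne_zero_iff.2 h1
  refine ⟨‖x - ⟪e, x⟫ • e‖⁻¹ • (x - ⟪e, x⟫ • e), ?_, ?_⟩
  · rw [norm_smul, norm_inv, norm_norm, inv_mul_cancel₀ h2]
  · rw [inner_smul_right, inner_sub_right, inner_smul_right, real_inner_self_eq_norm_sq, he]
    ring

/-- The wild extension in a component, with a source of dimension at least two. -/
theorem core_dim2 (hE : Dim2 H₂) (hD : Dim2 H₁) {W : Set H₁} (hW : IsOpen W)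
    (hWc : IsPreconnected W) {f : H₁ → H₂} (hf : LipOn 1 f (frontier W))
    (hft : ∀ t < 1, ¬ LipOn t f (frontier W)) :
    ∃ u ∈ Ext (frontier W) f, ∀ U ⊆ W, IsOpen U → U.Nonempty → ∀ t, 0 ≤ t → t < 1 →
      ¬ LipOn t u (frontier U) := by
  have hF : (frontier W).Nonempty := by
    by_contra h
    rw [not_nonempty_iff_eq_empty] at h
    apply hft 0 one_pos
    rw [h]
    intro x hx
    exact absurd hx (notMem_empty x)
  obtain ⟨P, len, m, hP, htest⟩ := testSystem hD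
  obtain ⟨u, hu, hwild⟩ := exists_wild hE hf hF P len m hP
  refine ⟨u, hu, fun U hUW hU hUne t ht0 ht1 hfr => ?_⟩
  have hWF : ∀ z ∈ frontier W, z ∉ W := by
    intro z hz
    rw [hW.frontier_eq] at hz
    exact hz.2
  have hUF : Disjoint U (frontier W) := by
    rw [disjoint_left]
    intro z hz hz'
    exact hWF z hz' (hUW hz)
  obtain ⟨hroom, u', hu', hu'eq, hu'lip⟩ := locking hu hU hUF ht0 ht1 hfr
  -- the set of room
  let G : Set H₁ := W ∩ {x | ∃ ρ > 0, x ∈ Room (frontier W) f ρ}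
  have hG : IsOpen G := by
    refine hW.inter ?_
    rw [Metric.isOpen_iff]
    rintro x ⟨ρ, hρ, hx⟩
    refine ⟨ρ / 2, by positivity, fun y hy => ⟨ρ - ρ / 2, by linarith, room_shift hx ?_⟩⟩
    rw [mem_ball, dist_eq_norm, norm_sub_rev] at hy
    exact hy.le
  have hUG : U ⊆ G := fun x hx => ⟨hUW hx, hroom x hx⟩
  have hopen : ∀ x ∈ closure U ∩ G, ∃ r > 0, ball x r ⊆ closure U := by
    refine htest U G hU hG fun n p hp hseg τ hτ hcr => ?_
    exact hwild n p hp (fun x hx => (hseg hx).2) (frontier U) τ hτ hcr t ht1 hfr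
  -- convex subsets of `G` meeting `U`
  have hconv : ∀ (x₀ : H₁) (r : ℝ), x₀ ∈ U → 0 < r → ball x₀ r ⊆ G → ball x₀ r ⊆ closure U := by
    intro x₀ r hx₀ hr hb
    by_contra hcon
    rw [not_subset] at hcon
    obtain ⟨y, hy, hyU⟩ := hcon
    have hpre : IsPreconnected (ball x₀ r) := (convex_ball x₀ r).isPreconnected
    have h1 : ball x₀ r ⊆ interior (closure U) ∪ (closure U)ᶜ := by
      intro z hz
      by_cases h : z ∈ closure U
      · obtain ⟨r', hr', hb'⟩ := hopen z ⟨h, hb hz⟩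
        exact Or.inl (mem_interior.2 ⟨ball z r', hb', isOpen_ball, mem_ball_self hr'⟩)
      · exact Or.inr h
    have hdisj : Disjoint (interior (closure U)) (closure U)ᶜ :=
      disjoint_compl_right_iff_subset.2 interior_subset
    rcases IsPreconnected.subset_or_subset isOpen_interior isClosed_closure.isOpen_compl hdisj h1
      hpre with h | h
    · exact hyU (interior_subset (h hy))
    · exact h (mem_ball_self hr) (subset_closure hx₀)
  -- no point of the closure of `U` in `W` is without room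
  have hclG : ∀ p ∈ closure U ∩ W, p ∈ G := by
    rintro p ⟨hpU, hpW⟩
    by_contra hpG
    obtain ⟨ρ₀, hρ₀, hball⟩ := Metric.isOpen_iff.1 hW p hpW
    obtain ⟨x₀, hx₀, hd⟩ := Metric.mem_closure_iff.1 hpU (ρ₀ / 16) (by positivity)
    rw [dist_eq_norm] at hd
    have hGc : (Gᶜ : Set H₁).Nonempty := ⟨p, hpG⟩
    obtain ⟨r, hr⟩ : ∃ r, r = infDist x₀ Gᶜ := ⟨_, rfl⟩
    have hr0 : 0 < r := by
      rw [hr]
      rw [← (hG.isClosed_compl).notMem_iff_infDist_pos hGc]
      exact fun h => h (hUG hx₀)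
    have hrp : r ≤ ρ₀ / 16 := by
      have h1 := infDist_le_dist_of_mem (x := x₀) (show p ∈ Gᶜ from hpG)
      rw [dist_eq_norm, norm_sub_rev] at h1
      linarith
    have hbG : ball x₀ r ⊆ G := by
      intro y hy
      by_contra hyG
      have h1 := infDist_le_dist_of_mem (x := x₀) (show y ∈ Gᶜ from hyG)
      rw [mem_ball, dist_comm] at hy
      linarith
    have hbU := hconv x₀ r hx₀ hr0 hbG
    obtain ⟨s, hs⟩ : ∃ s, s = min r ((1 - t) * (ρ₀ / 2) / 32) := ⟨_, rfl⟩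
    have h1t : 0 < 1 - t := by linarith
    have hs0 : 0 < s := by
      rw [hs]
      exact lt_min hr0 (by positivity)
    have hsr : s ≤ r := by rw [hs]; exact min_le_left _ _
    obtain ⟨p', hp', hdp'⟩ := (infDist_lt_iff hGc).1 (show infDist x₀ Gᶜ < r + s by
      rw [← hr]; linarith)
    rw [dist_eq_norm] at hdp'
    have hpp' : ‖p - p'‖ ≤ 3 * ρ₀ / 16 := by
      have : ‖p - p'‖ ≤ ‖p - x₀‖ + ‖x₀ - p'‖ := norm_sub_le_norm_sub_add_norm_sub _ _ _
      linarith
    have hp'W : p' ∈ W := by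
      apply hball
      rw [mem_ball, dist_eq_norm, norm_sub_rev]
      linarith
    have hp'room : ¬ ∃ ρ' > 0, p' ∈ Room (frontier W) f ρ' := fun h => hp' ⟨hp'W, h⟩
    refine interior_ball hu' ht1 (ρ := ρ₀ / 2) hr0 (by linarith) hs (fun z hz => ?_) hp'room
      ?_ hdp'.le (hu'lip.mono hbU)
    · have h1 : ρ₀ ≤ ‖p - z‖ := by
        by_contra h
        push Not at h
        apply hWF z hz
        apply hball
        rw [mem_ball, dist_eq_norm, norm_sub_rev]
        exact h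
      have h2 : ‖p - z‖ ≤ ‖p - p'‖ + ‖p' - z‖ := norm_sub_le_norm_sub_add_norm_sub _ _ _
      linarith
    · rw [hr, ← dist_eq_norm]
      exact infDist_le_dist_of_mem hp'
  -- conclusion
  have hWU : W ⊆ closure U := by
    by_contra hcon
    rw [not_subset] at hcon
    obtain ⟨y, hy, hyU⟩ := hcon
    have h1 : W ⊆ interior (closure U) ∪ (closure U)ᶜ := by
      intro z hz
      by_cases h : z ∈ closure U
      · obtain ⟨r', hr', hb'⟩ := hopen z ⟨h, hclG z ⟨h, hz⟩⟩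
        exact Or.inl (mem_interior.2 ⟨ball z r', hb', isOpen_ball, mem_ball_self hr'⟩)
      · exact Or.inr h
    have hdisj : Disjoint (interior (closure U)) (closure U)ᶜ :=
      disjoint_compl_right_iff_subset.2 interior_subset
    obtain ⟨x₀, hx₀⟩ := hUne
    rcases IsPreconnected.subset_or_subset isOpen_interior isClosed_closure.isOpen_compl hdisj h1
      hWc with h | h
    · exact hyU (interior_subset (h hy))
    · exact h (hUW hx₀) (subset_closure hx₀)
  have hFU : frontier W ⊆ closure U :=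
    frontier_subset_closure.trans (closure_minimal hWU isClosed_closure)
  refine hft t ht1 ((hu'lip.mono hFU).congr fun z hz => (hu'.2 z hz).symm)

/-- The one dimensional case. -/
theorem core_dim1 (hD : ¬ Dim2 H₁) {W : Set H₁} (hW : IsOpen W)
    (hWc : IsPreconnected W) {f : H₁ → H₂} (hf : LipOn 1 f (frontier W))
    (hft : ∀ t < 1, ¬ LipOn t f (frontier W)) :
    ∃ u ∈ Ext (frontier W) f, ∀ U ⊆ W, IsOpen U → U.Nonempty → ∀ t, 0 ≤ t → t < 1 →
      ¬ LipOn t u (frontier U) := by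
  obtain ⟨u, hu1, hu2⟩ := kirszbraun f zero_le_one hf
  refine ⟨u, ⟨hu1, hu2⟩, fun U hUW hU hUne t ht0 ht1 hfr => ?_⟩
  have hWF : ∀ z ∈ frontier W, z ∉ W := by
    intro z hz
    rw [hW.frontier_eq] at hz
    exact hz.2
  have hUF : Disjoint U (frontier W) := by
    rw [disjoint_left]
    intro z hz hz'
    exact hWF z hz' (hUW hz)
  obtain ⟨hroom, -⟩ := locking ⟨hu1, hu2⟩ hU hUF ht0 ht1 hfr
  obtain ⟨x, hx⟩ := hUne
  obtain ⟨ρ, hρ, c, hc⟩ := hroom x hx
  have hxW := hUW hx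
  -- two points of the frontier
  obtain ⟨a, ha, b, hb, hab⟩ : ∃ a ∈ frontier W, ∃ b ∈ frontier W, f a ≠ f b := by
    by_contra hcon
    push Not at hcon
    apply hft 0 one_pos
    intro a ha b hb
    rw [hcon a ha b hb, sub_self, norm_zero, zero_mul]
  have hab' : a ≠ b := fun h => hab (by rw [h])
  -- the unit vector
  have hex : ∃ e : H₁, ‖e‖ = 1 := by
    have h1 : ‖a - b‖ ≠ 0 := norm_ne_zero_iff.2 (sub_ne_zero.2 hab')
    exact ⟨‖a - b‖⁻¹ • (a - b), by rw [norm_smul, norm_inv, norm_norm, inv_mul_cancel₀ h1]⟩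
  obtain ⟨e, he, hno⟩ : ∃ e : H₁, ‖e‖ = 1 ∧ ¬ ∃ n : H₁, ‖n‖ = 1 ∧ ⟪e, n⟫ = 0 := by
    by_contra hcon
    push Not at hcon
    exact hD ⟨hex, hcon⟩
  have hone : ∀ x : H₁, x = ⟪e, x⟫ • e := one_dim he hno
  have hdist : ∀ x y : H₁, ‖x - y‖ = |⟪e, x⟫ - ⟪e, y⟫| := by
    intro x y
    conv_lhs => rw [hone x, hone y]
    rw [← sub_smul, norm_smul, he, mul_one, Real.norm_eq_abs]
  have hinj : ∀ x y : H₁, ⟪e, x⟫ = ⟪e, y⟫ → x = y := by
    intro x y h
    rw [hone x, hone y, h]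
  have hord : OrdConnected ((fun x : H₁ => ⟪e, x⟫) '' W) := by
    apply IsPreconnected.ordConnected
    apply hWc.image
    fun_prop
  have hcl : ∀ z ∈ frontier W, ∀ ε > 0, ∃ w ∈ W, |⟪e, z⟫ - ⟪e, w⟫| < ε := by
    intro z hz ε hε
    obtain ⟨w, hw, hd⟩ := Metric.mem_closure_iff.1 (frontier_subset_closure hz) ε hε
    rw [dist_eq_norm, hdist] at hd
    exact ⟨w, hw, hd⟩
  -- separation
  have hsep : ∀ z ∈ frontier W, ∀ z' ∈ frontier W, ⟪e, z⟫ < ⟪e, z'⟫ →
      ⟪e, z⟫ < ⟪e, x⟫ ∧ ⟪e, x⟫ < ⟪e, z'⟫ := by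
    intro z hz z' hz' hlt
    constructor
    · by_contra h
      push Not at h
      obtain ⟨w, hw, hd⟩ := hcl z' hz' (⟪e, z'⟫ - ⟪e, z⟫) (by linarith)
      rw [abs_lt] at hd
      have h1 : ⟪e, z⟫ ∈ (fun x : H₁ => ⟪e, x⟫) '' W :=
        hord.out ⟨x, hxW, rfl⟩ ⟨w, hw, rfl⟩ ⟨h, by simp only; linarith [hd.2]⟩
      obtain ⟨y, hy, hyz⟩ := h1
      rw [hinj y z hyz] at hy
      exact hWF z hz hy
    · by_contra h
      push Not at h
      obtain ⟨w, hw, hd⟩ := hcl z hz (⟪e, z'⟫ - ⟪e, z⟫) (by linarith)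
      rw [abs_lt] at hd
      have h1 : ⟪e, z'⟫ ∈ (fun x : H₁ => ⟪e, x⟫) '' W :=
        hord.out ⟨w, hw, rfl⟩ ⟨x, hxW, rfl⟩ ⟨by simp only; linarith [hd.1], h⟩
      obtain ⟨y, hy, hyz⟩ := h1
      rw [hinj y z' hyz] at hy
      exact hWF z' hz' hy
  -- the main case
  have main : ∀ a ∈ frontier W, ∀ b ∈ frontier W, ⟪e, a⟫ < ⟪e, b⟫ → False := by
    intro a ha b hb hlt
    have htwo : ∀ z ∈ frontier W, z = a ∨ z = b := by
      intro z hz
      obtain ⟨h1, h2⟩ := hsep a ha b hb hlt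
      rcases lt_trichotomy ⟪e, z⟫ ⟪e, a⟫ with h | h | h
      · have := (hsep z hz a ha h).2
        linarith
      · exact Or.inl (hinj _ _ h)
      · rcases lt_trichotomy ⟪e, z⟫ ⟪e, b⟫ with h' | h' | h'
        · have h3 := (hsep a ha z hz h).2
          have h4 := (hsep z hz b hb h').1
          linarith
        · exact Or.inr (hinj _ _ h')
        · have := (hsep b hb z hz h').1
          linarith
    obtain ⟨h1, h2⟩ := hsep a ha b hb hlt
    have hfab : ‖f a - f b‖ ≤ ‖a - b‖ - 2 * ρ := by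
      have h3 := hc a ha
      have h4 := hc b hb
      have h5 : ‖f a - f b‖ ≤ ‖f a - c‖ + ‖c - f b‖ := norm_sub_le_norm_sub_add_norm_sub _ _ _
      rw [norm_sub_rev (f a) c] at h5
      have h6 : ‖x - a‖ + ‖x - b‖ = ‖a - b‖ := by
        rw [hdist, hdist, hdist, abs_of_pos (by linarith), abs_of_neg (by linarith),
          abs_of_neg (by linarith)]
        ring
      linarith
    have hab0 : 0 < ‖a - b‖ := by
      rw [hdist]
      exact abs_pos.2 (by linarith)
    have hk : ‖f a - f b‖ ≤ (1 - 2 * ρ / ‖a - b‖) * ‖a - b‖ := by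
      rw [sub_mul, div_mul_cancel₀ _ hab0.ne', one_mul]
      exact hfab
    have ht' : 1 - 2 * ρ / ‖a - b‖ < 1 := by
      have : 0 < 2 * ρ / ‖a - b‖ := by positivity
      linarith
    apply hft _ ht'
    intro y hy z hz
    rcases htwo y hy with rfl | rfl <;> rcases htwo z hz with rfl | rfl
    · simp
    · exact hk
    · rw [norm_sub_rev (f y) (f z), norm_sub_rev y z]
      exact hk
    · simp
  rcases lt_trichotomy ⟪e, a⟫ ⟪e, b⟫ with h | h | h
  · exact main a ha b hb h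
  · exact hab' (hinj _ _ h)
  · exact main b hb a ha h

theorem core (hE : Dim2 H₂) {W : Set H₁} (hW : IsOpen W)
    (hWc : IsPreconnected W) {f : H₁ → H₂} (hf : LipOn 1 f (frontier W))
    (hft : ∀ t < 1, ¬ LipOn t f (frontier W)) :
    ∃ u ∈ Ext (frontier W) f, ∀ U ⊆ W, IsOpen U → U.Nonempty → ∀ t, 0 ≤ t → t < 1 →
      ¬ LipOn t u (frontier U) := by
  by_cases hD : Dim2 H₁
  · exact core_dim2 hE hD hW hWc hf hft
  · exact core_dim1 hD hW hWc hf hft

end Pool.Agent.Lib.MP_1e31fb_an
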